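import Mathlib
import Pool.Agent.RV15W.Defs

/-!
# D8W: the walk part of the discriminant -8 instance

Goal (file Main): with `mP` the logarithmic Mahler measure of `(1+x)(1+y) + (1+z)²t`,
`mP = -(8/3) ∫_{-1/3}^{1/3} l(x + i y0) Psi(x + i y0) dx`, `y0 = √2/6`.

Here `l = log s`, `s = (η(2τ) η(3τ)/(η(τ) η(6τ)))^6`, and
`Psi(τ) = (E4(τ) + 4 E4(2τ) - 9 E4(3τ) - 36 E4(6τ))/80`.
`S = X + Y + Z` is the simple cubic walk, `Wk k = E[k/(k-S)]`; `Wk (s+1/s) = a(q) a(q²)`.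
-/

set_option autoImplicit false

open MeasureTheory Set

namespace D8W

open RV15W

noncomputable section

/-- the logarithmic Mahler measure of `(1+x)(1+y) + (1+z)²t` -/
def mP : ℝ :=
  ∫ a in (0:ℝ)..1, ∫ b in (0:ℝ)..1, ∫ c in (0:ℝ)..1, ∫ d in (0:ℝ)..1,
    Real.log ‖(1 + e a) * (1 + e b) + (1 + e c) ^ 2 * e d‖

/-- `x + 1/x` for `x = e a` -/
def X (a : ℝ) : ℝ := 2 * Real.cos (2 * Real.pi * a)

/-- the step of the simple cubic walk -/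
def S (v : ℝ × ℝ × ℝ) : ℝ := X v.1 + X v.2.1 + X v.2.2

/-- `E[k/(k-S)]` (`mu` is Lebesgue measure on the cube) -/
def Wk (k : ℂ) : ℂ := ∫ v, k / (k - (S v : ℂ)) ∂mu

/-- `log((S-Z)/(2-Z))` for `S > 2` -/
def lam (v : ℝ × ℝ × ℝ) : ℝ :=
  if 2 < S v then Real.log ((X v.1 + X v.2.1) / (2 - X v.2.2)) else 0

/-- logarithm of the Euler product -/
def lE (q : ℂ) : ℂ := ∑' n : ℕ, Complex.log (1 - q ^ (n + 1))

/-- `l = log s`, `s = (η(2τ) η(3τ)/(η(τ) η(6τ)))^6` -/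
def l (τ : ℂ) : ℂ :=
  -(Real.pi * Complex.I * τ) + 6 * (lE (qq τ ^ 2) + lE (qq τ ^ 3) - lE (qq τ) - lE (qq τ ^ 6))

/-- the weight 4 Eisenstein series `Psi = Wk · q dl/dq` -/
def Psi (τ : ℂ) : ℂ :=
  (e4 (qq τ) + 4 * e4 (qq τ ^ 2) - 9 * e4 (qq τ ^ 3) - 36 * e4 (qq τ ^ 6)) / 80

/-- `k = s + 1/s` -/
def kt (τ : ℂ) : ℂ := 2 * Complex.cosh (l τ)

/-- imaginary part of the CM point `(2 + √-2)/6` -/
def y0 : ℝ := Real.sqrt 2 / 6

/-- a point of the upper half plane -/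
def pt (x y : ℝ) : ℂ := x + y * Complex.I

/-- the moments of the simple cubic walk -/
def cn (n : ℕ) : ℕ :=
  (2 * n).choose n * ∑ j ∈ Finset.range (n + 1), (n.choose j) ^ 2 * ((2 * j).choose j)

/-- `Σ c_n K^n`, `K = 1/k²` -/
def hW (K : ℂ) : ℂ := ∑' n : ℕ, (cn n : ℂ) * K ^ n

end

end D8W
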