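import Mathlib
import Pool.Agent.D8W.Defs
import Pool.Agent.RV15W.Bas
import Pool.Agent.RV15W.Alg
import Pool.Agent.RV15W.QE
import Pool.Agent.RV15W.Ram
import Pool.Agent.RV15W.Fri
import Pool.Agent.D8M.LD
import Pool.Agent.D8M.LP
import Pool.Agent.D8M.LX
import Pool.Agent.D8M.LB
import Pool.Agent.D8M.CM

/-!
# D8W/Lf: the function `l`

With `x = a(q)`, `z = a(q²)`: `q dl/dq = (2 P(q²) + 3 P(q³) - P(q) - 6 P(q⁶))/4 = (x² - 2z²)/2` (P3, P2), hence `l' = π i (x² - 2z²)`.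
`exp (2 l) = be ga/(al de)`, `be ga + al de = 3xz`, `be ga - al de = x² + 2z²` (rel_be, rel_ga, rel_a1, relB).
At `τ0 = 1/3 + i y0`: `2τ0 = γ τ0`, `γ = (2,-1;3,-1)`; `a(γτ) = (1-3τ) a(τ)` (apply `ca_fricke` twice: `γτ = 1 + σ`,
`σ = τ/(1-3τ)`, `-1/(3σ) = -1/(3τ) + 1`), so `z = (1-3τ0) x = -(i√2/2) x`, `x² + 2z² = 0`, `exp(2 l(τ0)) = 1`.
The proofs are in `Pool/Agent/D8M`.
-/

set_option autoImplicit false

open MeasureTheory Set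

namespace D8W

open RV15W

theorem l_deriv {τ : ℂ} (h : 0 < τ.im) :
    HasDerivAt l (Real.pi * Complex.I * (ca (qq τ) ^ 2 - 2 * ca (qq τ ^ 2) ^ 2)) τ :=
  D8M.l_deriv h

theorem Psi_eq {τ : ℂ} (h : 0 < τ.im) :
    2 * Psi τ = ca (qq τ) * ca (qq τ ^ 2) * (ca (qq τ) ^ 2 - 2 * ca (qq τ ^ 2) ^ 2) :=
  D8M.Psi_eq h

/-- reflection in the imaginary axis -/
theorem l_conj (x : ℝ) {y : ℝ} (hy : 0 < y) : l (pt (-x) y) = starRingEnd ℂ (l (pt x y)) :=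
  D8M.l_conj x hy

theorem Psi_conj (x : ℝ) {y : ℝ} (hy : 0 < y) : Psi (pt (-x) y) = starRingEnd ℂ (Psi (pt x y)) :=
  D8M.Psi_conj x hy

theorem exp_l {τ : ℂ} (h : 0 < τ.im) :
    Complex.exp (2 * l τ) * (al (qq τ) * de (qq τ)) = be (qq τ) * ga (qq τ) :=
  D8M.exp_l h

theorem l_cm : l (pt (1 / 3) y0) = 0 := D8M.l_cm

private theorem Lf_y0 : y0 ≤ 1 := by
  unfold y0
  have h : Real.sqrt 2 ≤ 2 := by
    rw [show (2:ℝ) = Real.sqrt (2 ^ 2) by rw [Real.sqrt_sq (by norm_num)]]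
    exact Real.sqrt_le_sqrt (by norm_num)
  linarith

/-- on the ray `Re τ = 1/3`, `Re l` is increasing from `0` and `Im l` is decreasing from `0` to `-π/3` -/
theorem ray_bounds : ∃ c C : ℝ, 0 < c ∧ ∀ y ∈ Icc y0 1,
    c * (y - y0) ≤ (l (pt (1 / 3) y)).re ∧ c * (y - y0) ≤ -(l (pt (1 / 3) y)).im ∧
      ‖l (pt (1 / 3) y)‖ ≤ C * (y - y0) ∧ -(l (pt (1 / 3) y)).im ≤ 7 / 5 := by
  have hp : 0 < Real.exp (-(2 * Real.pi)) := Real.exp_pos _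
  have hp1 : Real.exp (-(2 * Real.pi)) ≤ 1 := by
    rw [Real.exp_le_one_iff]
    have := Real.pi_pos
    linarith
  refine ⟨Real.exp (-(2 * Real.pi)), 12 * Real.pi, hp, ?_⟩
  intro y hy
  obtain ⟨a1, a2, a3⟩ := D8M.ray_mono le_rfl hy.1 hy.2
  obtain ⟨b1, b2, b3⟩ := D8M.ray_mono hy.1 hy.2 le_rfl
  rw [D8M.l_cm] at a1 a2 a3
  simp only [Complex.zero_re, Complex.zero_im, sub_zero, zero_sub] at a1 a2 a3
  have hd : 0 ≤ y - y0 := by linarith [hy.1]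
  have hd1 : 0 ≤ 1 - y := by linarith [hy.2]
  have ht := (D8M.top_all (x := 1 / 3) (by norm_num) le_rfl).2.1
  refine ⟨?_, a2, a3, ?_⟩
  · calc Real.exp (-(2 * Real.pi)) * (y - y0) ≤ 1 * (y - y0) :=
        mul_le_mul_of_nonneg_right hp1 hd
      _ = y - y0 := one_mul _
      _ ≤ _ := a1
  · have : 0 ≤ Real.exp (-(2 * Real.pi)) * (1 - y) := mul_nonneg hp.le hd1
    linarith

/-- on the top segment -/
theorem top_bounds {x : ℝ} (h0 : 0 ≤ x) (h1 : x ≤ 1 / 3) :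
    3 ≤ (l (pt x 1)).re ∧ -(l (pt x 1)).im ≤ 7 / 5 ∧ (0 < x → (l (pt x 1)).im < 0) :=
  D8M.top_all h0 h1

end D8W
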