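import Mathlib
import Pool.Agent.D8W.Defs

/-!
# D8W/JenA: Jensen's formula in the last variable

`∫_0^1 log ‖A + B e(d)‖ dd = log max(‖A‖,‖B‖)`.
For `B = 0` trivial; for `B ≠ 0`: `log ‖B‖ + ∫ log ‖A/B + e d‖ = log ‖B‖ + log⁺ ‖A/B‖`
(`circleAverage_log_norm_add_const_eq_posLog`, see RV15W/Jen; `A/B + e d = 0` for at most one `d` in `(0,1]`).
-/

set_option autoImplicit false

open MeasureTheory Set

namespace D8W

open RV15W

private lemma JenA_avg (Y : ℂ) :
    ∫ d in (0:ℝ)..1, Real.log ‖Y + e d‖ = Real.posLog ‖Y‖ := by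
  have h1 := circleAverage_log_norm_add_const_eq_posLog (a := Y)
  rw [Real.circleAverage_def] at h1
  have h2 : ∀ d : ℝ, Real.log ‖Y + e d‖
      = (fun θ : ℝ => Real.log ‖circleMap 0 1 θ + Y‖) (2 * Real.pi * d) := by
    intro d
    simp only [e, circleMap]
    congr 2
    push_cast
    ring
  have h3 := intervalIntegral.integral_comp_mul_left (a := 0) (b := 1)
    (fun θ : ℝ => Real.log ‖circleMap 0 1 θ + Y‖) (by positivity : (2 * Real.pi) ≠ 0)
  rw [intervalIntegral.integral_congr (fun d _ => h2 d)]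
  rw [h3, ← h1]
  simp

private lemma JenA_int (Y : ℂ) :
    IntervalIntegrable (fun d : ℝ => Real.log ‖Y + e d‖) volume 0 1 := by
  have h1 : CircleIntegrable (fun z => Real.log ‖z - -Y‖) 0 1 :=
    circleIntegrable_log_norm_sub_const (a := -Y) (c := 0) 1
  have h2 : IntervalIntegrable (fun θ : ℝ => Real.log ‖circleMap 0 1 θ - -Y‖) volume 0
      (2 * Real.pi) := h1
  have h3 := h2.comp_mul_left (c := 2 * Real.pi)
  rw [zero_div, div_self (by positivity)] at h3
  refine h3.congr ?_
  intro d _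
  simp only [e, circleMap]
  congr 2
  push_cast
  ring

private lemma JenA_inj {a b : ℝ} (ha : a ∈ Ioc (0:ℝ) 1) (hb : b ∈ Ioc (0:ℝ) 1)
    (h : e a = e b) : a = b := by
  unfold e at h
  rw [Complex.exp_eq_exp_iff_exists_int] at h
  obtain ⟨n, hn⟩ := h
  have hpi : (2 * Real.pi * Complex.I : ℂ) ≠ 0 := Complex.two_pi_I_ne_zero
  have h1 : (a : ℂ) = b + n := by
    apply mul_left_cancel₀ hpi
    linear_combination hn
  have h2 : a = b + n := by exact_mod_cast h1
  have h3 : (n : ℝ) < 1 := by linarith [ha.2, hb.1]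
  have h4 : (-1 : ℝ) < n := by linarith [ha.1, hb.2]
  have h5 : n = 0 := by
    have h6 : n < 1 := by exact_mod_cast h3
    have h7 : -1 < n := by exact_mod_cast h4
    omega
  rw [h2, h5]
  simp

theorem jenA (A B : ℂ) :
    ∫ d in (0:ℝ)..1, Real.log ‖A + B * e d‖ = Real.log (max ‖A‖ ‖B‖) := by
  by_cases hB : B = 0
  · subst hB
    simp
  have hB' : 0 < ‖B‖ := norm_pos_iff.mpr hB
  have h1 : ∫ d in (0:ℝ)..1, Real.log ‖A + B * e d‖ =
      ∫ d in (0:ℝ)..1, (Real.log ‖B‖ + Real.log ‖A / B + e d‖) := by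
    refine intervalIntegral.integral_congr_ae ?_
    have h2 : volume {d : ℝ | d ∈ Ioc (0:ℝ) 1 ∧ A / B + e d = 0} = 0 := by
      refine Set.Subsingleton.measure_zero ?_ _
      rintro a ⟨ha, ha'⟩ b ⟨hb, hb'⟩
      exact JenA_inj ha hb (add_left_cancel (ha'.trans hb'.symm))
    rw [ae_iff]
    refine measure_mono_null ?_ h2
    intro d hd
    simp only [mem_setOf_eq] at hd ⊢
    push Not at hd
    obtain ⟨hd1, hd2⟩ := hd
    rw [uIoc_of_le zero_le_one] at hd1
    refine ⟨hd1, ?_⟩
    by_contra h3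
    apply hd2
    rw [← Real.log_mul hB'.ne' (norm_ne_zero_iff.mpr h3), ← norm_mul]
    congr 2
    field_simp
  rw [h1, intervalIntegral.integral_add intervalIntegrable_const (JenA_int _), JenA_avg]
  rw [intervalIntegral.integral_const]
  simp only [sub_zero, one_smul]
  rw [norm_div]
  rcases le_total ‖A‖ ‖B‖ with h | h
  · rw [max_eq_right h]
    have h3 : Real.posLog (‖A‖ / ‖B‖) = 0 := by
      rw [Real.posLog_eq_zero_iff, abs_of_nonneg (by positivity)]
      exact (div_le_one hB').mpr h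
    rw [h3, add_zero]
  · rw [max_eq_left h]
    have h3 : Real.posLog (‖A‖ / ‖B‖) = Real.log (‖A‖ / ‖B‖) := by
      apply Real.posLog_eq_log
      rw [abs_of_nonneg (by positivity)]
      exact (one_le_div hB').mpr h
    rw [h3, Real.log_div (hB'.trans_le h).ne' hB'.ne']
    ring

theorem norm_one_add_e (c : ℝ) : ‖1 + e c‖ ^ 2 = 2 + X c := by
  rw [← Complex.normSq_eq_norm_sq, Complex.normSq_apply]
  have h : e c = Real.cos (2 * Real.pi * c) + Real.sin (2 * Real.pi * c) * Complex.I := by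
    unfold e
    rw [show (2 * Real.pi * c * Complex.I : ℂ) = ((2 * Real.pi * c : ℝ) : ℂ) * Complex.I by
      push_cast; ring]
    rw [Complex.exp_mul_I, Complex.ofReal_cos, Complex.ofReal_sin]
  have h1 : (1 + e c).re = 1 + Real.cos (2 * Real.pi * c) := by
    rw [h]
    simp only [Complex.add_re, Complex.one_re, Complex.ofReal_re, Complex.mul_re, Complex.I_re,
      Complex.ofReal_im, Complex.I_im]
    ring
  have h2 : (1 + e c).im = Real.sin (2 * Real.pi * c) := by
    rw [h]
    simp only [Complex.add_im, Complex.one_im, Complex.ofReal_re, Complex.mul_im, Complex.I_re,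
      Complex.ofReal_im, Complex.I_im]
    ring
  rw [h1, h2]
  unfold X
  nlinarith [Real.sin_sq_add_cos_sq (2 * Real.pi * c)]

/-- special case: `∫ log(2 ± X) = 0` -/
theorem int_log_X : (∫ c in (0:ℝ)..1, Real.log (2 + X c) = 0) ∧
    IntervalIntegrable (fun c => Real.log (2 + X c)) volume 0 1 := by
  have h : ∀ c : ℝ, Real.log (2 + X c) = 2 * Real.log ‖1 + e c‖ := by
    intro c
    rw [← norm_one_add_e, Real.log_pow]
    norm_num
  simp only [h]
  refine ⟨?_, (JenA_int 1).const_mul 2⟩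
  rw [intervalIntegral.integral_const_mul, JenA_avg]
  simp

end D8W
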