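import Mathlib
import Pool.Agent.D8W.Defs
import Pool.Agent.D8W.JenA
import Pool.Agent.RV15W.Mom

/-!
# D8W/LamA: the function `lam`

`lam (a,b,c) = log⁺ (max (X a + X b) 0/(2 - X c))` (also when `2 - X c = 0`); it is measurable and
`0 ≤ lam ≤ log 4 + |log (2 - X c)|`, integrable on the cube (`int_log_X`, shift `c → c + 1/2`).
-/

set_option autoImplicit false

open MeasureTheory Set

namespace D8W

open RV15W

private theorem X_le (a : ℝ) : X a ≤ 2 := by
  unfold X
  nlinarith [Real.cos_le_one (2 * Real.pi * a)]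

private theorem X_cont : Continuous X := by
  unfold X
  fun_prop

private theorem X_per (u : ℝ) : X (u + 1) = X u := by
  unfold X
  rw [show 2 * Real.pi * (u + 1) = 2 * Real.pi * u + 2 * Real.pi by ring, Real.cos_add_two_pi]

private theorem X_half (u : ℝ) : X (u + 1 / 2) = -X u := by
  unfold X
  rw [show 2 * Real.pi * (u + 1 / 2) = 2 * Real.pi * u + Real.pi by ring, Real.cos_add_pi]
  ring

theorem lam_eq (v : ℝ × ℝ × ℝ) :
    lam v = Real.posLog (max (X v.1 + X v.2.1) 0 / (2 - X v.2.2)) := by
  have hm : 0 ≤ 2 - X v.2.2 := by linarith [X_le v.2.2]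
  unfold lam S
  split_ifs with h
  · have hR : 2 - X v.2.2 < X v.1 + X v.2.1 := by linarith
    have hR0 : 0 < X v.1 + X v.2.1 := hm.trans_lt hR
    rw [max_eq_left hR0.le]
    rcases hm.eq_or_lt with h0 | h0
    · rw [← h0, div_zero]
      simp [Real.posLog_eq_zero_iff]
    · symm
      apply Real.posLog_eq_log
      rw [abs_of_nonneg (by positivity)]
      exact (one_le_div h0).mpr hR.le
  · have hR : X v.1 + X v.2.1 ≤ 2 - X v.2.2 := by linarith
    symm
    rw [Real.posLog_eq_zero_iff, abs_of_nonneg (by positivity)]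
    exact div_le_one_of_le₀ (max_le hR hm) hm

private noncomputable def m1 : Measure ℝ := volume.restrict (Ioc 0 1)

private instance m1_prob : IsProbabilityMeasure m1 := ⟨by simp [m1]⟩

private theorem mu_eq : mu = m1.prod (m1.prod m1) := by
  unfold mu m1
  rw [Measure.prod_restrict, Measure.prod_restrict]
  rfl

private theorem log_int : Integrable (fun c => Real.log (2 - X c)) m1 := by
  have h1 := int_log_X.2
  have hper : Function.Periodic (fun c : ℝ => Real.log (2 + X c)) 1 := by
    intro c
    simp only [X_per]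
  have h2 : IntervalIntegrable (fun c => Real.log (2 + X c)) volume (1 / 2) (3 / 2) :=
    hper.intervalIntegrable (t := 0) one_ne_zero (by simpa using h1) _ _
  have h3 := h2.comp_add_right (1 / 2)
  have h4 : (fun c : ℝ => Real.log (2 + X (c + 1 / 2))) = fun c => Real.log (2 - X c) := by
    funext c
    rw [X_half, sub_eq_add_neg]
  rw [h4] at h3
  norm_num at h3
  exact (intervalIntegrable_iff_integrableOn_Ioc_of_le zero_le_one).mp h3

private theorem lam_meas : Measurable lam := by
  have h : lam = fun v => Real.posLog (max (X v.1 + X v.2.1) 0 / (2 - X v.2.2)) :=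
    funext lam_eq
  rw [h]
  have hX : Measurable X := X_cont.measurable
  have h1 : Measurable fun v : ℝ × ℝ × ℝ => max (X v.1 + X v.2.1) 0 / (2 - X v.2.2) := by
    fun_prop
  exact Real.continuous_posLog.measurable.comp h1

private theorem lam_bound (v : ℝ × ℝ × ℝ) :
    ‖lam v‖ ≤ Real.log 4 + |Real.log (2 - X v.2.2)| := by
  rw [lam_eq, Real.norm_of_nonneg Real.posLog_nonneg, div_eq_mul_inv]
  refine Real.posLog_mul.trans (add_le_add ?_ ?_)
  · have h4 : Real.posLog 4 = Real.log 4 := by
      apply Real.posLog_eq_log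
      norm_num
    rw [← h4]
    exact Real.posLog_le_posLog (le_max_right _ _)
      (max_le (by linarith [X_le v.1, X_le v.2.1]) (by norm_num : (0:ℝ) ≤ 4))
  · rw [Real.posLog_apply, Real.log_inv]
    exact max_le (abs_nonneg _) (neg_le_abs _)

theorem lam_integrable : Integrable lam mu := by
  rw [mu_eq]
  have h1 : Integrable (fun v : ℝ × ℝ × ℝ => Real.log 4 + |Real.log (2 - X v.2.2)|)
      (m1.prod (m1.prod m1)) := by
    have h2 : Integrable (fun w : ℝ × ℝ => Real.log (2 - X w.2)) (m1.prod m1) :=
      log_int.comp_snd m1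
    have h3 : Integrable (fun v : ℝ × ℝ × ℝ => Real.log (2 - X v.2.2))
      (m1.prod (m1.prod m1)) := h2.comp_snd m1
    exact (integrable_const _).add h3.abs
  exact h1.mono' lam_meas.aestronglyMeasurable (Filter.Eventually.of_forall lam_bound)

private theorem lam_swap (a b c : ℝ) : lam (a, b, c) = lam (b, a, c) := by
  rw [lam_eq, lam_eq]
  simp only
  rw [add_comm (X a) (X b)]

/-- `mu` as an iterated integral, third variable outside -/
theorem lam_iter : ∫ v, lam v ∂mu =
    ∫ c in (0:ℝ)..1, ∫ a in (0:ℝ)..1, ∫ b in (0:ℝ)..1, lam (a, b, c) := by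
  have hi := lam_integrable
  rw [mu_eq] at hi ⊢
  rw [integral_prod_symm _ hi, integral_prod_symm _ hi.integral_prod_right]
  simp only [intervalIntegral.integral_of_le zero_le_one]
  change ∫ c, ∫ a, ∫ b, lam (b, a, c) ∂m1 ∂m1 ∂m1 = ∫ c, ∫ a, ∫ b, lam (a, b, c) ∂m1 ∂m1 ∂m1
  simp only [fun a b c => lam_swap b a c]

end D8W
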