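import Mathlib
import Pool.Agent.D8W.Defs

/-!
# D8W/Tor: a measure preserving map of the torus

`‖1 + e a‖ ‖1 + e b‖ = 4 |cos πa cos πb| = |2 cos π(a+b) + 2 cos π(a-b)|`.  Put `H(u,v) = G |X u + X v|`: it has period `1` in
each variable and `H(u+1/2, v+1/2) = H(u,v)`.  For fixed `b` the function `a ↦ H((a+b)/2,(a-b)/2)` has period `1`, so its integral
over `(0,1)` is `(1/2)∫_0^2 = ∫_0^1 H(u, u-b) du`.  Then Fubini and periodicity: `∫_b ∫_u H(u,u-b) = ∫_u ∫_v H(u,v)`.
-/

set_option autoImplicit false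

open MeasureTheory Set

namespace D8W

open RV15W

private theorem Tor_swap {F : ℝ → ℝ → ℝ} (hF : Continuous (Function.uncurry F)) :
    ∫ a in (0:ℝ)..1, ∫ b in (0:ℝ)..1, F a b = ∫ b in (0:ℝ)..1, ∫ a in (0:ℝ)..1, F a b := by
  apply intervalIntegral_intervalIntegral_swap
  apply (hF.continuousOn.integrableOn_compact
    (isCompact_Icc.prod isCompact_Icc : IsCompact (Icc (0:ℝ) 1 ×ˢ Icc (0:ℝ) 1))).mono_set
  rw [uIoc_of_le zero_le_one]
  exact prod_mono Ioc_subset_Icc_self Ioc_subset_Icc_self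

private theorem Tor_per {f : ℝ → ℝ} (hf : Function.Periodic f 1) (t : ℝ) :
    ∫ x in t..t + 1, f x = ∫ x in (0:ℝ)..1, f x := by
  have := hf.intervalIntegral_add_eq t 0
  rwa [zero_add] at this

private theorem Tor_main {F : ℝ → ℝ → ℝ} (hF : Continuous (Function.uncurry F))
    (h1 : ∀ u v, F (u + 1) v = F u v) (h2 : ∀ u v, F u (v + 1) = F u v)
    (h3 : ∀ u v, F (u + 1 / 2) (v + 1 / 2) = F u v) :
    ∫ a in (0:ℝ)..1, ∫ b in (0:ℝ)..1, F ((a + b) / 2) ((a - b) / 2) =
      ∫ a in (0:ℝ)..1, ∫ b in (0:ℝ)..1, F a b := by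
  have hc : Continuous (Function.uncurry fun a b : ℝ => F ((a + b) / 2) ((a - b) / 2)) := by
    have : (Function.uncurry fun a b : ℝ => F ((a + b) / 2) ((a - b) / 2)) =
        Function.uncurry F ∘ fun p : ℝ × ℝ => ((p.1 + p.2) / 2, (p.1 - p.2) / 2) := rfl
    rw [this]
    exact hF.comp (by fun_prop)
  rw [Tor_swap hc]
  have key : ∀ b : ℝ, ∫ a in (0:ℝ)..1, F ((a + b) / 2) ((a - b) / 2) =
      ∫ u in (0:ℝ)..1, F u (u - b) := by
    intro b
    have hca : Continuous fun a : ℝ => F ((a + b) / 2) ((a - b) / 2) :=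
      hc.comp (by fun_prop : Continuous fun a : ℝ => (a, b))
    have hp : Function.Periodic (fun a : ℝ => F ((a + b) / 2) ((a - b) / 2)) 1 := by
      intro a
      have := h3 ((a + b) / 2) ((a - b) / 2)
      show F ((a + 1 + b) / 2) ((a + 1 - b) / 2) = F ((a + b) / 2) ((a - b) / 2)
      rw [← this]
      congr 1 <;> ring
    have e1 : ∫ a in (0:ℝ)..2, F ((a + b) / 2) ((a - b) / 2) =
        2 * ∫ a in (0:ℝ)..1, F ((a + b) / 2) ((a - b) / 2) := by
      have hs := intervalIntegral.integral_add_adjacent_intervals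
        (hca.intervalIntegrable 0 1) (hca.intervalIntegrable 1 2) (μ := volume)
      have h12 := Tor_per hp 1
      rw [show (1:ℝ) + 1 = 2 by norm_num] at h12
      rw [← hs, h12]
      ring
    have e2 : ∫ a in (0:ℝ)..2, F ((a + b) / 2) ((a - b) / 2) =
        2 * ∫ u in (b / 2)..(b / 2 + 1), F u (u - b) := by
      have := intervalIntegral.integral_comp_div_add (a := 0) (b := 2)
        (fun u : ℝ => F u (u - b)) (c := 2) (by norm_num) (b / 2)
      have h' : ∀ x : ℝ, F (x / 2 + b / 2) (x / 2 + b / 2 - b) = F ((x + b) / 2) ((x - b) / 2) := by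
        intro x
        congr 1 <;> ring
      simp only [h'] at this
      rw [this, smul_eq_mul]
      congr 2 <;> ring
    have hq : Function.Periodic (fun u : ℝ => F u (u - b)) 1 := by
      intro u
      show F (u + 1) (u + 1 - b) = F u (u - b)
      rw [h1, show u + 1 - b = u - b + 1 by ring, h2]
    have e3 := Tor_per hq (b / 2)
    rw [e3] at e2
    linarith
  simp only [key]
  have hc2 : Continuous (Function.uncurry fun b u : ℝ => F u (u - b)) := by
    have : (Function.uncurry fun b u : ℝ => F u (u - b)) =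
        Function.uncurry F ∘ fun p : ℝ × ℝ => (p.2, p.2 - p.1) := rfl
    rw [this]
    exact hF.comp (by fun_prop)
  rw [Tor_swap hc2]
  apply intervalIntegral.integral_congr
  intro u _
  show ∫ b in (0:ℝ)..1, F u (u - b) = ∫ b in (0:ℝ)..1, F u b
  have h4 := intervalIntegral.integral_comp_sub_left (a := 0) (b := 1) (fun v : ℝ => F u v) u
  rw [h4]
  have hp : Function.Periodic (fun v : ℝ => F u v) 1 := fun v => h2 u v
  have := Tor_per hp (u - 1)
  rw [sub_add_cancel] at this
  rw [sub_zero]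
  exact this

private theorem Tor_norm (a : ℝ) : ‖1 + e a‖ = 2 * |Real.cos (Real.pi * a)| := by
  have h1 : 1 + e a = Complex.exp ((Real.pi * a : ℝ) * Complex.I) *
      ((2 * Real.cos (Real.pi * a) : ℝ) : ℂ) := by
    have h2 : e a = Complex.exp ((Real.pi * a : ℝ) * Complex.I) *
        Complex.exp ((Real.pi * a : ℝ) * Complex.I) := by
      rw [← Complex.exp_add]
      unfold e
      congr 1
      push_cast
      ring
    have h3 : Complex.exp ((Real.pi * a : ℝ) * Complex.I) *
        Complex.exp (-((Real.pi * a : ℝ) * Complex.I)) = 1 := by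
      rw [← Complex.exp_add, add_neg_cancel, Complex.exp_zero]
    rw [h2]
    push_cast
    rw [Complex.cos]
    push_cast at h3
    rw [← h3, show -(((Real.pi : ℂ) * a)) * Complex.I = -(Real.pi * a * Complex.I) by ring]
    ring
  rw [h1, norm_mul, Complex.norm_exp_ofReal_mul_I, one_mul, Complex.norm_real, Real.norm_eq_abs,
    abs_mul, abs_of_pos (by norm_num : (0:ℝ) < 2)]

private theorem Tor_prod (a b : ℝ) :
    ‖1 + e a‖ * ‖1 + e b‖ = |X ((a + b) / 2) + X ((a - b) / 2)| := by
  rw [Tor_norm, Tor_norm]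
  have : X ((a + b) / 2) + X ((a - b) / 2) =
      4 * (Real.cos (Real.pi * a) * Real.cos (Real.pi * b)) := by
    unfold X
    rw [show 2 * Real.pi * ((a + b) / 2) = Real.pi * a + Real.pi * b by ring,
      show 2 * Real.pi * ((a - b) / 2) = Real.pi * a - Real.pi * b by ring,
      Real.cos_add, Real.cos_sub]
    ring
  rw [this, abs_mul, abs_mul, abs_of_pos (by norm_num : (0:ℝ) < 4)]
  ring

private theorem Tor_X1 (u : ℝ) : X (u + 1) = X u := by
  unfold X
  rw [show 2 * Real.pi * (u + 1) = 2 * Real.pi * u + 2 * Real.pi by ring, Real.cos_add_two_pi]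

private theorem Tor_X2 (u : ℝ) : X (u + 1 / 2) = -X u := by
  unfold X
  rw [show 2 * Real.pi * (u + 1 / 2) = 2 * Real.pi * u + Real.pi by ring, Real.cos_add_pi]
  ring

private theorem Tor_Xc : Continuous X := by
  unfold X
  fun_prop

theorem tor {G : ℝ → ℝ} (hG : Continuous G) :
    ∫ a in (0:ℝ)..1, ∫ b in (0:ℝ)..1, G (‖1 + e a‖ * ‖1 + e b‖) =
      ∫ a in (0:ℝ)..1, ∫ b in (0:ℝ)..1, G |X a + X b| := by
  have hX := Tor_Xc
  have h := Tor_main (F := fun u v => G |X u + X v|)
    (by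
      show Continuous fun p : ℝ × ℝ => G |X p.1 + X p.2|
      fun_prop)
    (by intro u v; simp only [Tor_X1])
    (by intro u v; simp only [Tor_X1])
    (by
      intro u v
      simp only [Tor_X2]
      rw [← neg_add, abs_neg])
  simp only [Tor_prod]
  exact h

/-- sign change `(a,b) → (a+1/2,b+1/2)` -/
theorem tor_neg {G : ℝ → ℝ} (hG : Continuous G) :
    ∫ a in (0:ℝ)..1, ∫ b in (0:ℝ)..1, G (-(X a + X b)) =
      ∫ a in (0:ℝ)..1, ∫ b in (0:ℝ)..1, G (X a + X b) := by
  have hX := Tor_Xc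
  have hper : Function.Periodic (fun a : ℝ => ∫ b in (0:ℝ)..1, G (X a + X b)) 1 := by
    intro a
    simp only [Tor_X1]
  have h1 : ∀ a : ℝ, ∫ b in (0:ℝ)..1, G (-(X a + X b)) =
      ∫ b in (0:ℝ)..1, G (X (a + 1 / 2) + X b) := by
    intro a
    have hp : Function.Periodic (fun b : ℝ => G (X (a + 1 / 2) + X b)) 1 := by
      intro b
      simp only [Tor_X1]
    have h2 := Tor_per hp (1 / 2)
    have h3 := intervalIntegral.integral_comp_add_right (a := 0) (b := 1)
      (fun b : ℝ => G (X (a + 1 / 2) + X b)) (1 / 2)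
    rw [← h2, show (1:ℝ) / 2 + 1 = 1 + 1 / 2 by norm_num]
    rw [zero_add] at h3
    rw [← h3]
    apply intervalIntegral.integral_congr
    intro b _
    show G (-(X a + X b)) = G (X (a + 1 / 2) + X (b + 1 / 2))
    rw [Tor_X2, Tor_X2, neg_add]
  simp only [h1]
  have h3 := intervalIntegral.integral_comp_add_right (a := 0) (b := 1)
    (fun a : ℝ => ∫ b in (0:ℝ)..1, G (X a + X b)) (1 / 2)
  rw [h3, zero_add, show (1:ℝ) + 1 / 2 = 1 / 2 + 1 by norm_num]
  exact Tor_per hper (1 / 2)

end D8W
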