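import Mathlib
import Pool.Agent.D8W.Defs
import Pool.Agent.D8W.JenA
import Pool.Agent.D8W.Tor

/-!
# D8W/LamB: the Mahler measure as an iterated integral with the third variable outside

1. `jenA`: `mP = ∫_a ∫_b ∫_c log max(‖1+e a‖‖1+e b‖, ‖1+e c‖²)`; the integrand is measurable and bounded in absolute value by
   `log 4 + |log (2 + X c)|` (`norm_one_add_e`), integrable (`int_log_X`); Fubini gives `∫_c ∫_a ∫_b`.
2. For `2 + X c ≠ 0` (almost every `c`): `tor` with `G r = log (max r (2 + X c))` (continuous).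
-/

set_option autoImplicit false

open MeasureTheory Set

namespace D8W

open RV15W

private noncomputable def LamB_m1 : Measure ℝ := volume.restrict (Ioc 0 1)

private instance LamB_prob : IsProbabilityMeasure LamB_m1 := ⟨by simp [LamB_m1]⟩

private theorem LamB_X_cont : Continuous X := by
  unfold X
  fun_prop

private theorem LamB_X_ge (a : ℝ) : 0 ≤ 2 + X a := by
  unfold X
  nlinarith [Real.neg_one_le_cos (2 * Real.pi * a)]

private theorem LamB_X_le (a : ℝ) : 2 + X a ≤ 4 := by
  unfold X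
  nlinarith [Real.cos_le_one (2 * Real.pi * a)]

private theorem LamB_e_cont : Continuous e := by
  unfold e; fun_prop

private theorem LamB_e_norm (a : ℝ) : ‖1 + e a‖ ≤ 2 := by
  have h := norm_one_add_e a
  have h2 := LamB_X_le a
  have h3 : ‖1 + e a‖ ^ 2 ≤ 2 ^ 2 := by rw [h]; linarith
  exact (abs_le_of_sq_le_sq' h3 (by norm_num)).2

/-- the integrand -/
private noncomputable def LamB_F (v : ℝ × ℝ × ℝ) : ℝ :=
  Real.log (max (‖1 + e v.1‖ * ‖1 + e v.2.1‖) (2 + X v.2.2))

private theorem LamB_F_meas : Measurable LamB_F := by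
  have h1 : Continuous fun v : ℝ × ℝ × ℝ =>
      max (‖1 + e v.1‖ * ‖1 + e v.2.1‖) (2 + X v.2.2) := by
    have := LamB_e_cont
    have := LamB_X_cont
    fun_prop
  exact Real.measurable_log.comp h1.measurable

private theorem LamB_F_bound (v : ℝ × ℝ × ℝ) (h0 : 0 < 2 + X v.2.2) :
    ‖LamB_F v‖ ≤ Real.log 4 + |Real.log (2 + X v.2.2)| := by
  unfold LamB_F
  have h1 : 0 < max (‖1 + e v.1‖ * ‖1 + e v.2.1‖) (2 + X v.2.2) := lt_max_of_lt_right h0
  have h2 : max (‖1 + e v.1‖ * ‖1 + e v.2.1‖) (2 + X v.2.2) ≤ 4 := by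
    refine max_le ?_ (LamB_X_le _)
    calc ‖1 + e v.1‖ * ‖1 + e v.2.1‖ ≤ 2 * 2 :=
          mul_le_mul (LamB_e_norm _) (LamB_e_norm _) (norm_nonneg _) (by norm_num)
      _ = 4 := by norm_num
  have h3 : Real.log (max (‖1 + e v.1‖ * ‖1 + e v.2.1‖) (2 + X v.2.2)) ≤ Real.log 4 :=
    Real.log_le_log h1 h2
  have h4 : Real.log (2 + X v.2.2) ≤
      Real.log (max (‖1 + e v.1‖ * ‖1 + e v.2.1‖) (2 + X v.2.2)) :=
    Real.log_le_log h0 (le_max_right _ _)
  have h5 : 0 ≤ Real.log 4 := Real.log_nonneg (by norm_num)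
  rw [Real.norm_eq_abs, abs_le]
  constructor
  · have := neg_abs_le (Real.log (2 + X v.2.2))
    linarith
  · have := abs_nonneg (Real.log (2 + X v.2.2))
    linarith

private theorem LamB_pos : ∀ᵐ c ∂LamB_m1, 0 < 2 + X c := by
  have h1 : ∀ᵐ c : ℝ, c ≠ 1 / 2 := Measure.ae_ne volume _
  unfold LamB_m1
  filter_upwards [ae_restrict_mem measurableSet_Ioc, ae_restrict_of_ae h1] with c hc hc2
  rcases (LamB_X_ge c).lt_or_eq with h | h
  · exact h
  · exfalso
    unfold X at h
    have h3 : Real.cos (2 * Real.pi * c) = -1 := by linarith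
    rw [Real.cos_eq_neg_one_iff] at h3
    obtain ⟨k, hk⟩ := h3
    have hp := Real.pi_pos
    have h4 : (2 * c - 1 - 2 * k) * Real.pi = 0 := by linear_combination -hk
    have h5 : 2 * c - 1 - 2 * (k : ℝ) = 0 := by
      rcases mul_eq_zero.mp h4 with h6 | h6
      · exact h6
      · exact absurd h6 hp.ne'
    have h6 : (k : ℝ) = c - 1 / 2 := by linarith
    have h7 : (k : ℝ) < 1 := by have := hc.2; linarith
    have h8 : (-1 : ℝ) < k := by have := hc.1; linarith
    have h9 : k < 1 := by exact_mod_cast h7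
    have h10 : -1 < k := by exact_mod_cast h8
    have h11 : k = 0 := by omega
    rw [h11] at h6
    apply hc2
    push_cast at h6
    linarith

private theorem LamB_F_int :
    Integrable LamB_F (LamB_m1.prod (LamB_m1.prod LamB_m1)) := by
  have h0 : Integrable (fun c => Real.log (2 + X c)) LamB_m1 :=
    (intervalIntegrable_iff_integrableOn_Ioc_of_le zero_le_one).mp int_log_X.2
  have h2 : Integrable (fun w : ℝ × ℝ => Real.log (2 + X w.2)) (LamB_m1.prod LamB_m1) :=
    h0.comp_snd LamB_m1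
  have h3 : Integrable (fun v : ℝ × ℝ × ℝ => Real.log (2 + X v.2.2))
      (LamB_m1.prod (LamB_m1.prod LamB_m1)) := h2.comp_snd LamB_m1
  have h1 : Integrable (fun v : ℝ × ℝ × ℝ => Real.log 4 + |Real.log (2 + X v.2.2)|)
      (LamB_m1.prod (LamB_m1.prod LamB_m1)) := (integrable_const _).add h3.abs
  refine h1.mono' LamB_F_meas.aestronglyMeasurable ?_
  have h4 : ∀ᵐ v ∂(LamB_m1.prod (LamB_m1.prod LamB_m1)), 0 < 2 + X v.2.2 := by
    have h5 : ∀ᵐ w ∂(LamB_m1.prod LamB_m1), 0 < 2 + X w.2 :=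
      (Measure.quasiMeasurePreserving_snd (μ := LamB_m1) (ν := LamB_m1)).ae LamB_pos
    exact (Measure.quasiMeasurePreserving_snd (μ := LamB_m1) (ν := LamB_m1.prod LamB_m1)).ae h5
  filter_upwards [h4] with v hv using LamB_F_bound v hv

private theorem LamB_swap (a b c : ℝ) : LamB_F (a, b, c) = LamB_F (b, a, c) := by
  unfold LamB_F
  simp only
  rw [mul_comm]

theorem mP_iter : mP = ∫ c in (0:ℝ)..1, ∫ a in (0:ℝ)..1, ∫ b in (0:ℝ)..1,
    Real.log (max |X a + X b| (2 + X c)) := by
  have hi := LamB_F_int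
  have e1 : mP = ∫ a in (0:ℝ)..1, ∫ b in (0:ℝ)..1, ∫ c in (0:ℝ)..1, LamB_F (a, b, c) := by
    unfold mP
    refine intervalIntegral.integral_congr fun a _ => ?_
    refine intervalIntegral.integral_congr fun b _ => ?_
    refine intervalIntegral.integral_congr fun c _ => ?_
    rw [jenA, norm_mul, norm_pow, norm_one_add_e]
    rfl
  have e2 : ∫ a in (0:ℝ)..1, ∫ b in (0:ℝ)..1, ∫ c in (0:ℝ)..1, LamB_F (a, b, c) =
      ∫ v, LamB_F v ∂(LamB_m1.prod (LamB_m1.prod LamB_m1)) := by
    rw [integral_prod _ hi]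
    rw [intervalIntegral.integral_of_le zero_le_one]
    refine integral_congr_ae ?_
    filter_upwards [hi.prod_right_ae] with a ha
    rw [integral_prod _ ha, intervalIntegral.integral_of_le zero_le_one]
    refine integral_congr_ae ?_
    filter_upwards with b
    rw [intervalIntegral.integral_of_le zero_le_one]
    rfl
  have e3 : ∫ v, LamB_F v ∂(LamB_m1.prod (LamB_m1.prod LamB_m1)) =
      ∫ c, ∫ a, ∫ b, LamB_F (a, b, c) ∂LamB_m1 ∂LamB_m1 ∂LamB_m1 := by
    rw [integral_prod_symm _ hi, integral_prod_symm _ hi.integral_prod_right]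
    change ∫ c, ∫ a, ∫ b, LamB_F (b, a, c) ∂LamB_m1 ∂LamB_m1 ∂LamB_m1 = _
    simp only [fun a b c => LamB_swap b a c]
  rw [e1, e2, e3, intervalIntegral.integral_of_le zero_le_one]
  refine integral_congr_ae ?_
  filter_upwards [LamB_pos] with c hc
  have hG : Continuous fun r : ℝ => Real.log (max r (2 + X c)) := by
    refine Continuous.log (by fun_prop) fun r => ?_
    exact (lt_max_of_lt_right hc).ne'
  have h := tor hG
  simp only [intervalIntegral.integral_of_le zero_le_one] at h ⊢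
  exact h

end D8W
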