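import Mathlib
import Pool.Agent.D8W.Defs
import Pool.Agent.D8W.JenA
import Pool.Agent.D8W.Tor
import Pool.Agent.D8W.LamA
import Pool.Agent.D8W.LamB

/-!
# D8W/Lam: `mP = 2 ∫ lam dmu`

`mP_iter`; for `m = 2 + X c > 0`: `log max(|R|, m) = log m + log⁺(|R|/m)`, `∫_c log(2+X c) = 0` (`int_log_X`);
`log⁺(|R|/m) = p(R) + p(-R)`, `p(R) = log⁺(max R 0/m)` continuous, `tor_neg`;
`c → c + 1/2` (period 1): `2 + X(c+1/2) = 2 - X c`; then `lam_eq`, `lam_iter`.
-/

set_option autoImplicit false

open MeasureTheory Set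

namespace D8W

open RV15W

private theorem Lam_X1 (u : ℝ) : X (u + 1) = X u := by
  unfold X
  rw [show 2 * Real.pi * (u + 1) = 2 * Real.pi * u + 2 * Real.pi by ring, Real.cos_add_two_pi]

private theorem Lam_X2 (u : ℝ) : X (u + 1 / 2) = -X u := by
  unfold X
  rw [show 2 * Real.pi * (u + 1 / 2) = 2 * Real.pi * u + Real.pi by ring, Real.cos_add_pi]
  ring

private theorem Lam_Xc : Continuous X := by
  unfold X
  fun_prop

private theorem Lam_pos (c : ℝ) : 0 ≤ 2 + X c := by
  rw [← norm_one_add_e]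
  positivity

private theorem Lam_null : volume {c : ℝ | 2 + X c = 0} = 0 := by
  apply Set.Countable.measure_zero
  refine (Set.countable_range (fun k : ℤ => (1 : ℝ) / 2 + k)).mono ?_
  intro c hc
  simp only [Set.mem_ofPred_eq] at hc
  unfold X at hc
  have h1 : Real.cos (2 * Real.pi * c) = -1 := by linarith
  rw [Real.cos_eq_neg_one_iff] at h1
  obtain ⟨k, hk⟩ := h1
  refine ⟨k, ?_⟩
  have hpi := Real.pi_pos
  have h2 : Real.pi * (1 + 2 * k) = Real.pi * (2 * c) := by linarith
  have h3 := mul_left_cancel₀ hpi.ne' h2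
  show (1 : ℝ) / 2 + k = c
  linarith

private theorem Lam_log {m : ℝ} (hm : 0 < m) (R : ℝ) :
    Real.log (max |R| m) = Real.log m + Real.posLog (max R 0 / m)
      + Real.posLog (max (-R) 0 / m) := by
  have h0 : ∀ r : ℝ, 0 ≤ r → Real.log (max r m) = Real.log m + Real.posLog (r / m) := by
    intro r hr
    rcases le_total r m with h | h
    · rw [max_eq_right h]
      have : Real.posLog (r / m) = 0 := by
        rw [Real.posLog_eq_zero_iff, abs_of_nonneg (by positivity)]
        exact (div_le_one hm).mpr h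
      rw [this, add_zero]
    · rw [max_eq_left h]
      have : Real.posLog (r / m) = Real.log (r / m) := by
        apply Real.posLog_eq_log
        rw [abs_of_nonneg (by positivity)]
        exact (one_le_div hm).mpr h
      rw [this, Real.log_div (hm.trans_le h).ne' hm.ne']
      ring
  have hz : Real.posLog (0 / m) = 0 := by
    rw [zero_div, Real.posLog_eq_zero_iff]
    simp
  rw [h0 _ (abs_nonneg R)]
  rcases le_total 0 R with h | h
  · rw [abs_of_nonneg h, max_eq_left h, max_eq_right (by linarith), hz, add_zero]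
  · rw [abs_of_nonpos h, max_eq_right h, max_eq_left (by linarith), hz, add_zero]

private theorem Lam_inner {m : ℝ} (hm : 0 < m) :
    ∫ a in (0:ℝ)..1, ∫ b in (0:ℝ)..1, Real.log (max |X a + X b| m) =
      Real.log m + 2 * ∫ a in (0:ℝ)..1, ∫ b in (0:ℝ)..1,
        Real.posLog (max (X a + X b) 0 / m) := by
  have hX := Lam_Xc
  have hG : Continuous fun r : ℝ => Real.posLog (max r 0 / m) := by
    have h1 := Real.continuous_posLog
    have h2 : Continuous fun r : ℝ => max r 0 / m := by fun_prop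
    exact h1.comp h2
  have hc1 : Continuous fun p : ℝ × ℝ => Real.posLog (max (X p.1 + X p.2) 0 / m) :=
    hG.comp (by fun_prop : Continuous fun p : ℝ × ℝ => X p.1 + X p.2)
  have hc2 : Continuous fun p : ℝ × ℝ => Real.posLog (max (-(X p.1 + X p.2)) 0 / m) :=
    hG.comp (by fun_prop : Continuous fun p : ℝ × ℝ => -(X p.1 + X p.2))
  have hs : ∀ {F : ℝ → ℝ → ℝ}, Continuous (fun p : ℝ × ℝ => F p.1 p.2) → ∀ a, Continuous (F a) :=
    fun hF a => hF.comp (by fun_prop : Continuous fun b : ℝ => (a, b))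
  have hi1 : Continuous fun a : ℝ => ∫ b in (0:ℝ)..1, Real.posLog (max (X a + X b) 0 / m) :=
    intervalIntegral.continuous_parametric_intervalIntegral_of_continuous' hc1 0 1
  have hi2 : Continuous fun a : ℝ => ∫ b in (0:ℝ)..1, Real.posLog (max (-(X a + X b)) 0 / m) :=
    intervalIntegral.continuous_parametric_intervalIntegral_of_continuous' hc2 0 1
  have e1 : ∀ a : ℝ, ∫ b in (0:ℝ)..1, Real.log (max |X a + X b| m) =
      Real.log m + (∫ b in (0:ℝ)..1, Real.posLog (max (X a + X b) 0 / m))
        + ∫ b in (0:ℝ)..1, Real.posLog (max (-(X a + X b)) 0 / m) := by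
    intro a
    have i1 := (hs (F := fun a b => Real.posLog (max (X a + X b) 0 / m)) hc1 a).intervalIntegrable
      (μ := volume) 0 1
    have i2 := (hs (F := fun a b => Real.posLog (max (-(X a + X b)) 0 / m)) hc2 a).intervalIntegrable
      (μ := volume) 0 1
    have i0 : IntervalIntegrable (fun _ : ℝ => Real.log m) volume 0 1 := intervalIntegrable_const
    simp only [Lam_log hm]
    rw [intervalIntegral.integral_add (i0.add i1) i2, intervalIntegral.integral_add i0 i1]
    simp
  simp only [e1]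
  have j0 : IntervalIntegrable (fun _ : ℝ => Real.log m) volume 0 1 := intervalIntegrable_const
  have j1 := hi1.intervalIntegrable (μ := volume) 0 1
  have j2 := hi2.intervalIntegrable (μ := volume) 0 1
  rw [intervalIntegral.integral_add (j0.add j1) j2, intervalIntegral.integral_add j0 j1]
  have hn := tor_neg hG
  rw [hn]
  simp
  ring

theorem mP_lam : mP = 2 * ∫ v, lam v ∂mu := by
  rw [mP_iter, lam_iter]
  simp only [lam_eq]
  have hper : Function.Periodic (fun c : ℝ => ∫ a in (0:ℝ)..1, ∫ b in (0:ℝ)..1,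
      Real.posLog (max (X a + X b) 0 / (2 - X c))) 1 := by
    intro c
    simp only [Lam_X1]
  have hshift : ∫ c in (0:ℝ)..1, ∫ a in (0:ℝ)..1, ∫ b in (0:ℝ)..1,
      Real.posLog (max (X a + X b) 0 / (2 - X c)) =
      ∫ c in (0:ℝ)..1, ∫ a in (0:ℝ)..1, ∫ b in (0:ℝ)..1,
      Real.posLog (max (X a + X b) 0 / (2 + X c)) := by
    have h3 := intervalIntegral.integral_comp_add_right (a := 0) (b := 1)
      (fun c : ℝ => ∫ a in (0:ℝ)..1, ∫ b in (0:ℝ)..1,
        Real.posLog (max (X a + X b) 0 / (2 - X c))) (1 / 2)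
    have h4 := hper.intervalIntegral_add_eq (1 / 2) 0
    rw [show (1:ℝ) / 2 + 1 = 1 + 1 / 2 by norm_num, zero_add] at h4
    rw [zero_add] at h3
    rw [← h4, ← h3]
    simp only [Lam_X2, sub_neg_eq_add]
  rw [hshift]
  obtain ⟨hg0, hg⟩ := int_log_X
  have hae : ∫ c in (0:ℝ)..1, ∫ a in (0:ℝ)..1, ∫ b in (0:ℝ)..1,
      Real.log (max |X a + X b| (2 + X c)) =
      ∫ c in (0:ℝ)..1, (Real.log (2 + X c) + 2 * ∫ a in (0:ℝ)..1, ∫ b in (0:ℝ)..1,
        Real.posLog (max (X a + X b) 0 / (2 + X c))) := by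
    refine intervalIntegral.integral_congr_ae ?_
    have hn : ∀ᵐ c : ℝ, ¬ (2 + X c = 0) := by
      rw [ae_iff]
      simpa using Lam_null
    filter_upwards [hn] with c hc _
    exact Lam_inner (lt_of_le_of_ne (Lam_pos c) (Ne.symm hc))
  rw [hae]
  by_cases hI : IntervalIntegrable (fun c : ℝ => 2 * ∫ a in (0:ℝ)..1, ∫ b in (0:ℝ)..1,
        Real.posLog (max (X a + X b) 0 / (2 + X c))) volume 0 1
  · rw [intervalIntegral.integral_add hg hI, hg0, zero_add, intervalIntegral.integral_const_mul]
  · have h1 : ¬ IntervalIntegrable (fun c : ℝ => Real.log (2 + X c) + 2 * ∫ a in (0:ℝ)..1,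
        ∫ b in (0:ℝ)..1, Real.posLog (max (X a + X b) 0 / (2 + X c))) volume 0 1 := by
      intro h
      apply hI
      have := h.sub hg
      simpa using this
    rw [intervalIntegral.integral_undef h1, ← intervalIntegral.integral_const_mul,
      intervalIntegral.integral_undef hI]

end D8W
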