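import Mathlib
import Pool.Agent.D8W.Defs

/-!
# D8W/Lg: the logarithm on the closed lower half plane

`lg z = log (i z) - iπ/2`: continuous and holomorphic off the closed positive imaginary half axis.
-/

set_option autoImplicit false

open MeasureTheory Set

namespace D8W

/-- the logarithm with the cut along the positive imaginary axis, argument in `(-3π/2, π/2]` -/
noncomputable def lg (z : ℂ) : ℂ := Complex.log (Complex.I * z) - Complex.I * (Real.pi / 2)

theorem lg_deriv {z : ℂ} (h : z.im < 0 ∨ z.re ≠ 0) : HasDerivAt lg z⁻¹ z := by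
  have hz : z ≠ 0 := by
    rintro rfl
    simp at h
  have hs : Complex.I * z ∈ Complex.slitPlane := by
    rw [Complex.mem_slitPlane_iff]
    rcases h with h | h
    · left
      simpa using h
    · right
      simpa using h
  have h1 : HasDerivAt (fun w : ℂ => Complex.I * w) Complex.I z := by
    simpa using (hasDerivAt_id z).const_mul Complex.I
  have h2 := (h1.clog hs).sub_const (Complex.I * (Real.pi / 2))
  have e : Complex.I / (Complex.I * z) = z⁻¹ := by
    field_simp
  rw [e] at h2
  exact h2

theorem lg_pos {x : ℝ} (h : 0 < x) : lg (x : ℂ) = (Real.log x : ℂ) := by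
  unfold lg
  rw [mul_comm, Complex.log_ofReal_mul h Complex.I_ne_zero, Complex.log_I]
  ring

theorem lg_neg {x : ℝ} (h : x < 0) : lg (x : ℂ) = (Real.log x : ℂ) - Real.pi * Complex.I := by
  unfold lg
  have e : Complex.I * (x : ℂ) = ((-x : ℝ) : ℂ) * (-Complex.I) := by
    push_cast
    ring
  rw [e, Complex.log_ofReal_mul (by linarith) (neg_ne_zero.2 Complex.I_ne_zero), Complex.log_neg_I,
    Real.log_neg_eq_log]
  ring

theorem lg_norm (z : ℂ) : ‖lg z‖ ≤ |Real.log ‖z‖| + 2 * Real.pi := by
  have h1 : ‖Complex.log (Complex.I * z)‖ ≤ |Real.log ‖z‖| + Real.pi := by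
    have h2 := Complex.norm_le_abs_re_add_abs_im (Complex.log (Complex.I * z))
    rw [Complex.log_re, Complex.log_im, norm_mul, Complex.norm_I, one_mul] at h2
    have h3 := Complex.abs_arg_le_pi (Complex.I * z)
    linarith
  have h4 : ‖Complex.I * ((Real.pi : ℂ) / 2)‖ ≤ Real.pi := by
    rw [norm_mul, Complex.norm_I, one_mul, norm_div, Complex.norm_real, Real.norm_eq_abs,
      abs_of_pos Real.pi_pos]
    have := Real.pi_pos
    have h5 : ‖(2 : ℂ)‖ = 2 := by simp
    rw [h5]
    linarith
  unfold lg
  have h6 := norm_sub_le (Complex.log (Complex.I * z)) (Complex.I * (Real.pi / 2))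
  linarith

theorem lg_meas : Measurable lg := by
  unfold lg
  exact (Complex.measurable_log.comp (measurable_const.mul measurable_id)).sub_const _

end D8W
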