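import Mathlib
import Pool.Agent.D8W.Defs
import Pool.Agent.D8W.Lg

/-!
# D8W/Pth: the abstract path and its basic bounds
-/

set_option autoImplicit false

open MeasureTheory Set

namespace D8W

/-- a path in the `L`-plane, `L = log s`, from a real point `> 3` to `0`, through the fourth quadrant -/
structure IsPath (L dL : ℝ → ℂ) (c C : ℝ) : Prop where
  cpos : 0 < c
  cont : ContinuousOn L (Icc 0 1)
  der : ∀ t ∈ Ioo (0:ℝ) 1, t ≠ 1 / 2 → HasDerivAt L (dL t) t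
  meas : Measurable dL
  bd : ∀ t, ‖dL t‖ ≤ C
  zero : L 1 = 0
  im0 : (L 0).im = 0
  im_neg : ∀ t ∈ Ioo (0:ℝ) 1, (L t).im < 0
  im_gt : ∀ t ∈ Icc (0:ℝ) 1, -(3 / 2) ≤ (L t).im
  re3 : ∀ t ∈ Icc (0:ℝ) (1 / 2), 3 ≤ (L t).re
  re_ge : ∀ t ∈ Icc (1 / 2 : ℝ) 1, c * (1 - t) ≤ (L t).re
  im_le : ∀ t ∈ Icc (1 / 2 : ℝ) 1, c * (1 - t) ≤ -(L t).im
  nrm : ∀ t ∈ Icc (1 / 2 : ℝ) 1, ‖L t‖ ≤ C * (1 - t)

/-- `k = 2 cosh L` -/
noncomputable def ka (L : ℝ → ℂ) (t : ℝ) : ℂ := 2 * Complex.cosh (L t)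

/-- `dk = 2 sinh L dL` -/
noncomputable def dk (L dL : ℝ → ℂ) (t : ℝ) : ℂ := 2 * Complex.sinh (L t) * dL t

variable {L dL : ℝ → ℂ} {c C : ℝ}

private theorem Pth_cosh_eq (z : ℂ) : 2 * Complex.cosh z =
    ((2 * (Real.cosh z.re * Real.cos z.im) : ℝ) : ℂ) +
      ((2 * (Real.sinh z.re * Real.sin z.im) : ℝ) : ℂ) * Complex.I := by
  have e : z = (z.re : ℂ) + (z.im : ℂ) * Complex.I := (Complex.re_add_im z).symm
  conv_lhs => rw [e]
  rw [Complex.cosh_add, Complex.cosh_mul_I, Complex.sinh_mul_I]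
  push_cast
  ring

private theorem Pth_cosh_im (z : ℂ) : (2 * Complex.cosh z).im = 2 * (Real.sinh z.re * Real.sin z.im) := by
  rw [Pth_cosh_eq, Complex.add_im, Complex.ofReal_im, Complex.im_ofReal_mul, Complex.I_im]
  ring

private theorem Pth_cosh_re (z : ℂ) : (2 * Complex.cosh z).re = 2 * (Real.cosh z.re * Real.cos z.im) := by
  rw [Pth_cosh_eq, Complex.add_re, Complex.ofReal_re, Complex.re_ofReal_mul, Complex.I_re]
  ring

private theorem Pth_exp3 {x : ℝ} (hx : 3 ≤ x) : 19 < Real.exp x := by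
  have h1 : Real.exp 3 ≤ Real.exp x := Real.exp_le_exp.2 hx
  have h2 : Real.exp 3 = Real.exp 1 ^ 3 := by
    rw [← Real.exp_nat_mul]
    norm_num
  have h3 := Real.exp_one_gt_d9
  have h4 : (2.7 : ℝ) ^ 3 < Real.exp 1 ^ 3 := pow_lt_pow_left₀ (by linarith) (by norm_num) (by norm_num)
  rw [← h2] at h4
  have h5 : (2.7 : ℝ) ^ 3 = 19.683 := by norm_num
  linarith

private theorem Pth_re_pos (h : IsPath L dL c C) {t : ℝ} (ht : t ∈ Ico (0:ℝ) 1) : 0 < (L t).re := by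
  rcases le_or_gt t (1 / 2) with h1 | h1
  · have := h.re3 t ⟨ht.1, h1⟩
    linarith
  · have h2 := h.re_ge t ⟨h1.le, ht.2.le⟩
    have h3 : 0 < c * (1 - t) := mul_pos h.cpos (by linarith [ht.2])
    linarith

/-- `Im (2 cosh L) = 2 sinh(Re L) sin(Im L) < 0` -/
theorem IsPath.ka_im (h : IsPath L dL c C) {t : ℝ} (ht : t ∈ Ioo (0:ℝ) 1) : (ka L t).im < 0 := by
  unfold ka
  rw [Pth_cosh_im]
  have h1 : 0 < Real.sinh (L t).re := Real.sinh_pos_iff.2 (Pth_re_pos h ⟨ht.1.le, ht.2⟩)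
  have h2 : Real.sin (L t).im < 0 := by
    apply Real.sin_neg_of_neg_of_neg_pi_lt (h.im_neg t ht)
    have := h.im_gt t ⟨ht.1.le, ht.2.le⟩
    have := Real.pi_gt_three
    linarith
  have := mul_neg_of_pos_of_neg h1 h2
  linarith

/-- `2 cosh 3 > 19` -/
theorem IsPath.ka_zero (h : IsPath L dL c C) : (ka L 0).im = 0 ∧ 10 < (ka L 0).re := by
  have h3 := h.re3 0 ⟨le_refl _, by norm_num⟩
  have him := h.im0
  constructor
  · unfold ka
    rw [Pth_cosh_im, him]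
    simp
  · have e1 : (ka L 0).re = 2 * (Real.cosh (L 0).re * Real.cos (L 0).im) := by
      unfold ka
      exact Pth_cosh_re _
    rw [e1, him, Real.cos_zero, mul_one, Real.cosh_eq]
    have := Pth_exp3 h3
    have := Real.exp_pos (-(L 0).re)
    linarith

theorem IsPath.ka_one (h : IsPath L dL c C) : ka L 1 = 2 := by
  unfold ka
  rw [h.zero, Complex.cosh_zero, mul_one]

theorem IsPath.ka_deriv (h : IsPath L dL c C) {t : ℝ} (ht : t ∈ Ioo (0:ℝ) 1) (ht2 : t ≠ 1 / 2) :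
    HasDerivAt (ka L) (dk L dL t) t := by
  have h1 := h.der t ht ht2
  have h2 := ((Complex.hasDerivAt_cosh (L t)).scomp t h1).const_mul (2 : ℂ)
  have e : dk L dL t = 2 * (dL t • Complex.sinh (L t)) := by
    unfold dk
    rw [smul_eq_mul]
    ring
  rw [e]
  exact h2

private theorem Pth_exp1 (z : ℂ) : ‖Complex.exp z - 1‖ ≤ ‖z‖ * Real.exp ‖z‖ := by
  have := Complex.norm_exp_sub_sum_le_norm_mul_exp z 1
  simpa using this

private theorem Pth_exp2 (z : ℂ) : ‖Complex.exp z - 1 - z‖ ≤ ‖z‖ ^ 2 * Real.exp ‖z‖ := by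
  have := Complex.norm_exp_sub_sum_le_norm_mul_exp z 2
  simpa [Finset.sum_range_succ, sub_sub] using this

private theorem Pth_cosh2 (z : ℂ) : 2 * Complex.cosh z = Complex.exp z + Complex.exp (-z) := by
  rw [Complex.cosh]
  ring

private theorem Pth_sinh2 (z : ℂ) : 2 * Complex.sinh z = Complex.exp z - Complex.exp (-z) := by
  rw [Complex.sinh]
  ring

private theorem Pth_cosh_sub (z : ℂ) : ‖2 * Complex.cosh z - 2‖ ≤ 2 * ‖z‖ ^ 2 * Real.exp ‖z‖ := by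
  have h1 := Pth_exp2 z
  have h2 := Pth_exp2 (-z)
  rw [norm_neg] at h2
  have e : 2 * Complex.cosh z - 2 = (Complex.exp z - 1 - z) + (Complex.exp (-z) - 1 - -z) := by
    rw [Pth_cosh2]
    ring
  rw [e]
  have := norm_add_le (Complex.exp z - 1 - z) (Complex.exp (-z) - 1 - -z)
  linarith

private theorem Pth_sinh_le (z : ℂ) : ‖2 * Complex.sinh z‖ ≤ 2 * ‖z‖ * Real.exp ‖z‖ := by
  have h1 := Pth_exp1 z
  have h2 := Pth_exp1 (-z)
  rw [norm_neg] at h2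
  have e : 2 * Complex.sinh z = (Complex.exp z - 1) - (Complex.exp (-z) - 1) := by
    rw [Pth_sinh2]
    ring
  rw [e]
  have := norm_sub_le (Complex.exp z - 1) (Complex.exp (-z) - 1)
  linarith

private theorem Pth_cosh_le (z : ℂ) : ‖2 * Complex.cosh z‖ ≤ 2 * Real.exp ‖z‖ := by
  rw [Pth_cosh2]
  have h1 := norm_add_le (Complex.exp z) (Complex.exp (-z))
  have h2 : ‖Complex.exp z‖ ≤ Real.exp ‖z‖ := by
    rw [Complex.norm_exp]
    exact Real.exp_le_exp.2 (Complex.re_le_norm z)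
  have h3 : ‖Complex.exp (-z)‖ ≤ Real.exp ‖z‖ := by
    rw [Complex.norm_exp]
    apply Real.exp_le_exp.2
    have := Complex.re_le_norm (-z)
    rwa [norm_neg] at this
  linarith

private theorem Pth_big {z : ℂ} (hz : 3 ≤ z.re) : Real.exp z.re - 1 ≤ ‖2 * Complex.cosh z‖ := by
  rw [Pth_cosh2]
  have h1 := norm_sub_norm_le (Complex.exp z) (-Complex.exp (-z))
  rw [norm_neg, sub_neg_eq_add, Complex.norm_exp, Complex.norm_exp, Complex.neg_re] at h1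
  have h2 : Real.exp (-z.re) ≤ 1 := Real.exp_le_one_iff.2 (by linarith)
  linarith

private theorem Pth_sinh_big {z : ℂ} (hz : 3 ≤ z.re) : ‖2 * Complex.sinh z‖ ≤ Real.exp z.re + 1 := by
  rw [Pth_sinh2]
  have h1 := norm_sub_le (Complex.exp z) (Complex.exp (-z))
  rw [Complex.norm_exp, Complex.norm_exp, Complex.neg_re] at h1
  have h2 : Real.exp (-z.re) ≤ 1 := Real.exp_le_one_iff.2 (by linarith)
  linarith

/-- the imaginary part -/
private theorem Pth_im (h : IsPath L dL c C) {t : ℝ} (h1 : 1 / 2 ≤ t) (h2 : t < 1) :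
    c ^ 2 * (1 - t) ^ 2 ≤ -(ka L t).im := by
  have hu : 0 < 1 - t := by linarith
  have a1 := h.re_ge t ⟨h1, h2.le⟩
  have a2 := h.im_le t ⟨h1, h2.le⟩
  have a3 := h.im_gt t ⟨by linarith, h2.le⟩
  have hcu : 0 < c * (1 - t) := mul_pos h.cpos hu
  unfold ka
  rw [Pth_cosh_im]
  have b1 : (L t).re ≤ Real.sinh (L t).re := Real.self_le_sinh_iff.2 (by linarith)
  have b2 : 2 / Real.pi * (-(L t).im) ≤ Real.sin (-(L t).im) := by
    apply Real.mul_le_sin (by linarith)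
    have := Real.pi_gt_three
    linarith
  rw [Real.sin_neg] at b2
  have b3 : 1 / 2 ≤ 2 / Real.pi := by
    rw [div_le_div_iff₀ (by norm_num) Real.pi_pos]
    have := Real.pi_le_four
    linarith
  have b4 : 1 / 2 * (c * (1 - t)) ≤ - Real.sin (L t).im := by
    calc 1 / 2 * (c * (1 - t)) ≤ 2 / Real.pi * (-(L t).im) :=
          mul_le_mul b3 a2 hcu.le (by positivity)
      _ ≤ _ := b2
  have b5 : (c * (1 - t)) * (1 / 2 * (c * (1 - t))) ≤ Real.sinh (L t).re * (- Real.sin (L t).im) :=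
    mul_le_mul (le_trans a1 b1) b4 (by positivity) (by linarith)
  nlinarith [b5]

private theorem Pth_sub_im (t : ℝ) (z : ℝ) : -(ka L t).im ≤ ‖ka L t - z‖ := by
  have h1 := Complex.abs_im_le_norm (ka L t - z)
  have h2 : (ka L t - (z : ℂ)).im = (ka L t).im := by simp
  rw [h2] at h1
  exact le_trans (neg_le_abs _) h1

private theorem Pth_first (h : IsPath L dL c C) {B : ℝ}
    (hB : ∀ t ∈ Icc (0:ℝ) 1, ‖L t‖ ≤ B) : ∃ M : ℝ, 0 < M ∧ ∀ t ∈ Ico (0:ℝ) 1,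
    ∀ s : ℝ, |s| ≤ 6 → ‖lg (ka L t - s)‖ ≤ M * (1 - t) ^ (-(1/4) : ℝ) := by
  have hE : 0 < Real.exp B := Real.exp_pos B
  refine ⟨2 * Real.exp B + 6 + |Real.log (c ^ 2)| + 8 + 2 * Real.pi, by positivity, ?_⟩
  intro t ht s hs
  have hu : 0 < 1 - t := by linarith [ht.2]
  have hu1 : 1 - t ≤ 1 := by linarith [ht.1]
  have hp : 1 ≤ (1 - t) ^ (-(1/4) : ℝ) := Real.one_le_rpow_of_pos_of_le_one_of_nonpos hu hu1 (by norm_num)
  have hk : ‖ka L t‖ ≤ 2 * Real.exp B := by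
    refine le_trans (Pth_cosh_le (L t)) ?_
    have := Real.exp_le_exp.2 (hB t ⟨ht.1, ht.2.le⟩)
    linarith
  have hup : ‖ka L t - s‖ ≤ 2 * Real.exp B + 6 := by
    have h1 := norm_sub_le (ka L t) (s : ℂ)
    rw [Complex.norm_real, Real.norm_eq_abs] at h1
    linarith
  have hlogup : 0 < ‖ka L t - s‖ → Real.log ‖ka L t - s‖ ≤ 2 * Real.exp B + 6 := by
    intro hpos
    have := Real.log_le_sub_one_of_pos hpos
    linarith
  have key : |Real.log ‖ka L t - s‖| ≤ 2 * Real.exp B + 6 + |Real.log (c ^ 2)| +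
      8 * (1 - t) ^ (-(1/4) : ℝ) := by
    rcases lt_or_ge t (1 / 2) with h1 | h1
    · have h2 := h.re3 t ⟨ht.1, h1.le⟩
      have h3 := Pth_big h2
      have h4 := Pth_exp3 h2
      have h5 := norm_sub_norm_le (ka L t) (s : ℂ)
      rw [Complex.norm_real, Real.norm_eq_abs] at h5
      have h6 : ‖ka L t‖ = ‖2 * Complex.cosh (L t)‖ := rfl
      have h7 : 1 ≤ ‖ka L t - s‖ := by
        rw [h6] at h5
        linarith
      rw [abs_of_nonneg (Real.log_nonneg h7)]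
      have := hlogup (by linarith)
      have := abs_nonneg (Real.log (c ^ 2))
      linarith
    · have h2 := Pth_im h h1 ht.2
      have h3 := le_trans h2 (Pth_sub_im t s)
      have hc2 : 0 < c ^ 2 := by have := h.cpos; positivity
      have hpos : 0 < c ^ 2 * (1 - t) ^ 2 := by positivity
      have h4 := Real.log_le_log hpos h3
      have hlp : Real.log ((1 - t) ^ 2) = 2 * Real.log (1 - t) := by
        rw [Real.log_pow]
        norm_num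
      rw [Real.log_mul hc2.ne' (by positivity), hlp] at h4
      have h5 : Real.log (1 - t)⁻¹ ≤ ((1 - t)⁻¹) ^ (1/4 : ℝ) / (1/4 : ℝ) :=
        Real.log_le_rpow_div (by positivity) (by norm_num)
      rw [Real.log_inv, Real.inv_rpow hu.le, ← Real.rpow_neg hu.le] at h5
      have h6 := neg_abs_le (Real.log (c ^ 2))
      have h7 := hlogup (by linarith)
      rw [abs_le]
      constructor
      · have : (0:ℝ) ≤ 2 * Real.exp B + 6 := by positivity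
        linarith
      · have := abs_nonneg (Real.log (c ^ 2))
        linarith
  have h8 := lg_norm (ka L t - s)
  have hpi := Real.pi_pos
  have h9 : (2 * Real.exp B + 6 + |Real.log (c ^ 2)| + 2 * Real.pi) * 1 ≤
      (2 * Real.exp B + 6 + |Real.log (c ^ 2)| + 2 * Real.pi) * (1 - t) ^ (-(1/4) : ℝ) :=
    mul_le_mul_of_nonneg_left hp (by positivity)
  calc ‖lg (ka L t - s)‖ ≤ |Real.log ‖ka L t - s‖| + 2 * Real.pi := h8
    _ ≤ (2 * Real.exp B + 6 + |Real.log (c ^ 2)| + 2 * Real.pi) * 1 + 8 * (1 - t) ^ (-(1/4) : ℝ) := by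
        linarith
    _ ≤ (2 * Real.exp B + 6 + |Real.log (c ^ 2)| + 2 * Real.pi) * (1 - t) ^ (-(1/4) : ℝ)
        + 8 * (1 - t) ^ (-(1/4) : ℝ) := by linarith
    _ = _ := by ring

private theorem Pth_third (h : IsPath L dL c C) (hC : 0 ≤ C) {B : ℝ}
    (hB : ∀ t ∈ Icc (0:ℝ) 1, ‖L t‖ ≤ B) : ∃ M : ℝ, 0 < M ∧ ∀ t ∈ Ico (0:ℝ) 1,
    ∀ z : ℝ, -2 ≤ z → z < 2 →
      ‖2 * Complex.sinh (L t) / (ka L t - z)‖ ≤
        M * (1 - t) ^ (-(1/4) : ℝ) * (2 - z) ^ (-(3/8) : ℝ) := by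
  have hE : 0 < Real.exp B := Real.exp_pos B
  have hc2 : 0 < c ^ 2 := by have := h.cpos; positivity
  -- `‖k-2‖ ≤ C' u^2`
  obtain ⟨C', hC', hC1⟩ : ∃ C' : ℝ, 0 < C' ∧ 2 * C ^ 2 * Real.exp B ≤ C' :=
    ⟨2 * C ^ 2 * Real.exp B + 1, by positivity, by linarith⟩
  obtain ⟨c1, hc1, hc1a, hc1b⟩ : ∃ c1 : ℝ, 0 < c1 ∧ c1 ≤ 1 / 2 ∧ c1 * (2 * C') ≤ c ^ 2 := by
    refine ⟨min (1 / 2) (c ^ 2 / (2 * C')), by positivity, min_le_left _ _, ?_⟩
    calc min (1 / 2) (c ^ 2 / (2 * C')) * (2 * C') ≤ c ^ 2 / (2 * C') * (2 * C') :=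
          mul_le_mul_of_nonneg_right (min_le_right _ _) (by positivity)
      _ = c ^ 2 := by field_simp
  have hA : 0 < (c ^ 2) ^ (5/8 : ℝ) * c1 ^ (3/8 : ℝ) := by positivity
  refine ⟨2 * C * Real.exp B / ((c ^ 2) ^ (5/8 : ℝ) * c1 ^ (3/8 : ℝ)) + 2 * 4 ^ (3/8 : ℝ),
    by positivity, ?_⟩
  intro t ht z hz1 hz2
  have hu : 0 < 1 - t := by linarith [ht.2]
  have hu1 : 1 - t ≤ 1 := by linarith [ht.1]
  have hv : 0 < 2 - z := by linarith
  have hv4 : 2 - z ≤ 4 := by linarith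
  have hp : 1 ≤ (1 - t) ^ (-(1/4) : ℝ) := Real.one_le_rpow_of_pos_of_le_one_of_nonpos hu hu1 (by norm_num)
  have hq : 0 < (2 - z) ^ (-(3/8) : ℝ) := by positivity
  have hq4 : (4:ℝ) ^ (-(3/8) : ℝ) ≤ (2 - z) ^ (-(3/8) : ℝ) :=
    Real.rpow_le_rpow_of_nonpos hv hv4 (by norm_num)
  rcases lt_or_ge t (1 / 2) with h1 | h1
  · have h2 := h.re3 t ⟨ht.1, h1.le⟩
    have h3 := Pth_big h2
    have h4 := Pth_exp3 h2
    have h5 := norm_sub_norm_le (ka L t) (z : ℂ)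
    rw [Complex.norm_real, Real.norm_eq_abs] at h5
    have hz : |z| ≤ 2 := abs_le.2 ⟨by linarith, by linarith⟩
    have h6 : ‖ka L t‖ = ‖2 * Complex.cosh (L t)‖ := rfl
    have h7 : Real.exp (L t).re - 3 ≤ ‖ka L t - z‖ := by
      rw [h6] at h5
      linarith
    have h8 := Pth_sinh_big h2
    have h9 : ‖2 * Complex.sinh (L t) / (ka L t - z)‖ ≤ 2 := by
      rw [norm_div, div_le_iff₀ (by linarith)]
      linarith
    refine le_trans h9 ?_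
    have e4 : (4:ℝ) ^ (3/8 : ℝ) * (4:ℝ) ^ (-(3/8) : ℝ) = 1 := by
      rw [← Real.rpow_add (by norm_num)]
      norm_num
    have hX : 0 ≤ 2 * C * Real.exp B / ((c ^ 2) ^ (5/8 : ℝ) * c1 ^ (3/8 : ℝ)) := by positivity
    have h44 : (0:ℝ) < (4:ℝ) ^ (3/8 : ℝ) := by positivity
    calc (2:ℝ) = 2 * ((4:ℝ) ^ (3/8 : ℝ) * (4:ℝ) ^ (-(3/8) : ℝ)) := by rw [e4, mul_one]
      _ ≤ 2 * ((4:ℝ) ^ (3/8 : ℝ) * (2 - z) ^ (-(3/8) : ℝ)) := by
          apply mul_le_mul_of_nonneg_left _ (by norm_num)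
          exact mul_le_mul_of_nonneg_left hq4 h44.le
      _ = (2 * 4 ^ (3/8 : ℝ)) * 1 * (2 - z) ^ (-(3/8) : ℝ) := by ring
      _ ≤ (2 * C * Real.exp B / ((c ^ 2) ^ (5/8 : ℝ) * c1 ^ (3/8 : ℝ)) + 2 * 4 ^ (3/8 : ℝ)) *
            (1 - t) ^ (-(1/4) : ℝ) * (2 - z) ^ (-(3/8) : ℝ) := by
          apply mul_le_mul_of_nonneg_right _ hq.le
          apply mul_le_mul _ hp (by norm_num) (by positivity)
          linarith
  · have b1 := le_trans (Pth_im h h1 ht.2) (Pth_sub_im t z)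
    have hL := h.nrm t ⟨h1, ht.2.le⟩
    have hLB := Real.exp_le_exp.2 (hB t ⟨ht.1, ht.2.le⟩)
    have b2 : ‖ka L t - 2‖ ≤ C' * (1 - t) ^ 2 := by
      refine le_trans (Pth_cosh_sub (L t)) ?_
      calc 2 * ‖L t‖ ^ 2 * Real.exp ‖L t‖ ≤ 2 * (C * (1 - t)) ^ 2 * Real.exp B := by
            apply mul_le_mul _ hLB (Real.exp_pos _).le (by positivity)
            apply mul_le_mul_of_nonneg_left _ (by norm_num)
            exact pow_le_pow_left₀ (norm_nonneg _) hL 2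
        _ = (2 * C ^ 2 * Real.exp B) * (1 - t) ^ 2 := by ring
        _ ≤ _ := mul_le_mul_of_nonneg_right hC1 (by positivity)
    have b3 : (2 - z) - C' * (1 - t) ^ 2 ≤ ‖ka L t - z‖ := by
      have e1 : ka L t - z = (((2 - z : ℝ)) : ℂ) - (-(ka L t - 2)) := by
        push_cast
        ring
      have e2 := norm_sub_norm_le (((2 - z : ℝ)) : ℂ) (-(ka L t - 2))
      rw [← e1, norm_neg, Complex.norm_real, Real.norm_eq_abs, abs_of_pos hv] at e2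
      linarith
    have b4 : c1 * (2 - z) ≤ ‖ka L t - z‖ := by
      rcases le_or_gt (2 * C' * (1 - t) ^ 2) (2 - z) with h5 | h5
      · have : c1 * (2 - z) ≤ 1 / 2 * (2 - z) := mul_le_mul_of_nonneg_right hc1a hv.le
        linarith
      · calc c1 * (2 - z) ≤ c1 * (2 * C' * (1 - t) ^ 2) := mul_le_mul_of_nonneg_left h5.le hc1.le
          _ = (c1 * (2 * C')) * (1 - t) ^ 2 := by ring
          _ ≤ c ^ 2 * (1 - t) ^ 2 := mul_le_mul_of_nonneg_right hc1b (by positivity)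
          _ ≤ _ := b1
    have hN : 0 < ‖ka L t - z‖ := lt_of_lt_of_le (by positivity) b4
    have b5 : ((c ^ 2) ^ (5/8 : ℝ) * c1 ^ (3/8 : ℝ)) * ((1 - t) ^ (5/4 : ℝ) * (2 - z) ^ (3/8 : ℝ)) ≤
        ‖ka L t - z‖ := by
      have e1 : (c ^ 2 * (1 - t) ^ 2) ^ (5/8 : ℝ) ≤ ‖ka L t - z‖ ^ (5/8 : ℝ) :=
        Real.rpow_le_rpow (by positivity) b1 (by norm_num)
      have e2 : (c1 * (2 - z)) ^ (3/8 : ℝ) ≤ ‖ka L t - z‖ ^ (3/8 : ℝ) :=
        Real.rpow_le_rpow (by positivity) b4 (by norm_num)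
      have e3 : ‖ka L t - z‖ ^ (5/8 : ℝ) * ‖ka L t - z‖ ^ (3/8 : ℝ) = ‖ka L t - z‖ := by
        rw [← Real.rpow_add hN]
        norm_num
      have e4 : (c ^ 2 * (1 - t) ^ 2) ^ (5/8 : ℝ) = (c ^ 2) ^ (5/8 : ℝ) * (1 - t) ^ (5/4 : ℝ) := by
        rw [Real.mul_rpow (by positivity) (by positivity)]
        congr 1
        rw [← Real.rpow_natCast, ← Real.rpow_mul hu.le]
        norm_num
      have e5 : (c1 * (2 - z)) ^ (3/8 : ℝ) = c1 ^ (3/8 : ℝ) * (2 - z) ^ (3/8 : ℝ) :=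
        Real.mul_rpow hc1.le hv.le
      calc ((c ^ 2) ^ (5/8 : ℝ) * c1 ^ (3/8 : ℝ)) * ((1 - t) ^ (5/4 : ℝ) * (2 - z) ^ (3/8 : ℝ))
          = (c ^ 2 * (1 - t) ^ 2) ^ (5/8 : ℝ) * (c1 * (2 - z)) ^ (3/8 : ℝ) := by
            rw [e4, e5]
            ring
        _ ≤ ‖ka L t - z‖ ^ (5/8 : ℝ) * ‖ka L t - z‖ ^ (3/8 : ℝ) :=
            mul_le_mul e1 e2 (by positivity) (by positivity)
        _ = _ := e3
    have b6 : ‖2 * Complex.sinh (L t)‖ ≤ 2 * C * Real.exp B * (1 - t) := by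
      refine le_trans (Pth_sinh_le (L t)) ?_
      calc 2 * ‖L t‖ * Real.exp ‖L t‖ ≤ 2 * (C * (1 - t)) * Real.exp B := by
            apply mul_le_mul _ hLB (Real.exp_pos _).le (by positivity)
            linarith
        _ = _ := by ring
    have e6 : (1 - t) ^ (-(1/4) : ℝ) * (1 - t) ^ (5/4 : ℝ) = 1 - t := by
      rw [← Real.rpow_add hu]
      norm_num
    have e7 : (2 - z) ^ (-(3/8) : ℝ) * (2 - z) ^ (3/8 : ℝ) = 1 := by
      rw [← Real.rpow_add hv]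
      norm_num
    rw [norm_div, div_le_iff₀ hN]
    have hX : 0 ≤ 2 * C * Real.exp B / ((c ^ 2) ^ (5/8 : ℝ) * c1 ^ (3/8 : ℝ)) := by positivity
    calc ‖2 * Complex.sinh (L t)‖ ≤ 2 * C * Real.exp B * (1 - t) := b6
      _ = (2 * C * Real.exp B / ((c ^ 2) ^ (5/8 : ℝ) * c1 ^ (3/8 : ℝ))) *
            (1 - t) ^ (-(1/4) : ℝ) * (2 - z) ^ (-(3/8) : ℝ) *
            (((c ^ 2) ^ (5/8 : ℝ) * c1 ^ (3/8 : ℝ)) * ((1 - t) ^ (5/4 : ℝ) * (2 - z) ^ (3/8 : ℝ))) := by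
          have e8 : (2 * C * Real.exp B / ((c ^ 2) ^ (5/8 : ℝ) * c1 ^ (3/8 : ℝ))) *
            (1 - t) ^ (-(1/4) : ℝ) * (2 - z) ^ (-(3/8) : ℝ) *
            (((c ^ 2) ^ (5/8 : ℝ) * c1 ^ (3/8 : ℝ)) * ((1 - t) ^ (5/4 : ℝ) * (2 - z) ^ (3/8 : ℝ))) =
            ((2 * C * Real.exp B / ((c ^ 2) ^ (5/8 : ℝ) * c1 ^ (3/8 : ℝ))) *
              ((c ^ 2) ^ (5/8 : ℝ) * c1 ^ (3/8 : ℝ))) *
            ((1 - t) ^ (-(1/4) : ℝ) * (1 - t) ^ (5/4 : ℝ)) *
            ((2 - z) ^ (-(3/8) : ℝ) * (2 - z) ^ (3/8 : ℝ)) := by ring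
          rw [e8, e6, e7, div_mul_cancel₀ _ hA.ne', mul_one]
      _ ≤ (2 * C * Real.exp B / ((c ^ 2) ^ (5/8 : ℝ) * c1 ^ (3/8 : ℝ))) *
            (1 - t) ^ (-(1/4) : ℝ) * (2 - z) ^ (-(3/8) : ℝ) * ‖ka L t - z‖ :=
          mul_le_mul_of_nonneg_left b5 (by positivity)
      _ ≤ (2 * C * Real.exp B / ((c ^ 2) ^ (5/8 : ℝ) * c1 ^ (3/8 : ℝ)) + 2 * 4 ^ (3/8 : ℝ)) *
            (1 - t) ^ (-(1/4) : ℝ) * (2 - z) ^ (-(3/8) : ℝ) * ‖ka L t - z‖ := by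
          apply mul_le_mul_of_nonneg_right _ hN.le
          apply mul_le_mul_of_nonneg_right _ hq.le
          apply mul_le_mul_of_nonneg_right _ (by linarith)
          have : (0:ℝ) ≤ 2 * 4 ^ (3/8 : ℝ) := by positivity
          linarith

/-- the quantitative bounds, uniform along the path: on `[1/2,1]` one has `‖dk‖ ≤ C'(1-t)`, `-Im k ≥ c²(1-t)²`,
`‖k - 2‖ ≤ C'(1-t)²`, hence `‖k - z‖ ≥ c'(2-z)` for real `z < 2`, so `‖k-z‖ ≥ c''(1-t)^(5/4) (2-z)^(3/8)`;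
`|log u| ≤ 8 u^(-1/8)` for `0 < u ≤ 1`; on `[0,1/2]`: `‖k‖ ≥ e³ - e⁻³ > 19` -/
theorem IsPath.bounds (h : IsPath L dL c C) : ∃ M : ℝ, 0 < M ∧ ∀ t ∈ Ico (0:ℝ) 1,
    (∀ s : ℝ, |s| ≤ 6 → ‖lg (ka L t - s)‖ ≤ M * (1 - t) ^ (-(1/4) : ℝ)) ∧
    (∀ z : ℝ, -2 ≤ z → z < 2 →
      ‖dk L dL t / (ka L t - z)‖ ≤ M * (1 - t) ^ (-(1/4) : ℝ) * (2 - z) ^ (-(3/8) : ℝ)) ∧
    (∀ z : ℝ, -2 ≤ z → z < 2 →
      ‖2 * Complex.sinh (L t) / (ka L t - z)‖ ≤
        M * (1 - t) ^ (-(1/4) : ℝ) * (2 - z) ^ (-(3/8) : ℝ)) := by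
  have hC : 0 ≤ C := le_trans (norm_nonneg _) (h.bd 0)
  obtain ⟨B0, hB0⟩ := isCompact_Icc.exists_bound_of_continuousOn h.cont
  obtain ⟨M3, hM3, h3⟩ := Pth_third h hC hB0
  obtain ⟨M1, hM1, h1⟩ := Pth_first h hB0
  refine ⟨M1 + M3 + C * M3, by positivity, ?_⟩
  intro t ht
  have hu : 0 < 1 - t := by linarith [ht.2]
  have hp : 0 ≤ (1 - t) ^ (-(1/4) : ℝ) := Real.rpow_nonneg hu.le _
  refine ⟨?_, ?_, ?_⟩
  · intro s hs
    refine le_trans (h1 t ht s hs) ?_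
    apply mul_le_mul_of_nonneg_right _ hp
    nlinarith [mul_nonneg hC hM3.le]
  · intro z hz1 hz2
    have hq : 0 ≤ (2 - z) ^ (-(3/8) : ℝ) := Real.rpow_nonneg (by linarith) _
    have e1 : dk L dL t / (ka L t - z) = (2 * Complex.sinh (L t) / (ka L t - z)) * dL t := by
      unfold dk
      ring
    rw [e1, norm_mul]
    have e2 := h3 t ht z hz1 hz2
    have e3 := h.bd t
    calc ‖2 * Complex.sinh (L t) / (ka L t - z)‖ * ‖dL t‖
        ≤ (M3 * (1 - t) ^ (-(1/4) : ℝ) * (2 - z) ^ (-(3/8) : ℝ)) * C :=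
          mul_le_mul e2 e3 (norm_nonneg _) (by positivity)
      _ = (C * M3) * ((1 - t) ^ (-(1/4) : ℝ) * (2 - z) ^ (-(3/8) : ℝ)) := by ring
      _ ≤ (M1 + M3 + C * M3) * ((1 - t) ^ (-(1/4) : ℝ) * (2 - z) ^ (-(3/8) : ℝ)) :=
          mul_le_mul_of_nonneg_right (by linarith) (mul_nonneg hp hq)
      _ = _ := by ring
  · intro z hz1 hz2
    have hq : 0 ≤ (2 - z) ^ (-(3/8) : ℝ) := Real.rpow_nonneg (by linarith) _
    refine le_trans (h3 t ht z hz1 hz2) ?_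
    calc M3 * (1 - t) ^ (-(1/4) : ℝ) * (2 - z) ^ (-(3/8) : ℝ)
        = M3 * ((1 - t) ^ (-(1/4) : ℝ) * (2 - z) ^ (-(3/8) : ℝ)) := by ring
      _ ≤ (M1 + M3 + C * M3) * ((1 - t) ^ (-(1/4) : ℝ) * (2 - z) ^ (-(3/8) : ℝ)) :=
          mul_le_mul_of_nonneg_right (by nlinarith [mul_nonneg hC hM3.le]) (mul_nonneg hp hq)
      _ = _ := by ring

end D8W
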