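import Mathlib
import Pool.Agent.D8W.Defs
import Pool.Agent.D8W.Pth

/-!
# D8W/Pw: the pointwise identity

`h(θ) = ∫_0^1 lg(k - Z - θR) dk/(k - Z)`, `θ ∈ [0,1]`.
* `h` is continuous on `[0,1]` (dominated convergence, `IsPath.bounds`; for fixed `t ∈ (0,1)` the integrand is continuous in `θ`).
* `h(0) = (lg(k(1)-Z)² - lg(k(0)-Z)²)/2` is real (FTC off `t = 1/2`).
* for `0 < θ < 1`, `θR ≠ 2 - Z`: `h'(θ) = -R ∫ dk/((k-Z-θR)(k-Z)) = -(1/θ)[lg(k-Z-θR) - lg(k-Z)]_0^1` (differentiation under the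
  integral: the distance of the compact curve `k([0,1])` from the real point `Z + θR` is positive, since its only real points are
  `k(0) > 10` and `k(1) = 2`), so `Im h'(θ) = π/θ` if `θR > 2 - Z` and `0` if `θR < 2 - Z`.
* If `R ≤ 2 - Z`: `Im h` is constant `= 0`.  If `R > 2 - Z`: `Im h = 0` on `[0,θ*]`, `θ* = (2-Z)/R`, and
  `Im h(θ) - π log(θR/(2-Z))` is constant on `[θ*,1]`.
-/

set_option autoImplicit false

open MeasureTheory Set

namespace D8W

variable {L dL : ℝ → ℂ} {c C : ℝ}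

private lemma Pw_ka_cont (h : IsPath L dL c C) : ContinuousOn (ka L) (Icc 0 1) :=
  continuousOn_const.mul (Complex.continuous_cosh.comp_continuousOn h.cont)

private lemma Pw_slit (h : IsPath L dL c C) {p : ℝ} (hp : |p| ≤ 6) (hp2 : p ≠ 2) {t : ℝ}
    (ht : t ∈ Icc (0:ℝ) 1) :
    (ka L t - (p : ℂ)).im < 0 ∨ (ka L t - (p : ℂ)).re ≠ 0 := by
  obtain ⟨h0, h1⟩ := ht
  rcases h0.eq_or_lt with e0 | h0
  · right
    have := h.ka_zero.2
    rw [← e0, Complex.sub_re, Complex.ofReal_re]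
    have := (abs_le.mp hp).2
    linarith
  · rcases h1.eq_or_lt with e1 | h1
    · right
      rw [e1, h.ka_one, Complex.sub_re, Complex.ofReal_re]
      intro h2
      apply hp2
      have h3 : (2 : ℂ).re = 2 := rfl
      rw [h3] at h2
      linarith
    · left
      have := h.ka_im ⟨h0, h1⟩
      rw [Complex.sub_im, Complex.ofReal_im]
      linarith

private lemma Pw_ne (h : IsPath L dL c C) {p : ℝ} (hp : |p| ≤ 6) (hp2 : p ≠ 2) {t : ℝ}
    (ht : t ∈ Icc (0:ℝ) 1) : ka L t - (p : ℂ) ≠ 0 := by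
  intro h0
  rcases Pw_slit h hp hp2 ht with h1 | h1
  · rw [h0] at h1; simp at h1
  · rw [h0] at h1; simp at h1

private lemma Pw_lg_cont (h : IsPath L dL c C) {p : ℝ} (hp : |p| ≤ 6) (hp2 : p ≠ 2) :
    ContinuousOn (fun t => lg (ka L t - (p : ℂ))) (Icc 0 1) := by
  intro t ht
  have h1 : ContinuousWithinAt (fun t => ka L t - (p : ℂ)) (Icc 0 1) t :=
    (Pw_ka_cont h t ht).sub continuousWithinAt_const
  exact ContinuousAt.comp_continuousWithinAt (g := lg) (f := fun t => ka L t - (p : ℂ))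
    (lg_deriv (Pw_slit h hp hp2 ht)).continuousAt h1

private lemma Pw_lg_der (h : IsPath L dL c C) {p : ℝ} {t : ℝ} (ht : t ∈ Ioo (0:ℝ) 1)
    (ht2 : t ≠ 1 / 2) :
    HasDerivAt (fun t => lg (ka L t - (p : ℂ))) (dk L dL t / (ka L t - (p : ℂ))) t := by
  have h1 : HasDerivAt (fun t => ka L t - (p : ℂ)) (dk L dL t) t :=
    (h.ka_deriv ht ht2).sub_const _
  have h2 : (ka L t - (p : ℂ)).im < 0 ∨ (ka L t - (p : ℂ)).re ≠ 0 := by
    left
    have := h.ka_im ht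
    rw [Complex.sub_im, Complex.ofReal_im]
    linarith
  have h3 := (lg_deriv h2).scomp t h1
  rw [smul_eq_mul, ← div_eq_mul_inv] at h3
  exact h3

private lemma Pw_aem_L (h : IsPath L dL c C) : AEMeasurable L (volume.restrict (uIoc (0:ℝ) 1)) := by
  rw [uIoc_of_le zero_le_one]
  exact (h.cont.mono Ioc_subset_Icc_self).aemeasurable measurableSet_Ioc

private lemma Pw_aem_ka (h : IsPath L dL c C) :
    AEMeasurable (ka L) (volume.restrict (uIoc (0:ℝ) 1)) := by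
  rw [uIoc_of_le zero_le_one]
  exact ((Pw_ka_cont h).mono Ioc_subset_Icc_self).aemeasurable measurableSet_Ioc

private lemma Pw_aem_dk (h : IsPath L dL c C) :
    AEMeasurable (dk L dL) (volume.restrict (uIoc (0:ℝ) 1)) :=
  (((Complex.measurable_sinh.comp_aemeasurable (Pw_aem_L h)).const_mul 2).mul
    h.meas.aemeasurable)

private lemma Pw_meas (h : IsPath L dL c C) (p Z : ℝ) :
    AEStronglyMeasurable (fun t => lg (ka L t - (p : ℂ)) * (dk L dL t / (ka L t - (Z : ℂ))))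
      (volume.restrict (uIoc (0:ℝ) 1)) := by
  apply AEMeasurable.aestronglyMeasurable
  exact (lg_meas.comp_aemeasurable ((Pw_aem_ka h).sub_const _)).mul
    ((Pw_aem_dk h).div ((Pw_aem_ka h).sub_const _))

private lemma Pw_meas' (h : IsPath L dL c C) (a : ℂ) (p Z : ℝ) :
    AEStronglyMeasurable (fun t => a / (ka L t - (p : ℂ)) * (dk L dL t / (ka L t - (Z : ℂ))))
      (volume.restrict (uIoc (0:ℝ) 1)) := by
  apply AEMeasurable.aestronglyMeasurable
  exact (aemeasurable_const.div ((Pw_aem_ka h).sub_const _)).mul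
    ((Pw_aem_dk h).div ((Pw_aem_ka h).sub_const _))

private lemma Pw_int (r : ℝ) (hr : -1 < r) (K : ℝ) :
    IntervalIntegrable (fun t : ℝ => K * (1 - t) ^ r) volume 0 1 := by
  have h1 : IntervalIntegrable (fun t : ℝ => t ^ r) volume 1 0 :=
    intervalIntegral.intervalIntegrable_rpow' hr
  have h2 := h1.comp_sub_left 1
  simp only [sub_self, sub_zero] at h2
  exact h2.const_mul K

private lemma Pw_ae : ∀ᵐ t : ℝ ∂volume, t ≠ 1 := by
  have : ({1}ᶜ : Set ℝ) ∈ ae (volume : Measure ℝ) := compl_mem_ae_iff.mpr (by simp)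
  exact this

/-- the integrand is bounded by an integrable function -/
private lemma Pw_bd (h : IsPath L dL c C) {Z : ℝ} (hZ : -2 ≤ Z) (hZ2 : Z < 2) :
    ∃ K : ℝ, 0 < K ∧ ∀ t ∈ Ico (0:ℝ) 1,
      (∀ p : ℝ, |p| ≤ 6 → ‖lg (ka L t - (p : ℂ)) * (dk L dL t / (ka L t - (Z : ℂ)))‖ ≤
        K * (1 - t) ^ (-(1/2) : ℝ)) ∧
      ‖dk L dL t / (ka L t - (Z : ℂ))‖ ≤ K * (1 - t) ^ (-(1/4) : ℝ) := by
  obtain ⟨M, hM, hb⟩ := h.bounds
  have hz : 0 < (2 - Z) ^ (-(3/8) : ℝ) := Real.rpow_pos_of_pos (by linarith) _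
  refine ⟨(M + 1) * (M * (2 - Z) ^ (-(3/8) : ℝ)), by positivity, ?_⟩
  intro t ht
  obtain ⟨h1, h2, -⟩ := hb t ht
  have h3 := h2 Z hZ hZ2
  have ht1 : 0 < 1 - t := by linarith [ht.2]
  have hr : 0 < (1 - t) ^ (-(1/4) : ℝ) := Real.rpow_pos_of_pos ht1 _
  have hsq : (1 - t) ^ (-(1/4) : ℝ) * (1 - t) ^ (-(1/4) : ℝ) = (1 - t) ^ (-(1/2) : ℝ) := by
    rw [← Real.rpow_add ht1]; norm_num
  constructor
  · intro p hp
    have h4 := h1 p hp
    rw [norm_mul]
    calc ‖lg (ka L t - (p : ℂ))‖ * ‖dk L dL t / (ka L t - (Z : ℂ))‖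
        ≤ (M * (1 - t) ^ (-(1/4) : ℝ)) *
          (M * (1 - t) ^ (-(1/4) : ℝ) * (2 - Z) ^ (-(3/8) : ℝ)) := by gcongr
      _ = M * (M * (2 - Z) ^ (-(3/8) : ℝ)) *
          ((1 - t) ^ (-(1/4) : ℝ) * (1 - t) ^ (-(1/4) : ℝ)) := by ring
      _ = M * (M * (2 - Z) ^ (-(3/8) : ℝ)) * (1 - t) ^ (-(1/2) : ℝ) := by rw [hsq]
      _ ≤ (M + 1) * (M * (2 - Z) ^ (-(3/8) : ℝ)) * (1 - t) ^ (-(1/2) : ℝ) := by
          gcongr; linarith
  · calc ‖dk L dL t / (ka L t - (Z : ℂ))‖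
        ≤ M * (1 - t) ^ (-(1/4) : ℝ) * (2 - Z) ^ (-(3/8) : ℝ) := h3
      _ = 1 * (M * (2 - Z) ^ (-(3/8) : ℝ)) * (1 - t) ^ (-(1/4) : ℝ) := by ring
      _ ≤ (M + 1) * (M * (2 - Z) ^ (-(3/8) : ℝ)) * (1 - t) ^ (-(1/4) : ℝ) := by
          gcongr; linarith

private lemma Pw_integrable (h : IsPath L dL c C) {Z : ℝ} (hZ : -2 ≤ Z) (hZ2 : Z < 2) {p : ℝ}
    (hp : |p| ≤ 6) :
    IntervalIntegrable (fun t => lg (ka L t - (p : ℂ)) * (dk L dL t / (ka L t - (Z : ℂ))))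
      volume 0 1 := by
  obtain ⟨K, hK, hb⟩ := Pw_bd h hZ hZ2
  refine (Pw_int (-(1/2)) (by norm_num) K).mono_fun (Pw_meas h p Z) ?_
  rw [Filter.EventuallyLE, ae_restrict_iff' measurableSet_uIoc]
  filter_upwards [Pw_ae] with t ht1 ht
  rw [uIoc_of_le zero_le_one] at ht
  have ht' : t ∈ Ico (0:ℝ) 1 := ⟨ht.1.le, lt_of_le_of_ne ht.2 ht1⟩
  exact ((hb t ht').1 p hp).trans (Real.le_norm_self _)

/-- the parameter integral -/
private noncomputable def Pw_h (L dL : ℝ → ℂ) (Z R θ : ℝ) : ℂ :=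
  ∫ t in (0:ℝ)..1, lg (ka L t - ((Z + θ * R : ℝ) : ℂ)) * (dk L dL t / (ka L t - (Z : ℂ)))

private lemma Pw_abs {Z R θ : ℝ} (hZ : -2 ≤ Z) (hZ2 : Z < 2) (hR : |R| ≤ 4)
    (hθ : θ ∈ Icc (0:ℝ) 1) : |Z + θ * R| ≤ 6 := by
  have h1 : |θ * R| ≤ 4 := by
    rw [abs_mul, abs_of_nonneg hθ.1]
    calc θ * |R| ≤ 1 * |R| := by gcongr; exact hθ.2
      _ ≤ 4 := by linarith
  have h2 : |Z| ≤ 2 := abs_le.mpr ⟨hZ, hZ2.le⟩
  linarith [abs_add_le Z (θ * R)]

private lemma Pw_h_cont (h : IsPath L dL c C) {Z R : ℝ} (hZ : -2 ≤ Z) (hZ2 : Z < 2)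
    (hR : |R| ≤ 4) : ContinuousOn (Pw_h L dL Z R) (Icc 0 1) := by
  obtain ⟨K, hK, hb⟩ := Pw_bd h hZ hZ2
  intro θ0 hθ0
  refine intervalIntegral.continuousWithinAt_of_dominated_interval
    (bound := fun t => K * (1 - t) ^ (-(1/2) : ℝ))
    (Filter.Eventually.of_forall fun θ => Pw_meas h (Z + θ * R) Z) ?_
    (Pw_int (-(1/2)) (by norm_num) K) ?_
  · filter_upwards [self_mem_nhdsWithin] with θ hθ
    filter_upwards [Pw_ae] with t ht1 ht
    rw [uIoc_of_le zero_le_one] at ht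
    exact (hb t ⟨ht.1.le, lt_of_le_of_ne ht.2 ht1⟩).1 _ (Pw_abs hZ hZ2 hR hθ)
  · filter_upwards [Pw_ae] with t ht1 ht
    rw [uIoc_of_le zero_le_one] at ht
    have ht' : t ∈ Ioo (0:ℝ) 1 := ⟨ht.1, lt_of_le_of_ne ht.2 ht1⟩
    have h2 : (ka L t - ((Z + θ0 * R : ℝ) : ℂ)).im < 0 ∨
        (ka L t - ((Z + θ0 * R : ℝ) : ℂ)).re ≠ 0 := by
      left
      have := h.ka_im ht'
      rw [Complex.sub_im, Complex.ofReal_im]
      linarith
    have h3 : ContinuousAt (fun θ : ℝ => ka L t - ((Z + θ * R : ℝ) : ℂ)) θ0 := by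
      fun_prop
    have h4 : ContinuousAt (fun θ : ℝ => lg (ka L t - ((Z + θ * R : ℝ) : ℂ))) θ0 :=
      ContinuousAt.comp (f := fun θ : ℝ => ka L t - ((Z + θ * R : ℝ) : ℂ))
        (lg_deriv h2).continuousAt h3
    exact (h4.mul continuousAt_const).continuousWithinAt

/-- distance of the path from a real point -/
private lemma Pw_dist (h : IsPath L dL c C) {p : ℝ} (hp : |p| ≤ 6) (hp2 : p ≠ 2) :
    ∃ δ : ℝ, 0 < δ ∧ ∀ t ∈ Icc (0:ℝ) 1, δ ≤ ‖ka L t - (p : ℂ)‖ := by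
  have hc : ContinuousOn (fun t => ‖ka L t - (p : ℂ)‖) (Icc 0 1) :=
    ((Pw_ka_cont h).sub continuousOn_const).norm
  obtain ⟨t0, ht0, hmin⟩ := isCompact_Icc.exists_isMinOn (nonempty_Icc.mpr zero_le_one) hc
  exact ⟨‖ka L t0 - (p : ℂ)‖, norm_pos_iff.mpr (Pw_ne h hp hp2 ht0), fun t ht => hmin ht⟩

private lemma Pw_h_zero (h : IsPath L dL c C) {Z R : ℝ} (hZ : -2 ≤ Z) (hZ2 : Z < 2)
    (hR : |R| ≤ 4) : (Pw_h L dL Z R 0).im = 0 := by
  have hZa : |Z| ≤ 6 := by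
    have := Pw_abs hZ hZ2 hR (θ := 0) ⟨le_rfl, zero_le_one⟩
    simpa using this
  have h1 : Pw_h L dL Z R 0 =
      ∫ t in (0:ℝ)..1, lg (ka L t - (Z : ℂ)) * (dk L dL t / (ka L t - (Z : ℂ))) := by
    simp [Pw_h]
  have hc := Pw_lg_cont h hZa (ne_of_lt hZ2)
  have h2 : ∫ t in (0:ℝ)..1, lg (ka L t - (Z : ℂ)) * (dk L dL t / (ka L t - (Z : ℂ))) =
      lg (ka L 1 - (Z : ℂ)) ^ 2 / 2 - lg (ka L 0 - (Z : ℂ)) ^ 2 / 2 := by
    refine integral_eq_of_hasDerivAt_off_countable_of_le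
      (fun t => lg (ka L t - (Z : ℂ)) ^ 2 / 2) _ zero_le_one (countable_singleton (1 / 2 : ℝ))
      ((hc.pow 2).div_const 2) ?_ (Pw_integrable h hZ hZ2 hZa)
    intro t ht
    have h3 := ((Pw_lg_der h (p := Z) ht.1 ht.2).fun_pow 2).div_const 2
    refine h3.congr_deriv ?_
    norm_num
    ring
  rw [h1, h2, h.ka_one]
  have e1 : (2 : ℂ) - (Z : ℂ) = ((2 - Z : ℝ) : ℂ) := by push_cast; ring
  have e2 : ka L 0 - (Z : ℂ) = (((ka L 0).re - Z : ℝ) : ℂ) := by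
    apply Complex.ext
    · simp
    · simp [h.ka_zero.1]
  rw [e1, e2, lg_pos (by linarith), lg_pos (by linarith [h.ka_zero.2])]
  have e3 : (Real.log (2 - Z) : ℂ) ^ 2 / 2 - (Real.log ((ka L 0).re - Z) : ℂ) ^ 2 / 2 =
      ((Real.log (2 - Z) ^ 2 / 2 - Real.log ((ka L 0).re - Z) ^ 2 / 2 : ℝ) : ℂ) := by
    push_cast; ring
  rw [e3, Complex.ofReal_im]

private lemma Pw_h_der (h : IsPath L dL c C) {Z R : ℝ} (hZ : -2 ≤ Z) (hZ2 : Z < 2)
    (hR : |R| ≤ 4) {θ : ℝ} (hθ : θ ∈ Ioo (0:ℝ) 1) (hne : θ * R ≠ 2 - Z) :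
    HasDerivAt (fun x => (Pw_h L dL Z R x).im)
      (if 2 - Z < θ * R then Real.pi / θ else 0) θ := by
  have hθ' : θ ∈ Icc (0:ℝ) 1 := Ioo_subset_Icc_self hθ
  have hZa : |Z| ≤ 6 := by
    have := Pw_abs hZ hZ2 hR (θ := 0) ⟨le_rfl, zero_le_one⟩
    simpa using this
  set p : ℝ := Z + θ * R with hp
  have hpa : |p| ≤ 6 := Pw_abs hZ hZ2 hR hθ'
  have hp2 : p ≠ 2 := by
    intro h0
    apply hne
    rw [hp] at h0
    linarith
  obtain ⟨δ, hδ, hd⟩ := Pw_dist h hpa hp2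
  obtain ⟨K, hK, hb⟩ := Pw_bd h hZ hZ2
  have hlow : ∀ x ∈ Metric.ball θ (δ / 8), ∀ t ∈ Icc (0:ℝ) 1,
      δ / 2 ≤ ‖ka L t - ((Z + x * R : ℝ) : ℂ)‖ := by
    intro x hx t ht
    have h1 := hd t ht
    rw [Metric.mem_ball, Real.dist_eq] at hx
    have h2 : ‖(((x - θ) * R : ℝ) : ℂ)‖ ≤ δ / 2 := by
      rw [Complex.norm_real, norm_mul, Real.norm_eq_abs, Real.norm_eq_abs]
      calc |x - θ| * |R| ≤ δ / 8 * 4 := by gcongr
        _ = δ / 2 := by ring
    have h3 : ka L t - (p : ℂ) = (ka L t - ((Z + x * R : ℝ) : ℂ)) + (((x - θ) * R : ℝ) : ℂ) := by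
      rw [hp]; push_cast; ring
    have h4 := norm_add_le (ka L t - ((Z + x * R : ℝ) : ℂ)) (((x - θ) * R : ℝ) : ℂ)
    rw [← h3] at h4
    linarith
  have key := intervalIntegral.hasDerivAt_integral_of_dominated_loc_of_deriv_le
    (μ := volume) (a := 0) (b := 1) (𝕜 := ℝ)
    (F := fun x t => lg (ka L t - ((Z + x * R : ℝ) : ℂ)) * (dk L dL t / (ka L t - (Z : ℂ))))
    (F' := fun x t => (-(R : ℂ)) / (ka L t - ((Z + x * R : ℝ) : ℂ)) *
      (dk L dL t / (ka L t - (Z : ℂ))))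
    (x₀ := θ) (s := Metric.ball θ (δ / 8))
    (bound := fun t => (8 / δ * K) * (1 - t) ^ (-(1/4) : ℝ))
    (Metric.ball_mem_nhds θ (by positivity))
    (Filter.Eventually.of_forall fun x => Pw_meas h (Z + x * R) Z)
    (Pw_integrable h hZ hZ2 hpa)
    (Pw_meas' h (-(R : ℂ)) (Z + θ * R) Z)
    (by
      filter_upwards [Pw_ae] with t ht1 ht x hx
      rw [uIoc_of_le zero_le_one] at ht
      have ht' : t ∈ Icc (0:ℝ) 1 := ⟨ht.1.le, ht.2⟩
      have h1 := hlow x hx t ht'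
      have h2 := (hb t ⟨ht.1.le, lt_of_le_of_ne ht.2 ht1⟩).2
      rw [norm_mul, norm_div, norm_neg, Complex.norm_real, Real.norm_eq_abs]
      have h3 : |R| / ‖ka L t - ((Z + x * R : ℝ) : ℂ)‖ ≤ 8 / δ := by
        calc |R| / ‖ka L t - ((Z + x * R : ℝ) : ℂ)‖ ≤ 4 / (δ / 2) := by gcongr
          _ = 8 / δ := by field_simp; norm_num
      calc |R| / ‖ka L t - ((Z + x * R : ℝ) : ℂ)‖ * ‖dk L dL t / (ka L t - (Z : ℂ))‖
          ≤ (8 / δ) * (K * (1 - t) ^ (-(1/4) : ℝ)) := by gcongr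
        _ = (8 / δ * K) * (1 - t) ^ (-(1/4) : ℝ) := by ring)
    (Pw_int (-(1/4)) (by norm_num) _)
    (by
      filter_upwards [Pw_ae] with t ht1 ht x hx
      rw [uIoc_of_le zero_le_one] at ht
      have ht' : t ∈ Ioo (0:ℝ) 1 := ⟨ht.1, lt_of_le_of_ne ht.2 ht1⟩
      have h2 : (ka L t - ((Z + x * R : ℝ) : ℂ)).im < 0 ∨
          (ka L t - ((Z + x * R : ℝ) : ℂ)).re ≠ 0 := by
        left
        have := h.ka_im ht'
        rw [Complex.sub_im, Complex.ofReal_im]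
        linarith
      have h3 : HasDerivAt (fun x : ℝ => ka L t - ((Z + x * R : ℝ) : ℂ)) (-(R : ℂ)) x := by
        have h4 : HasDerivAt (fun x : ℝ => Z + x * R) R x := by
          simpa using ((hasDerivAt_id x).mul_const R).const_add Z
        exact h4.ofReal_comp.const_sub _
      have h5 := (lg_deriv h2).scomp x h3
      rw [smul_eq_mul, ← div_eq_mul_inv] at h5
      exact h5.mul_const _)
  obtain ⟨hint, hder⟩ := key
  -- the value of the derivative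
  have hθ0 : (θ : ℂ) ≠ 0 := by
    exact_mod_cast hθ.1.ne'
  have hval : ∫ t in (0:ℝ)..1, (-(R : ℂ)) / (ka L t - ((Z + θ * R : ℝ) : ℂ)) *
      (dk L dL t / (ka L t - (Z : ℂ))) =
      -(1 / (θ : ℂ)) * (lg (ka L 1 - (p : ℂ)) - lg (ka L 1 - (Z : ℂ))) -
      (-(1 / (θ : ℂ)) * (lg (ka L 0 - (p : ℂ)) - lg (ka L 0 - (Z : ℂ)))) := by
    refine integral_eq_of_hasDerivAt_off_countable_of_le
      (fun t => -(1 / (θ : ℂ)) * (lg (ka L t - (p : ℂ)) - lg (ka L t - (Z : ℂ)))) _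
      zero_le_one (countable_singleton (1 / 2 : ℝ)) ?_ ?_ hint
    · exact continuousOn_const.mul ((Pw_lg_cont h hpa hp2).sub (Pw_lg_cont h hZa (ne_of_lt hZ2)))
    · intro t ht
      have h3 := ((Pw_lg_der h (p := p) ht.1 ht.2).fun_sub (Pw_lg_der h (p := Z) ht.1 ht.2)).const_mul
        (-(1 / (θ : ℂ)))
      have n1 := Pw_ne h hpa hp2 (Ioo_subset_Icc_self ht.1)
      have n2 := Pw_ne h hZa (ne_of_lt hZ2) (Ioo_subset_Icc_self ht.1)
      refine h3.congr_deriv ?_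
      change -(1 / (θ : ℂ)) * (dk L dL t / (ka L t - (p : ℂ)) - dk L dL t / (ka L t - (Z : ℂ))) =
        (-(R : ℂ)) / (ka L t - (p : ℂ)) * (dk L dL t / (ka L t - (Z : ℂ)))
      have e1 : (p : ℂ) = (Z : ℂ) + (θ : ℂ) * (R : ℂ) := by rw [hp]; push_cast; ring
      field_simp
      rw [e1]
      ring
  have hder2 : HasDerivAt (fun x => (Pw_h L dL Z R x).im)
      (∫ t in (0:ℝ)..1, (-(R : ℂ)) / (ka L t - ((Z + θ * R : ℝ) : ℂ)) *
      (dk L dL t / (ka L t - (Z : ℂ)))).im θ :=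
    Complex.imCLM.hasFDerivAt.comp_hasDerivAt θ hder
  rw [hval, h.ka_one] at hder2
  convert hder2 using 1
  have e1 : (2 : ℂ) - (Z : ℂ) = ((2 - Z : ℝ) : ℂ) := by push_cast; ring
  have e2 : ka L 0 - (Z : ℂ) = (((ka L 0).re - Z : ℝ) : ℂ) := by
    apply Complex.ext
    · simp
    · simp [h.ka_zero.1]
  have e3 : ka L 0 - (p : ℂ) = (((ka L 0).re - p : ℝ) : ℂ) := by
    apply Complex.ext
    · simp
    · simp [h.ka_zero.1]
  have e4 : (2 : ℂ) - (p : ℂ) = ((2 - p : ℝ) : ℂ) := by push_cast; ring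
  have e5 : -(1 / (θ : ℂ)) = ((-(1 / θ) : ℝ) : ℂ) := by push_cast; ring
  rw [e1, e2, e3, e4, e5, lg_pos (by linarith : 0 < 2 - Z),
    lg_pos (by linarith [h.ka_zero.2] : 0 < (ka L 0).re - Z),
    lg_pos (by linarith [h.ka_zero.2, (abs_le.mp hpa).2] : 0 < (ka L 0).re - p)]
  by_cases hc : 2 - Z < θ * R
  · rw [if_pos hc, lg_neg (by rw [hp]; linarith : 2 - p < 0)]
    simp only [Complex.sub_im, Complex.mul_im, Complex.ofReal_re, Complex.ofReal_im, Complex.sub_re,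
      Complex.I_re, Complex.I_im, Complex.mul_re]
    ring
  · rw [if_neg hc, lg_pos (by
      rw [hp]
      have := lt_of_le_of_ne (not_lt.mp hc) hne
      linarith : 0 < 2 - p)]
    simp only [Complex.sub_im, Complex.mul_im, Complex.ofReal_re, Complex.ofReal_im, Complex.sub_re]
    ring

theorem pointwise (h : IsPath L dL c C) {Z R : ℝ} (hZ : -2 ≤ Z) (hZ2 : Z < 2) (hR : |R| ≤ 4) :
    (∫ t in (0:ℝ)..1, lg (ka L t - ((Z + R : ℝ) : ℂ)) * (dk L dL t / (ka L t - (Z : ℂ)))).im =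
      Real.pi * (if 2 < Z + R then Real.log (R / (2 - Z)) else 0) := by
  have h1 : (∫ t in (0:ℝ)..1, lg (ka L t - ((Z + R : ℝ) : ℂ)) *
      (dk L dL t / (ka L t - (Z : ℂ)))).im = (Pw_h L dL Z R 1).im := by
    rw [Pw_h, one_mul]
  rw [h1]
  have hcont : ContinuousOn (fun x => (Pw_h L dL Z R x).im) (Icc 0 1) :=
    Complex.continuous_im.comp_continuousOn (Pw_h_cont h hZ hZ2 hR)
  have h0 := Pw_h_zero h hZ hZ2 hR
  by_cases hc : 2 < Z + R
  · rw [if_pos hc]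
    have hRpos : 0 < R := by linarith
    have hz : 0 < 2 - Z := by linarith
    set θ' : ℝ := (2 - Z) / R with hθ'
    have hθ0 : 0 < θ' := by positivity
    have hθ1 : θ' < 1 := by rw [hθ', div_lt_one hRpos]; linarith
    have hmul : θ' * R = 2 - Z := by rw [hθ']; field_simp
    have hA : (Pw_h L dL Z R θ').im = 0 := by
      have h2 := intervalIntegral.integral_eq_sub_of_hasDerivAt_of_le (a := 0) (b := θ') hθ0.le
        (f := fun x => (Pw_h L dL Z R x).im) (f' := fun _ => 0)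
        (hcont.mono (Icc_subset_Icc_right hθ1.le))
        (fun x hx => by
          have hx1 : x * R < 2 - Z := by
            rw [← hmul]; exact mul_lt_mul_of_pos_right hx.2 hRpos
          have h3 := Pw_h_der h hZ hZ2 hR (θ := x) ⟨hx.1, hx.2.trans hθ1⟩ (ne_of_lt hx1)
          rwa [if_neg (not_lt.mpr hx1.le)] at h3)
        intervalIntegrable_const
      simp only [intervalIntegral.integral_zero] at h2
      linarith
    have hB : (Pw_h L dL Z R 1).im - (Pw_h L dL Z R θ').im = Real.pi * Real.log (1 / θ') := by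
      have h2 := intervalIntegral.integral_eq_sub_of_hasDerivAt_of_le (a := θ') (b := 1) hθ1.le
        (f := fun x => (Pw_h L dL Z R x).im) (f' := fun x => Real.pi * (1 / x))
        (hcont.mono (Icc_subset_Icc_left hθ0.le))
        (fun x hx => by
          have hx1 : 2 - Z < x * R := by
            rw [← hmul]; exact mul_lt_mul_of_pos_right hx.1 hRpos
          have h3 := Pw_h_der h hZ hZ2 hR (θ := x) ⟨hθ0.trans hx.1, hx.2⟩ (ne_of_gt hx1)
          rw [if_pos hx1] at h3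
          rwa [mul_one_div])
        ((intervalIntegral.intervalIntegrable_one_div (f := fun x : ℝ => x) (fun x hx h0 => by
          rw [uIcc_of_le hθ1.le] at hx
          linarith [hx.1]) continuousOn_id).const_mul _)
      rw [intervalIntegral.integral_const_mul, integral_one_div_of_pos hθ0 one_pos] at h2
      exact h2.symm
    rw [hA, sub_zero] at hB
    rw [hB, hθ', one_div_div]
  · rw [if_neg hc, mul_zero]
    have h2 := intervalIntegral.integral_eq_sub_of_hasDerivAt_of_le (a := 0) (b := 1) zero_le_one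
      (f := fun x => (Pw_h L dL Z R x).im) (f' := fun _ => 0) hcont
      (fun x hx => by
        have hx1 : x * R < 2 - Z := by
          rcases le_or_gt R 0 with hR0 | hR0
          · have : x * R ≤ 0 := mul_nonpos_of_nonneg_of_nonpos hx.1.le hR0
            linarith
          · have : x * R < 1 * R := mul_lt_mul_of_pos_right hx.2 hR0
            linarith
        have h3 := Pw_h_der h hZ hZ2 hR (θ := x) hx (ne_of_lt hx1)
        rwa [if_neg (not_lt.mpr hx1.le)] at h3)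
      intervalIntegrable_const
    simp only [intervalIntegral.integral_zero] at h2
    linarith

end D8W
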