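import Mathlib
import Pool.Agent.D8W.Defs
import Pool.Agent.D8W.Lg
import Pool.Agent.RV15W.Mom

/-!
# D8W/Dif: differentiation under the integral over the cube; symmetries of `mu`
-/

set_option autoImplicit false

open MeasureTheory Set

namespace D8W

open RV15W

private noncomputable def Dif_m1 : Measure ℝ := volume.restrict (Ioc 0 1)

private theorem Dif_mu : mu = Dif_m1.prod (Dif_m1.prod Dif_m1) := by
  unfold mu Dif_m1
  rw [Measure.prod_restrict, Measure.prod_restrict]
  rfl

private instance Dif_prob : IsProbabilityMeasure Dif_m1 := ⟨by simp [Dif_m1]⟩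

/-- the closed cube -/
private def Dif_cube : Set (ℝ × ℝ × ℝ) := Icc 0 1 ×ˢ (Icc 0 1 ×ˢ Icc 0 1)

private theorem Dif_compact : IsCompact Dif_cube :=
  isCompact_Icc.prod (isCompact_Icc.prod isCompact_Icc)

private theorem Dif_ae : ∀ᵐ v ∂mu, v ∈ Dif_cube := by
  unfold mu
  filter_upwards [ae_restrict_mem (measurableSet_Ioc.prod (measurableSet_Ioc.prod measurableSet_Ioc))]
    with v hv
  exact ⟨Ioc_subset_Icc_self hv.1, Ioc_subset_Icc_self hv.2.1, Ioc_subset_Icc_self hv.2.2⟩

private theorem Dif_integrable {f : ℝ × ℝ × ℝ → ℂ} (hf : Continuous f) : Integrable f mu := by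
  have := mu_prob
  obtain ⟨M, hM⟩ := Dif_compact.exists_bound_of_continuousOn hf.continuousOn
  refine Integrable.of_bound hf.aestronglyMeasurable M ?_
  filter_upwards [Dif_ae] with v hv using hM v hv

/-- differentiation under `∫ dmu` for a jointly continuous derivative (compact neighbourhood times closed cube: bounded) -/
theorem hasDerivAt_mu {U : Set ℂ} (hU : IsOpen U) {f f' : ℂ → ℝ × ℝ × ℝ → ℂ}
    (hf : ∀ z ∈ U, Continuous (f z))
    (hd : ∀ z ∈ U, ∀ v, HasDerivAt (fun w => f w v) (f' z v) z)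
    (hc : ContinuousOn (fun p : ℂ × (ℝ × ℝ × ℝ) => f' p.1 p.2) (U ×ˢ univ)) {z : ℂ} (hz : z ∈ U) :
    HasDerivAt (fun w => ∫ v, f w v ∂mu) (∫ v, f' z v ∂mu) z := by
  have := mu_prob
  obtain ⟨r, hr, hball⟩ := Metric.nhds_basis_closedBall.mem_iff.mp (hU.mem_nhds hz)
  obtain ⟨M, hM⟩ := ((isCompact_closedBall z r).prod Dif_compact).exists_bound_of_continuousOn
    (hc.mono (prod_mono hball (subset_univ _)))
  have key := hasDerivAt_integral_of_dominated_loc_of_deriv_le
    (μ := mu) (F := f) (F' := f') (x₀ := z) (s := Metric.closedBall z r) (bound := fun _ => M)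
    (Metric.closedBall_mem_nhds z hr) ?_ (Dif_integrable (hf z hz)) ?_ ?_ (integrable_const _) ?_
  · exact key.2
  · filter_upwards [hU.mem_nhds hz] with w hw using (hf w hw).aestronglyMeasurable
  · have h1 : Continuous fun v : ℝ × ℝ × ℝ => f' z v := by
      have h2 : Continuous fun v : ℝ × ℝ × ℝ => (z, v) := by fun_prop
      exact hc.comp_continuous h2 fun v => ⟨hz, mem_univ _⟩
    exact h1.aestronglyMeasurable
  · filter_upwards [Dif_ae] with v hv w hw
    exact hM (w, v) ⟨hw, hv⟩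
  · filter_upwards with v w hw
    exact hd w (hball hw) v

private theorem Dif_p23 : MeasurePreserving (fun v : ℝ × ℝ × ℝ => (v.1, v.2.2, v.2.1)) mu mu := by
  rw [Dif_mu]
  exact (MeasurePreserving.id _).prod Measure.measurePreserving_swap

private theorem Dif_e23 : MeasurableEmbedding (fun v : ℝ × ℝ × ℝ => (v.1, v.2.2, v.2.1)) :=
  (MeasurableEquiv.prodCongr (MeasurableEquiv.refl ℝ)
    (MeasurableEquiv.prodComm (α := ℝ) (β := ℝ))).measurableEmbedding

private theorem Dif_p12 : MeasurePreserving (fun v : ℝ × ℝ × ℝ => (v.2.1, v.1, v.2.2)) mu mu := by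
  rw [Dif_mu]
  have h1 := (measurePreserving_prodAssoc Dif_m1 Dif_m1 Dif_m1)
  have h2 : MeasurePreserving (fun v : (ℝ × ℝ) × ℝ => (v.1.swap, v.2))
      ((Dif_m1.prod Dif_m1).prod Dif_m1) ((Dif_m1.prod Dif_m1).prod Dif_m1) :=
    Measure.measurePreserving_swap.prod (MeasurePreserving.id _)
  exact (h1.comp h2).comp (h1.symm MeasurableEquiv.prodAssoc)

private theorem Dif_e12 : MeasurableEmbedding (fun v : ℝ × ℝ × ℝ => (v.2.1, v.1, v.2.2)) := by
  have h := ((MeasurableEquiv.prodAssoc (α := ℝ) (β := ℝ) (γ := ℝ)).symm.trans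
    ((MeasurableEquiv.prodCongr (MeasurableEquiv.prodComm (α := ℝ) (β := ℝ))
      (MeasurableEquiv.refl ℝ)).trans MeasurableEquiv.prodAssoc)).measurableEmbedding
  exact h

/-- `mu` is invariant under the exchange of the second and third variable -/
theorem mu_swap23 (f : ℝ × ℝ × ℝ → ℂ) :
    ∫ v, f (v.1, v.2.2, v.2.1) ∂mu = ∫ v, f v ∂mu :=
  Dif_p23.integral_comp Dif_e23 f

private theorem Dif_swap12 (f : ℝ × ℝ × ℝ → ℂ) :
    ∫ v, f (v.2.1, v.1, v.2.2) ∂mu = ∫ v, f v ∂mu :=
  Dif_p12.integral_comp Dif_e12 f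

/-- `mu` is invariant under the exchange of the first and third variable -/
theorem mu_swap13 (f : ℝ × ℝ × ℝ → ℂ) :
    ∫ v, f (v.2.2, v.2.1, v.1) ∂mu = ∫ v, f v ∂mu := by
  rw [← mu_swap23 f, ← Dif_swap12 (fun v => f (v.1, v.2.2, v.2.1)),
    ← mu_swap23 (fun v => f (v.2.1, v.2.2, v.1))]

/-- integral of a continuous function over the cube as an iterated integral -/
theorem mu_iter {f : ℝ × ℝ × ℝ → ℂ} (hf : Continuous f) :
    ∫ v, f v ∂mu = ∫ a in (0:ℝ)..1, ∫ b in (0:ℝ)..1, ∫ c in (0:ℝ)..1, f (a, b, c) := by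
  have hint := Dif_integrable hf
  rw [Dif_mu] at hint ⊢
  rw [integral_prod _ hint, intervalIntegral.integral_of_le zero_le_one]
  refine integral_congr_ae ?_
  filter_upwards [hint.prod_right_ae] with a ha
  rw [integral_prod _ ha, intervalIntegral.integral_of_le zero_le_one]
  refine integral_congr_ae ?_
  filter_upwards with b
  rw [intervalIntegral.integral_of_le zero_le_one]
  rfl

end D8W
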