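import Mathlib
import Pool.Agent.D8W.Defs
import Pool.Agent.D8W.Lg
import Pool.Agent.D8W.Dif

/-!
# D8W/Th: the function `Th` and its derivative

`Th L = E[P(L,Z) lg(k - S)]`, `P = 2 sinh L/(k - Z)`, `k = 2 cosh L`, `Th' = (4/3) Wk(k) - 1/3`.

With `Q = 2 sin(2πc)/(k - X c)`, `f = lg(k - S)`:
`∂_L (P f) = (4 - kZ)/(k-Z)² f + (k²-4)/((k-Z)(k-S)) = (k+Z)/(k-S) - (1/2π) d/dc (Q f)`, and `∫_c d/dc (Q f) = 0`
(`Q = 0` at `c = 0, 1`); `E[Z/(k-S)] = E[S/(k-S)]/3 = (Wk k - 1)/3` by symmetry.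
-/

set_option autoImplicit false

open MeasureTheory Set

namespace D8W

open RV15W

/-- the region where `k` may lie -/
def Reg : Set ℂ := {k : ℂ | k.im < 0 ∨ 6 < k.re}

/-- `E[P lg(k-S)]` -/
noncomputable def Th (L : ℂ) : ℂ :=
  ∫ v, 2 * Complex.sinh L / (2 * Complex.cosh L - (X v.2.2 : ℂ)) * lg (2 * Complex.cosh L - (S v : ℂ)) ∂mu

private theorem Th_X_le (a : ℝ) : |X a| ≤ 2 := by
  unfold X
  rw [abs_mul, abs_two]
  have := Real.abs_cos_le_one (2 * Real.pi * a)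
  linarith

private theorem Th_S_le (v : ℝ × ℝ × ℝ) : |S v| ≤ 6 := by
  unfold S
  have h1 := Th_X_le v.1
  have h2 := Th_X_le v.2.1
  have h3 := Th_X_le v.2.2
  have h4 := abs_add_le (X v.1 + X v.2.1) (X v.2.2)
  have h5 := abs_add_le (X v.1) (X v.2.1)
  linarith

private theorem Th_X_cont : Continuous X := by
  unfold X; fun_prop

private theorem Th_S_cont : Continuous S := by
  unfold S
  have := Th_X_cont
  fun_prop

private theorem Th_slit {k : ℂ} (h : k ∈ Reg) {x : ℝ} (hx : |x| ≤ 6) :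
    (k - (x : ℂ)).im < 0 ∨ (k - (x : ℂ)).re ≠ 0 := by
  rcases h with h | h
  · left; simpa using h
  · right
    have h1 := (abs_le.mp hx).2
    simp only [Complex.sub_re, Complex.ofReal_re]
    exact ne_of_gt (by linarith)

private theorem Th_ne {k : ℂ} (h : k ∈ Reg) {x : ℝ} (hx : |x| ≤ 6) : k - (x : ℂ) ≠ 0 := by
  intro h0
  rcases Th_slit h hx with h1 | h1
  · rw [h0] at h1; simp at h1
  · rw [h0] at h1; simp at h1

private theorem Th_Reg_open : IsOpen Reg :=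
  (isOpen_lt Complex.continuous_im continuous_const).union
    (isOpen_lt continuous_const Complex.continuous_re)

private theorem Th_neX {k : ℂ} (h : k ∈ Reg) (a : ℝ) : k - (X a : ℂ) ≠ 0 :=
  Th_ne h ((Th_X_le a).trans (by norm_num))

/-- `Wk` is holomorphic off `[-6,6]` -/
theorem Wk_diff {k : ℂ} (h : k ∈ Reg) : DifferentiableAt ℂ Wk k := by
  have hS := Th_S_cont
  have key := hasDerivAt_mu (U := Reg) Th_Reg_open
    (f := fun k v => k / (k - (S v : ℂ)))
    (f' := fun k v => (1 * (k - (S v : ℂ)) - k * 1) / (k - (S v : ℂ)) ^ 2)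
    (fun z hz => by
      refine Continuous.div continuous_const (by fun_prop) ?_
      intro v; exact Th_ne hz (Th_S_le v))
    (fun z hz v => by
      exact (hasDerivAt_id z).div ((hasDerivAt_id z).sub_const _) (Th_ne hz (Th_S_le v)))
    (by
      refine ContinuousOn.div (by fun_prop) (by fun_prop) ?_
      rintro ⟨z, v⟩ ⟨hz, -⟩
      exact pow_ne_zero _ (Th_ne hz (Th_S_le v))) h
  exact key.differentiableAt

/-- the logarithm part -/
private theorem Th_lg_cont {k : ℂ} (h : k ∈ Reg) : Continuous fun v => lg (k - (S v : ℂ)) := by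
  have hS := Th_S_cont
  rw [continuous_iff_continuousAt]
  intro v
  have h1 : ContinuousAt lg (k - (S v : ℂ)) := (lg_deriv (Th_slit h (Th_S_le v))).continuousAt
  exact ContinuousAt.comp (f := fun v => k - (S v : ℂ)) h1 (by fun_prop)

private theorem Th_lg_contOn : ContinuousOn (fun p : ℂ × (ℝ × ℝ × ℝ) =>
    lg (2 * Complex.cosh p.1 - (S p.2 : ℂ))) ({L : ℂ | 2 * Complex.cosh L ∈ Reg} ×ˢ univ) := by
  have hS := Th_S_cont
  intro p hp
  have hL : 2 * Complex.cosh p.1 ∈ Reg := hp.1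
  have h1 : ContinuousAt lg (2 * Complex.cosh p.1 - (S p.2 : ℂ)) :=
    (lg_deriv (Th_slit hL (Th_S_le p.2))).continuousAt
  have hc : Continuous Complex.cosh := Complex.continuous_cosh
  have h2 : Continuous (fun p : ℂ × (ℝ × ℝ × ℝ) => 2 * Complex.cosh p.1 - (S p.2 : ℂ)) := by
    fun_prop
  have h3 := ContinuousAt.comp (f := fun p : ℂ × (ℝ × ℝ × ℝ) => 2 * Complex.cosh p.1 - (S p.2 : ℂ))
    (x := p) (g := lg) h1 h2.continuousAt
  exact h3.continuousWithinAt

/-- first form of the derivative -/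
private theorem Th_deriv1 {L : ℂ} (h : 2 * Complex.cosh L ∈ Reg) :
    HasDerivAt Th (∫ v, ((2 * Complex.cosh L * (2 * Complex.cosh L - (X v.2.2 : ℂ)) -
      2 * Complex.sinh L * (2 * Complex.sinh L)) / (2 * Complex.cosh L - (X v.2.2 : ℂ)) ^ 2 *
        lg (2 * Complex.cosh L - (S v : ℂ)) +
      2 * Complex.sinh L / (2 * Complex.cosh L - (X v.2.2 : ℂ)) *
        ((2 * Complex.cosh L - (S v : ℂ))⁻¹ * (2 * Complex.sinh L))) ∂mu) L := by
  have hS := Th_S_cont
  have hX := Th_X_cont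
  have hch : Continuous Complex.cosh := Complex.continuous_cosh
  have hsh : Continuous Complex.sinh := Complex.continuous_sinh
  have hU : IsOpen {L : ℂ | 2 * Complex.cosh L ∈ Reg} :=
    Th_Reg_open.preimage (f := fun L : ℂ => 2 * Complex.cosh L) (by fun_prop)
  refine hasDerivAt_mu (U := {L : ℂ | 2 * Complex.cosh L ∈ Reg}) hU
    (f := fun L v => 2 * Complex.sinh L / (2 * Complex.cosh L - (X v.2.2 : ℂ)) *
      lg (2 * Complex.cosh L - (S v : ℂ)))
    (f' := fun L v => ((2 * Complex.cosh L * (2 * Complex.cosh L - (X v.2.2 : ℂ)) -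
      2 * Complex.sinh L * (2 * Complex.sinh L)) / (2 * Complex.cosh L - (X v.2.2 : ℂ)) ^ 2 *
        lg (2 * Complex.cosh L - (S v : ℂ)) +
      2 * Complex.sinh L / (2 * Complex.cosh L - (X v.2.2 : ℂ)) *
        ((2 * Complex.cosh L - (S v : ℂ))⁻¹ * (2 * Complex.sinh L)))) ?_ ?_ ?_ h
  · intro z hz
    refine Continuous.mul ?_ (Th_lg_cont hz)
    refine Continuous.div continuous_const (by fun_prop) ?_
    intro v; exact Th_neX hz _
  · intro z hz v
    have d1 : HasDerivAt (fun L : ℂ => 2 * Complex.sinh L) (2 * Complex.cosh z) z :=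
      (Complex.hasDerivAt_sinh z).const_mul 2
    have d2 : HasDerivAt (fun L : ℂ => 2 * Complex.cosh L) (2 * Complex.sinh z) z :=
      (Complex.hasDerivAt_cosh z).const_mul 2
    have d3 := d1.div (d2.sub_const (X v.2.2 : ℂ)) (Th_neX hz _)
    have d4 : HasDerivAt (fun L : ℂ => lg (2 * Complex.cosh L - (S v : ℂ)))
        ((2 * Complex.cosh z - (S v : ℂ))⁻¹ * (2 * Complex.sinh z)) z :=
      HasDerivAt.comp z (lg_deriv (Th_slit hz (Th_S_le v))) (d2.sub_const (S v : ℂ))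
    exact d3.mul d4
  · refine ContinuousOn.add (ContinuousOn.mul ?_ Th_lg_contOn) (ContinuousOn.mul ?_ (ContinuousOn.mul ?_ ?_))
    · refine ContinuousOn.div (by fun_prop) (by fun_prop) ?_
      rintro ⟨z, v⟩ ⟨hz, -⟩
      exact pow_ne_zero _ (Th_neX hz _)
    · refine ContinuousOn.div (by fun_prop) (by fun_prop) ?_
      rintro ⟨z, v⟩ ⟨hz, -⟩
      exact Th_neX hz _
    · refine ContinuousOn.inv₀ (by fun_prop) ?_
      rintro ⟨z, v⟩ ⟨hz, -⟩
      exact Th_ne hz (Th_S_le v)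
    · fun_prop

/-- the boundary term -/
private theorem Th_bdry {k : ℂ} (h : k ∈ Reg) :
    ∫ v, ((k * (X v.2.2 : ℂ) - 4) / (k - (X v.2.2 : ℂ)) ^ 2 * lg (k - (S v : ℂ)) +
      (4 - (X v.2.2 : ℂ) ^ 2) / ((k - (X v.2.2 : ℂ)) * (k - (S v : ℂ)))) ∂mu = 0 := by
  have hS := Th_S_cont
  have hX := Th_X_cont
  have hcont : Continuous fun v : ℝ × ℝ × ℝ =>
      ((k * (X v.2.2 : ℂ) - 4) / (k - (X v.2.2 : ℂ)) ^ 2 * lg (k - (S v : ℂ)) +
      (4 - (X v.2.2 : ℂ) ^ 2) / ((k - (X v.2.2 : ℂ)) * (k - (S v : ℂ)))) := by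
    refine Continuous.add (Continuous.mul ?_ (Th_lg_cont h)) ?_
    · refine Continuous.div (by fun_prop) (by fun_prop) ?_
      intro v; exact pow_ne_zero _ (Th_neX h _)
    · refine Continuous.div (by fun_prop) (by fun_prop) ?_
      intro v; exact mul_ne_zero (Th_neX h _) (Th_ne h (Th_S_le v))
  rw [mu_iter hcont]
  have hin : ∀ a b : ℝ, ∫ c in (0:ℝ)..1,
      ((k * (X c : ℂ) - 4) / (k - (X c : ℂ)) ^ 2 * lg (k - (S (a, b, c) : ℂ)) +
      (4 - (X c : ℂ) ^ 2) / ((k - (X c : ℂ)) * (k - (S (a, b, c) : ℂ)))) = 0 := by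
    intro a b
    have hpi : (Real.pi : ℂ) ≠ 0 := by exact_mod_cast Real.pi_ne_zero
    have hd : ∀ c ∈ uIcc (0:ℝ) 1, HasDerivAt (fun c : ℝ =>
        1 / Real.pi * (Real.sin (2 * Real.pi * c) : ℂ) / (k - (X c : ℂ)) * lg (k - (S (a, b, c) : ℂ)))
        ((k * (X c : ℂ) - 4) / (k - (X c : ℂ)) ^ 2 * lg (k - (S (a, b, c) : ℂ)) +
      (4 - (X c : ℂ) ^ 2) / ((k - (X c : ℂ)) * (k - (S (a, b, c) : ℂ)))) c := by
      intro c _
      have e1 : HasDerivAt (fun c : ℝ => 2 * Real.pi * c) (2 * Real.pi) c := by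
        simpa using (hasDerivAt_id c).const_mul (2 * Real.pi)
      have e2 : HasDerivAt (fun c : ℝ => Real.sin (2 * Real.pi * c))
          (Real.cos (2 * Real.pi * c) * (2 * Real.pi)) c :=
        (Real.hasDerivAt_sin _).comp c e1
      have e3 : HasDerivAt X (2 * (-Real.sin (2 * Real.pi * c) * (2 * Real.pi))) c :=
        ((Real.hasDerivAt_cos _).comp c e1).const_mul 2
      have e4 : HasDerivAt (fun c : ℝ => S (a, b, c)) (2 * (-Real.sin (2 * Real.pi * c) * (2 * Real.pi))) c := by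
        exact e3.const_add (X a + X b)
      have c2 : HasDerivAt (fun c : ℝ => 1 / (Real.pi : ℂ) * (Real.sin (2 * Real.pi * c) : ℂ))
          (1 / (Real.pi : ℂ) * ((Real.cos (2 * Real.pi * c) : ℂ) * (2 * (Real.pi : ℂ)))) c := by
        refine ((e2.ofReal_comp).const_mul (1 / (Real.pi : ℂ))).congr_deriv ?_
        simp only [Complex.ofReal_mul, Complex.ofReal_ofNat]
      have c3 : HasDerivAt (fun c : ℝ => k - (X c : ℂ))
          (4 * (Real.sin (2 * Real.pi * c) : ℂ) * (Real.pi : ℂ)) c := by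
        refine ((e3.ofReal_comp).const_sub k).congr_deriv ?_
        simp only [Complex.ofReal_mul, Complex.ofReal_ofNat, Complex.ofReal_neg]
        ring
      have c4 : HasDerivAt (fun c : ℝ => k - (S (a, b, c) : ℂ))
          (4 * (Real.sin (2 * Real.pi * c) : ℂ) * (Real.pi : ℂ)) c := by
        refine ((e4.ofReal_comp).const_sub k).congr_deriv ?_
        simp only [Complex.ofReal_mul, Complex.ofReal_ofNat, Complex.ofReal_neg]
        ring
      have c5 : HasDerivAt (fun c : ℝ => lg (k - (S (a, b, c) : ℂ)))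
          ((k - (S (a, b, c) : ℂ))⁻¹ * (4 * (Real.sin (2 * Real.pi * c) : ℂ) * (Real.pi : ℂ))) c :=
        HasDerivAt.comp c (lg_deriv (Th_slit h (Th_S_le (a, b, c)))) c4
      have c6 : HasDerivAt (fun c : ℝ =>
          1 / Real.pi * (Real.sin (2 * Real.pi * c) : ℂ) / (k - (X c : ℂ)) * lg (k - (S (a, b, c) : ℂ)))
          ((1 / (Real.pi : ℂ) * ((Real.cos (2 * Real.pi * c) : ℂ) * (2 * (Real.pi : ℂ))) * (k - (X c : ℂ)) -
            1 / (Real.pi : ℂ) * (Real.sin (2 * Real.pi * c) : ℂ) *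
              (4 * (Real.sin (2 * Real.pi * c) : ℂ) * (Real.pi : ℂ))) / (k - (X c : ℂ)) ^ 2 *
                lg (k - (S (a, b, c) : ℂ)) +
            1 / (Real.pi : ℂ) * (Real.sin (2 * Real.pi * c) : ℂ) / (k - (X c : ℂ)) *
              ((k - (S (a, b, c) : ℂ))⁻¹ * (4 * (Real.sin (2 * Real.pi * c) : ℂ) * (Real.pi : ℂ)))) c :=
        (c2.div c3 (Th_neX h c)).mul c5
      refine c6.congr_deriv ?_
      have n1 := Th_neX h c
      have n2 := Th_ne h (Th_S_le (a, b, c))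
      have hXc : (X c : ℂ) = 2 * (Real.cos (2 * Real.pi * c) : ℂ) := by
        unfold X
        rw [Complex.ofReal_mul, Complex.ofReal_ofNat]
      have hsc : (Real.sin (2 * Real.pi * c) : ℂ) ^ 2 = 1 - (Real.cos (2 * Real.pi * c) : ℂ) ^ 2 := by
        have h1 := Real.sin_sq_add_cos_sq (2 * Real.pi * c)
        have h' : ((Real.sin (2 * Real.pi * c) ^ 2 + Real.cos (2 * Real.pi * c) ^ 2 : ℝ) : ℂ) = 1 := by
          rw [h1]; simp
        rw [Complex.ofReal_add, Complex.ofReal_pow, Complex.ofReal_pow] at h'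
        linear_combination h'
      rw [hXc] at n1 ⊢
      generalize lg (k - (S (a, b, c) : ℂ)) = l0
      generalize (S (a, b, c) : ℂ) = s0 at n2 ⊢
      generalize (Real.cos (2 * Real.pi * c) : ℂ) = C at n1 hsc ⊢
      generalize (Real.sin (2 * Real.pi * c) : ℂ) = Sn at hsc ⊢
      clear c6 c5 c4 c3 c2 e4 e3 e2 e1 hXc
      generalize (Real.pi : ℂ) = p at hpi ⊢
      have hA : 1 / p * (C * (2 * p)) * (k - 2 * C) - 1 / p * Sn * (4 * Sn * p) = k * (2 * C) - 4 := by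
        field_simp
        linear_combination (-4 : ℂ) * hsc
      have hB : 1 / p * Sn / (k - 2 * C) * ((k - s0)⁻¹ * (4 * Sn * p)) =
          (4 - (2 * C) ^ 2) / ((k - 2 * C) * (k - s0)) := by
        rw [eq_div_iff (mul_ne_zero n1 n2)]
        have : 1 / p * Sn / (k - 2 * C) * ((k - s0)⁻¹ * (4 * Sn * p)) * ((k - 2 * C) * (k - s0)) =
            4 * Sn ^ 2 := by
          field_simp
        rw [this]
        linear_combination (4 : ℂ) * hsc
      rw [hA, hB]
    have hint : IntervalIntegrable (fun c : ℝ =>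
        (k * (X c : ℂ) - 4) / (k - (X c : ℂ)) ^ 2 * lg (k - (S (a, b, c) : ℂ)) +
      (4 - (X c : ℂ) ^ 2) / ((k - (X c : ℂ)) * (k - (S (a, b, c) : ℂ)))) volume 0 1 := by
      refine Continuous.intervalIntegrable ?_ _ _
      exact hcont.comp (g := fun v : ℝ × ℝ × ℝ =>
      ((k * (X v.2.2 : ℂ) - 4) / (k - (X v.2.2 : ℂ)) ^ 2 * lg (k - (S v : ℂ)) +
      (4 - (X v.2.2 : ℂ) ^ 2) / ((k - (X v.2.2 : ℂ)) * (k - (S v : ℂ))))) (f := fun c : ℝ => (a, b, c)) (by fun_prop)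
    rw [intervalIntegral.integral_eq_sub_of_hasDerivAt hd hint]
    simp [Real.sin_two_pi]
  simp only [hin]
  simp


private theorem Th_int {f : ℝ × ℝ × ℝ → ℂ} (hf : Continuous f) : Integrable f mu := by
  have hK : IsCompact (Icc (0:ℝ) 1 ×ˢ (Icc (0:ℝ) 1 ×ˢ Icc (0:ℝ) 1)) :=
    isCompact_Icc.prod (isCompact_Icc.prod isCompact_Icc)
  have h1 : IntegrableOn f (Icc (0:ℝ) 1 ×ˢ (Icc (0:ℝ) 1 ×ˢ Icc (0:ℝ) 1)) volume :=
    hf.continuousOn.integrableOn_compact hK
  exact h1.mono_set (prod_mono Ioc_subset_Icc_self (prod_mono Ioc_subset_Icc_self Ioc_subset_Icc_self))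

/-- the symmetry -/
private theorem Th_sym {k : ℂ} (h : k ∈ Reg) :
    ∫ v, (k + (X v.2.2 : ℂ)) / (k - (S v : ℂ)) ∂mu = 4 / 3 * Wk k - 1 / 3 := by
  have hS := Th_S_cont
  have hX := Th_X_cont
  have : IsProbabilityMeasure mu := mu_prob
  have hne : ∀ v : ℝ × ℝ × ℝ, k - (S v : ℂ) ≠ 0 := fun v => Th_ne h (Th_S_le v)
  have iZ : Integrable (fun v : ℝ × ℝ × ℝ => (X v.2.2 : ℂ) / (k - (S v : ℂ))) mu :=
    Th_int (Continuous.div (by fun_prop) (by fun_prop) hne)
  have iX : Integrable (fun v : ℝ × ℝ × ℝ => (X v.1 : ℂ) / (k - (S v : ℂ))) mu :=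
    Th_int (Continuous.div (by fun_prop) (by fun_prop) hne)
  have iY : Integrable (fun v : ℝ × ℝ × ℝ => (X v.2.1 : ℂ) / (k - (S v : ℂ))) mu :=
    Th_int (Continuous.div (by fun_prop) (by fun_prop) hne)
  have ik : Integrable (fun v : ℝ × ℝ × ℝ => k / (k - (S v : ℂ))) mu :=
    Th_int (Continuous.div (by fun_prop) (by fun_prop) hne)
  have s1 : ∫ v, (X v.1 : ℂ) / (k - (S v : ℂ)) ∂mu = ∫ v, (X v.2.2 : ℂ) / (k - (S v : ℂ)) ∂mu := by
    rw [← mu_swap13 (fun v => (X v.2.2 : ℂ) / (k - (S v : ℂ)))]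
    refine integral_congr_ae (Filter.Eventually.of_forall fun v => ?_)
    have : S (v.2.2, v.2.1, v.1) = S v := by unfold S; ring
    simp only [this]
  have s2 : ∫ v, (X v.2.1 : ℂ) / (k - (S v : ℂ)) ∂mu = ∫ v, (X v.2.2 : ℂ) / (k - (S v : ℂ)) ∂mu := by
    rw [← mu_swap23 (fun v => (X v.2.2 : ℂ) / (k - (S v : ℂ)))]
    refine integral_congr_ae (Filter.Eventually.of_forall fun v => ?_)
    have : S (v.1, v.2.2, v.2.1) = S v := by unfold S; ring
    simp only [this]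
  have s3 : ∫ v, ((X v.1 : ℂ) / (k - (S v : ℂ)) + (X v.2.1 : ℂ) / (k - (S v : ℂ)) +
      (X v.2.2 : ℂ) / (k - (S v : ℂ))) ∂mu = Wk k - 1 := by
    have : ∀ v : ℝ × ℝ × ℝ, ((X v.1 : ℂ) / (k - (S v : ℂ)) + (X v.2.1 : ℂ) / (k - (S v : ℂ)) +
      (X v.2.2 : ℂ) / (k - (S v : ℂ))) = k / (k - (S v : ℂ)) - 1 := by
      intro v
      have hv := hne v
      rw [← add_div, ← add_div, eq_sub_iff_add_eq, div_add_one hv]
      congr 1
      unfold S
      rw [Complex.ofReal_add, Complex.ofReal_add]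
      ring
    simp only [this]
    rw [integral_sub ik (integrable_const _)]
    simp [Wk]
  have iXY : Integrable (fun v : ℝ × ℝ × ℝ => (X v.1 : ℂ) / (k - (S v : ℂ)) +
      (X v.2.1 : ℂ) / (k - (S v : ℂ))) mu := iX.add iY
  rw [integral_add iXY iZ, integral_add iX iY, s1, s2] at s3
  have s4 : ∫ v, (k + (X v.2.2 : ℂ)) / (k - (S v : ℂ)) ∂mu =
      Wk k + ∫ v, (X v.2.2 : ℂ) / (k - (S v : ℂ)) ∂mu := by
    unfold Wk
    rw [← integral_add ik iZ]
    refine integral_congr_ae (Filter.Eventually.of_forall fun v => ?_)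
    simp only [add_div]
  rw [s4]
  linear_combination (1 / 3 : ℂ) * s3

theorem Th_deriv {L : ℂ} (h : 2 * Complex.cosh L ∈ Reg) :
    HasDerivAt Th (4 / 3 * Wk (2 * Complex.cosh L) - 1 / 3) L := by
  refine (Th_deriv1 h).congr_deriv ?_
  have hS := Th_S_cont
  have hX := Th_X_cont
  have hsq : (2 * Complex.sinh L) * (2 * Complex.sinh L) = (2 * Complex.cosh L) ^ 2 - 4 := by
    have := Complex.cosh_sq_sub_sinh_sq L
    linear_combination -4 * this
  have hb := Th_bdry h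
  have hs := Th_sym h
  generalize hk : 2 * Complex.cosh L = k at h hsq hb hs ⊢
  have hne : ∀ v : ℝ × ℝ × ℝ, k - (S v : ℂ) ≠ 0 := fun v => Th_ne h (Th_S_le v)
  have hcont1 : Continuous fun v : ℝ × ℝ × ℝ =>
      ((k * (X v.2.2 : ℂ) - 4) / (k - (X v.2.2 : ℂ)) ^ 2 * lg (k - (S v : ℂ)) +
      (4 - (X v.2.2 : ℂ) ^ 2) / ((k - (X v.2.2 : ℂ)) * (k - (S v : ℂ)))) := by
    refine Continuous.add (Continuous.mul ?_ (Th_lg_cont h)) ?_
    · refine Continuous.div (by fun_prop) (by fun_prop) ?_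
      intro v; exact pow_ne_zero _ (Th_neX h _)
    · refine Continuous.div (by fun_prop) (by fun_prop) ?_
      intro v; exact mul_ne_zero (Th_neX h _) (Th_ne h (Th_S_le v))
  have hcont2 : Continuous fun v : ℝ × ℝ × ℝ => (k + (X v.2.2 : ℂ)) / (k - (S v : ℂ)) :=
    Continuous.div (by fun_prop) (by fun_prop) hne
  rw [← hs, ← sub_zero (∫ v, (k + (X v.2.2 : ℂ)) / (k - (S v : ℂ)) ∂mu), ← hb,
    ← integral_sub (Th_int hcont2) (Th_int hcont1)]
  refine integral_congr_ae (Filter.Eventually.of_forall fun v => ?_)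
  have n1 := Th_neX h v.2.2
  have n2 := hne v
  simp only
  rw [hsq]
  generalize lg (k - (S v : ℂ)) = l0
  have hm : 2 * Complex.sinh L / (k - (X v.2.2 : ℂ)) * ((k - (S v : ℂ))⁻¹ * (2 * Complex.sinh L)) =
      (k ^ 2 - 4) / ((k - (X v.2.2 : ℂ)) * (k - (S v : ℂ))) := by
    rw [← hsq]; field_simp
  rw [hm]
  field_simp
  ring

/-- `Th` is real for real `L` with `2 cosh L > 6` -/
theorem Th_real {x : ℝ} (h : 6 < 2 * Real.cosh x) : (Th (x : ℂ)).im = 0 := by
  have h1 : Th (x : ℂ) = ((∫ v, 2 * Real.sinh x / (2 * Real.cosh x - X v.2.2) *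
      Real.log (2 * Real.cosh x - S v) ∂mu : ℝ) : ℂ) := by
    unfold Th
    refine Eq.trans ?_ (integral_ofReal (𝕜 := ℂ))
    refine integral_congr_ae (Filter.Eventually.of_forall fun v => ?_)
    have hv : 0 < 2 * Real.cosh x - S v := by
      have := (abs_le.mp (Th_S_le v)).2
      linarith
    have h2 := lg_pos hv
    have h3 : (2 * Complex.cosh (x : ℂ) - (S v : ℂ)) = ((2 * Real.cosh x - S v : ℝ) : ℂ) := by
      rw [Complex.ofReal_sub, Complex.ofReal_mul, Complex.ofReal_cosh, Complex.ofReal_ofNat]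
    simp only [h3, h2]
    generalize Real.log (2 * Real.cosh x - S v) = l0
    simp only [Complex.coe_algebraMap, RCLike.ofReal_mul, RCLike.ofReal_div, RCLike.ofReal_sub, RCLike.ofReal_ofNat,
      ← Complex.ofReal_sinh, ← Complex.ofReal_cosh]
  rw [h1]
  exact Complex.ofReal_im _

end D8W
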