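import Mathlib
import Pool.Agent.D8W.Defs
import Pool.Agent.D8W.Pth
import Pool.Agent.D8W.Pw
import Pool.Agent.D8W.Th
import Pool.Agent.D8W.Lam

/-!
# D8W/AnA: Fubini along the path

`‖2 sinh L/(k - X c) · lg(k - S)‖ ≤ M² (1-t)^(-1/2) (2 - X c)^(-3/8)` for `c` not an integer (`IsPath.bounds`), and
`2 - X c = 4 sin² πc`, so `(2 - X c)^(-3/8)` is integrable on the cube (`|sin πc|^(-3/4)`, `sin πc ≥ 2 min(c,1-c)`).
`Th_bound` follows at once.
`fub`: by `pointwise` with `Z = X c < 2` (`c ∉ ℤ`, almost every `c`), `R = X a + X b`, for almost every `v`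
`π lam v = Im ∫_0^1 lg(k(t) - S v) · dk(t)/(k(t) - X c) dt`; exchange `∫_v` and `∫_t` (`integral_integral_swap`, joint
measurability: `lg_meas`, `L` continuous on `[0,1]`, `dL` measurable), and
`∫_v lg(k - S) dk/(k - Z) = Th(L t) · dL t`.
-/

set_option autoImplicit false

open MeasureTheory Set

namespace D8W

open RV15W

variable {L dL : ℝ → ℂ} {c C : ℝ}

theorem AnA_mu : mu = (volume.restrict (Ioc (0:ℝ) 1)).prod
    ((volume.restrict (Ioc (0:ℝ) 1)).prod (volume.restrict (Ioc (0:ℝ) 1))) := by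
  rw [Measure.prod_restrict, Measure.prod_restrict]
  rfl

theorem AnA_X (c : ℝ) : 2 - X c = 4 * Real.sin (Real.pi * c) ^ 2 := by
  unfold X
  have h := Real.cos_two_mul (Real.pi * c)
  have h2 := Real.sin_sq_add_cos_sq (Real.pi * c)
  rw [show 2 * Real.pi * c = 2 * (Real.pi * c) by ring, h]
  linarith

theorem AnA_sin {c : ℝ} (h0 : 0 < c) (h1 : c ≤ 1 / 2) : c ^ 2 ≤ 2 - X c := by
  rw [AnA_X]
  have h := Real.mul_le_sin (x := Real.pi * c) (by positivity)
    (by have := Real.pi_pos; nlinarith)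
  have h2 : 2 / Real.pi * (Real.pi * c) = 2 * c := by
    have := Real.pi_pos.ne'
    field_simp
  rw [h2] at h
  nlinarith

theorem AnA_X_symm (c : ℝ) : X (1 - c) = X c := by
  unfold X
  rw [show 2 * Real.pi * (1 - c) = 2 * Real.pi - 2 * Real.pi * c by ring, Real.cos_two_pi_sub]

theorem AnA_X_lt {c : ℝ} (h0 : 0 < c) (h1 : c < 1) : X c < 2 := by
  rcases le_or_gt c (1 / 2) with h | h
  · have := AnA_sin h0 h
    nlinarith
  · have := AnA_sin (c := 1 - c) (by linarith) (by linarith)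
    rw [AnA_X_symm] at this
    have h2 : 0 < 1 - c := by linarith
    nlinarith

theorem AnA_X_nonneg (c : ℝ) : 0 ≤ 2 - X c := by
  rw [AnA_X]
  positivity

theorem AnA_X_ge (c : ℝ) : -2 ≤ X c := by
  unfold X
  have := Real.neg_one_le_cos (2 * Real.pi * c)
  linarith

theorem AnA_X_le (c : ℝ) : X c ≤ 2 := by
  have := AnA_X_nonneg c
  linarith

theorem AnA_X_cont : Continuous X := by
  unfold X
  fun_prop

theorem AnA_S_cont : Continuous S := by
  unfold S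
  have := AnA_X_cont
  fun_prop

theorem AnA_bound1 {c : ℝ} (h0 : 0 < c) (h1 : c ≤ 1 / 2) :
    (2 - X c) ^ (-(3/8) : ℝ) ≤ c ^ (-(3/4) : ℝ) := by
  have h := Real.rpow_le_rpow_of_nonpos (by positivity : 0 < c ^ 2) (AnA_sin h0 h1)
    (by norm_num : (-(3/8) : ℝ) ≤ 0)
  refine h.trans (le_of_eq ?_)
  rw [← Real.rpow_natCast, ← Real.rpow_mul h0.le]
  norm_num

theorem AnA_bound {c : ℝ} (h0 : 0 < c) (h1 : c ≤ 1) :
    (2 - X c) ^ (-(3/8) : ℝ) ≤ c ^ (-(3/4) : ℝ) + (1 - c) ^ (-(3/4) : ℝ) := by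
  have ha : 0 ≤ c ^ (-(3/4) : ℝ) := Real.rpow_nonneg h0.le _
  have hb : 0 ≤ (1 - c) ^ (-(3/4) : ℝ) := Real.rpow_nonneg (by linarith) _
  rcases le_or_gt c (1 / 2) with h | h
  · have := AnA_bound1 h0 h
    linarith
  · rcases eq_or_lt_of_le h1 with h2 | h2
    · have hX : 2 - X c = 0 := by
        rw [h2]
        unfold X
        simp
      rw [hX, Real.zero_rpow (by norm_num)]
      positivity
    · have := AnA_bound1 (c := 1 - c) (by linarith) (by linarith)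
      rw [AnA_X_symm] at this
      linarith

theorem AnA_int1 : IntegrableOn (fun c : ℝ => (2 - X c) ^ (-(3/8) : ℝ)) (Ioc 0 1) := by
  have h1 : IntervalIntegrable (fun x : ℝ => x ^ (-(3/4) : ℝ)) volume 0 1 :=
    intervalIntegral.intervalIntegrable_rpow' (by norm_num)
  have h2 : IntervalIntegrable (fun x : ℝ => (1 - x) ^ (-(3/4) : ℝ)) volume 0 1 := by
    have := h1.comp_sub_left 1
    simp only [sub_zero, sub_self] at this
    exact this.symm
  have h3 := (h1.add h2)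
  rw [intervalIntegrable_iff_integrableOn_Ioc_of_le zero_le_one] at h3
  refine Integrable.mono' h3 ?_ ?_
  · have hm : Measurable (fun c : ℝ => (2 - X c) ^ (-(3/8) : ℝ)) :=
      (measurable_const.sub AnA_X_cont.measurable).pow_const _
    exact hm.aestronglyMeasurable
  · rw [ae_restrict_iff' measurableSet_Ioc]
    refine Filter.Eventually.of_forall fun x hx => ?_
    rw [Real.norm_of_nonneg (Real.rpow_nonneg (AnA_X_nonneg x) _)]
    exact AnA_bound hx.1 hx.2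

/-- `(2 - X c)^(-3/8)` is integrable over the cube -/
theorem sing_integrable :
    Integrable (fun v : ℝ × ℝ × ℝ => (2 - X v.2.2) ^ (-(3/8) : ℝ)) mu := by
  rw [AnA_mu]
  have h1 : Integrable (fun p : ℝ × ℝ => (2 - X p.2) ^ (-(3/8) : ℝ))
      ((volume.restrict (Ioc (0:ℝ) 1)).prod (volume.restrict (Ioc (0:ℝ) 1))) :=
    Integrable.comp_snd AnA_int1 _
  exact Integrable.comp_snd h1 _

/-- almost every point of the cube has its last coordinate in `(0,1)` -/
theorem AnA_ae : ∀ᵐ v ∂mu, 0 < v.2.2 ∧ v.2.2 < 1 := by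
  have h1 : ∀ᵐ v ∂mu, v ∈ (Ioc (0:ℝ) 1 ×ˢ (Ioc (0:ℝ) 1 ×ˢ Ioc (0:ℝ) 1)) := by
    unfold mu
    exact ae_restrict_mem (measurableSet_Ioc.prod (measurableSet_Ioc.prod measurableSet_Ioc))
  have h2 : ∀ᵐ v ∂mu, v.2.2 ≠ 1 := by
    have h3 : ∀ᵐ c ∂(volume.restrict (Ioc (0:ℝ) 1)), c ≠ 1 := by
      apply ae_restrict_of_ae
      exact Measure.ae_ne volume 1
    rw [AnA_mu]
    have h4 : ∀ᵐ p ∂((volume.restrict (Ioc (0:ℝ) 1)).prod (volume.restrict (Ioc (0:ℝ) 1))),
        p.2 ≠ 1 := Measure.quasiMeasurePreserving_snd.ae h3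
    exact Measure.quasiMeasurePreserving_snd.ae h4
  filter_upwards [h1, h2] with v hv hv2
  exact ⟨hv.2.2.1, lt_of_le_of_ne hv.2.2.2 hv2⟩

theorem AnA_S_abs (v : ℝ × ℝ × ℝ) : |S v| ≤ 6 := by
  have a1 := AnA_X_ge v.1
  have a2 := AnA_X_le v.1
  have b1 := AnA_X_ge v.2.1
  have b2 := AnA_X_le v.2.1
  have c1 := AnA_X_ge v.2.2
  have c2 := AnA_X_le v.2.2
  unfold S
  rw [abs_le]
  constructor <;> linarith

instance AnA_fin : IsFiniteMeasure mu := by
  rw [AnA_mu]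
  infer_instance

theorem AnA_rp {t : ℝ} (ht : t ∈ Ico (0:ℝ) 1) :
    (1 - t) ^ (-(1/4) : ℝ) * (1 - t) ^ (-(1/4) : ℝ) = (1 - t) ^ (-(1/2) : ℝ) := by
  rw [← Real.rpow_add (by linarith [ht.2])]
  norm_num

/-- bound for `Th` along the path -/
theorem Th_bound (h : IsPath L dL c C) : ∃ M : ℝ, ∀ t ∈ Ico (0:ℝ) 1,
    ‖Th (L t)‖ ≤ M * (1 - t) ^ (-(1/2) : ℝ) := by
  obtain ⟨M, hM, hb⟩ := h.bounds
  refine ⟨M ^ 2 * ∫ v, (2 - X v.2.2) ^ (-(3/8) : ℝ) ∂mu, fun t ht => ?_⟩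
  obtain ⟨b1, _, b3⟩ := hb t ht
  have hi : Integrable (fun v : ℝ × ℝ × ℝ =>
      (M ^ 2 * (1 - t) ^ (-(1/2) : ℝ)) * (2 - X v.2.2) ^ (-(3/8) : ℝ)) mu :=
    sing_integrable.const_mul _
  have hn := norm_integral_le_of_norm_le (μ := mu)
    (f := fun v : ℝ × ℝ × ℝ => 2 * Complex.sinh (L t) / (2 * Complex.cosh (L t) - (X v.2.2 : ℂ)) *
      lg (2 * Complex.cosh (L t) - (S v : ℂ))) hi ?_
  · rw [integral_const_mul] at hn
    unfold Th
    refine hn.trans (le_of_eq ?_)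
    ring
  · filter_upwards [AnA_ae] with v hv
    have c1 := b1 (S v) (AnA_S_abs v)
    have c3 := b3 (X v.2.2) (AnA_X_ge _) (AnA_X_lt hv.1 hv.2)
    unfold ka at c1 c3
    rw [norm_mul]
    have hn1 : 0 ≤ (1 - t) ^ (-(1/4) : ℝ) := Real.rpow_nonneg (by linarith [ht.2]) _
    have hn2 : 0 ≤ (2 - X v.2.2) ^ (-(3/8) : ℝ) := Real.rpow_nonneg (AnA_X_nonneg _) _
    refine (mul_le_mul c3 c1 (norm_nonneg _) (by positivity)).trans (le_of_eq ?_)
    rw [← AnA_rp ht]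
    ring

/-- Fubini -/
theorem fub (h : IsPath L dL c C) :
    Real.pi * ∫ v, lam v ∂mu = (∫ t in (0:ℝ)..1, Th (L t) * dL t).im ∧
      IntervalIntegrable (fun t => Th (L t) * dL t) volume 0 1 := by
  obtain ⟨M, hM, hb⟩ := h.bounds
  -- the continuous extension of `L`
  let L' : ℝ → ℂ := IccExtend zero_le_one ((Icc (0:ℝ) 1).domRestrict L)
  have hL'c : Continuous L' := (continuousOn_iff_continuous_domRestrict.1 h.cont).Icc_extend'
  have hL' : ∀ t ∈ Icc (0:ℝ) 1, L' t = L t := fun t ht => IccExtend_of_mem zero_le_one _ ht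
  let F : ℝ → ℝ × ℝ × ℝ → ℂ := fun t v =>
    lg (ka L' t - (S v : ℂ)) * (dk L' dL t / (ka L' t - (X v.2.2 : ℂ)))
  have hka : Measurable (ka L') := by
    unfold ka
    exact (measurable_const.mul (Complex.continuous_cosh.comp hL'c).measurable)
  have hdk : Measurable (dk L' dL) := by
    unfold dk
    exact (measurable_const.mul (Complex.continuous_sinh.comp hL'c).measurable).mul h.meas
  have hSm : Measurable (fun v : ℝ × ℝ × ℝ => (S v : ℂ)) :=
    Complex.measurable_ofReal.comp AnA_S_cont.measurable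
  have hXm : Measurable (fun v : ℝ × ℝ × ℝ => (X v.2.2 : ℂ)) :=
    Complex.measurable_ofReal.comp (AnA_X_cont.measurable.comp measurable_snd.snd)
  have hFm : Measurable (Function.uncurry F) := by
    have h1 : Measurable (fun p : ℝ × ℝ × ℝ × ℝ => ka L' p.1 - (S p.2 : ℂ)) :=
      (hka.comp measurable_fst).sub (hSm.comp measurable_snd)
    have h2 : Measurable (fun p : ℝ × ℝ × ℝ × ℝ => ka L' p.1 - (X p.2.2.2 : ℂ)) :=
      (hka.comp measurable_fst).sub (hXm.comp measurable_snd)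
    exact (lg_meas.comp h1).mul ((hdk.comp measurable_fst).div h2)
  have hFb : ∀ t ∈ Ioo (0:ℝ) 1, ∀ v : ℝ × ℝ × ℝ, 0 < v.2.2 → v.2.2 < 1 →
      ‖F t v‖ ≤ (M ^ 2 * (1 - t) ^ (-(1/2) : ℝ)) * (2 - X v.2.2) ^ (-(3/8) : ℝ) := by
    intro t ht v hv1 hv2
    have ht' : t ∈ Ico (0:ℝ) 1 := ⟨ht.1.le, ht.2⟩
    obtain ⟨b1, b2, _⟩ := hb t ht'
    have c1 := b1 (S v) (AnA_S_abs v)
    have c2 := b2 (X v.2.2) (AnA_X_ge _) (AnA_X_lt hv1 hv2)
    have e1 : ka L' t = ka L t := by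
      unfold ka
      rw [hL' t ⟨ht.1.le, ht.2.le⟩]
    have e2 : dk L' dL t = dk L dL t := by
      unfold dk
      rw [hL' t ⟨ht.1.le, ht.2.le⟩]
    show ‖lg (ka L' t - (S v : ℂ)) * (dk L' dL t / (ka L' t - (X v.2.2 : ℂ)))‖ ≤ _
    rw [norm_mul, e1, e2]
    have hn1 : 0 ≤ (1 - t) ^ (-(1/4) : ℝ) := Real.rpow_nonneg (by linarith [ht.2]) _
    have hn2 : 0 ≤ (2 - X v.2.2) ^ (-(3/8) : ℝ) := Real.rpow_nonneg (AnA_X_nonneg _) _
    refine (mul_le_mul c1 c2 (norm_nonneg _) (by positivity)).trans (le_of_eq ?_)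
    rw [← AnA_rp ht']
    ring
  have hrI : Integrable (fun t : ℝ => (1 - t) ^ (-(1/2) : ℝ)) (volume.restrict (Ioc (0:ℝ) 1)) := by
    have h1 : IntervalIntegrable (fun x : ℝ => x ^ (-(1/2) : ℝ)) volume 0 1 :=
      intervalIntegral.intervalIntegrable_rpow' (by norm_num)
    have h2 := h1.comp_sub_left 1
    simp only [sub_zero, sub_self] at h2
    have h3 := h2.symm
    rw [intervalIntegrable_iff_integrableOn_Ioc_of_le zero_le_one] at h3
    exact h3
  have haet : ∀ᵐ t ∂(volume.restrict (Ioc (0:ℝ) 1)), t ∈ Ioo (0:ℝ) 1 := by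
    have h1 : ∀ᵐ t ∂(volume.restrict (Ioc (0:ℝ) 1)), t ∈ Ioc (0:ℝ) 1 :=
      ae_restrict_mem measurableSet_Ioc
    have h2 : ∀ᵐ t ∂(volume.restrict (Ioc (0:ℝ) 1)), t ≠ 1 :=
      ae_restrict_of_ae (Measure.ae_ne volume 1)
    filter_upwards [h1, h2] with t h3 h4
    exact ⟨h3.1, lt_of_le_of_ne h3.2 h4⟩
  have hFi : Integrable (Function.uncurry F) ((volume.restrict (Ioc (0:ℝ) 1)).prod mu) := by
    have hg : Integrable (fun p : ℝ × ℝ × ℝ × ℝ =>
        (M ^ 2 * (1 - p.1) ^ (-(1/2) : ℝ)) * (2 - X p.2.2.2) ^ (-(3/8) : ℝ))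
        ((volume.restrict (Ioc (0:ℝ) 1)).prod mu) :=
      (hrI.const_mul (M ^ 2)).mul_prod sing_integrable
    refine Integrable.mono' hg hFm.aestronglyMeasurable ?_
    have h1 : ∀ᵐ p ∂((volume.restrict (Ioc (0:ℝ) 1)).prod mu), p.1 ∈ Ioo (0:ℝ) 1 :=
      Measure.quasiMeasurePreserving_fst.ae haet
    have h2 : ∀ᵐ p ∂((volume.restrict (Ioc (0:ℝ) 1)).prod mu), 0 < p.2.2.2 ∧ p.2.2.2 < 1 :=
      Measure.quasiMeasurePreserving_snd.ae AnA_ae
    filter_upwards [h1, h2] with p h3 h4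
    exact hFb p.1 h3 p.2 h4.1 h4.2
  -- inner integral over the cube
  have hin : ∀ t ∈ Ioo (0:ℝ) 1, ∫ v, F t v ∂mu = Th (L t) * dL t := by
    intro t ht
    unfold Th
    rw [← integral_mul_const]
    refine integral_congr_ae (Filter.Eventually.of_forall fun v => ?_)
    show lg (ka L' t - (S v : ℂ)) * (dk L' dL t / (ka L' t - (X v.2.2 : ℂ))) = _
    unfold ka dk
    rw [hL' t ⟨ht.1.le, ht.2.le⟩]
    ring
  have hin' : (fun t => ∫ v, F t v ∂mu) =ᵐ[volume.restrict (Ioc (0:ℝ) 1)]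
      (fun t => Th (L t) * dL t) := by
    filter_upwards [haet] with t ht
    exact hin t ht
  have hII : IntervalIntegrable (fun t => Th (L t) * dL t) volume 0 1 := by
    rw [intervalIntegrable_iff_integrableOn_Ioc_of_le zero_le_one]
    exact (integrable_congr hin').1 hFi.integral_prod_left
  refine ⟨?_, hII⟩
  have hout : ∀ᵐ v ∂mu, Real.pi * lam v = (∫ t in Ioc (0:ℝ) 1, F t v).im := by
    filter_upwards [AnA_ae] with v hv
    have hp := pointwise h (Z := X v.2.2) (R := X v.1 + X v.2.1) (AnA_X_ge _)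
      (AnA_X_lt hv.1 hv.2) (by
        have a1 := AnA_X_ge v.1
        have a2 := AnA_X_le v.1
        have b1 := AnA_X_ge v.2.1
        have b2 := AnA_X_le v.2.1
        rw [abs_le]
        constructor <;> linarith)
    have hS : X v.2.2 + (X v.1 + X v.2.1) = S v := by
      unfold S
      ring
    rw [hS] at hp
    unfold lam
    rw [← hp, intervalIntegral.integral_of_le zero_le_one]
    congr 1
    refine integral_congr_ae ?_
    filter_upwards [haet] with t ht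
    show _ = lg (ka L' t - (S v : ℂ)) * (dk L' dL t / (ka L' t - (X v.2.2 : ℂ)))
    unfold ka dk
    rw [hL' t ⟨ht.1.le, ht.2.le⟩]
  have hsw : ∫ v, (∫ t in Ioc (0:ℝ) 1, F t v) ∂mu = ∫ t in Ioc (0:ℝ) 1, (∫ v, F t v ∂mu) :=
    (integral_integral_swap (μ := volume.restrict (Ioc (0:ℝ) 1)) (ν := mu) hFi).symm
  have hiR : Integrable (fun v => ∫ t in Ioc (0:ℝ) 1, F t v) mu := hFi.integral_prod_right
  rw [← integral_const_mul, integral_congr_ae hout, intervalIntegral.integral_of_le zero_le_one,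
    ← integral_congr_ae hin', ← hsw]
  exact (integral_im hiR)

end D8W
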