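import Mathlib
import Pool.Agent.D8W.Defs
import Pool.Agent.D8W.Pth
import Pool.Agent.D8W.AnA

/-!
# D8W/An: `π ∫ lam dmu = -(4/3) Im ∫ L Wk(k) dL`

`N = L Th(L)`: `N' = Th(L) dL + L (4/3 Wk - 1/3) dL` off `t = 1/2`; `N` is continuous on `[0,1]`, `N(1) = 0`
(`‖Th(L t)‖ ≤ M' (1-t)^(-1/2)`, `‖L t‖ ≤ C (1-t)`), `Im N(0) = 0`; and `∫ L dL = [L²/2]` is real.
-/

set_option autoImplicit false

open MeasureTheory Set

namespace D8W

open RV15W

variable {L dL : ℝ → ℂ} {c C : ℝ}

private theorem An_reg (h : IsPath L dL c C) {t : ℝ} (h0 : 0 ≤ t) (h1 : t < 1) :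
    2 * Complex.cosh (L t) ∈ Reg := by
  rcases eq_or_lt_of_le h0 with h2 | h2
  · right
    rw [← h2]
    have := (h.ka_zero).2
    unfold ka at this
    linarith
  · left
    exact h.ka_im ⟨h2, h1⟩

private theorem An_contL (h : IsPath L dL c C) {t : ℝ} (ht : t ∈ Icc (0:ℝ) 1) :
    ContinuousWithinAt L (Icc 0 1) t := h.cont t ht

private theorem An_C (h : IsPath L dL c C) : 0 ≤ C := (norm_nonneg _).trans (h.bd 0)

private theorem An_N (h : IsPath L dL c C) :
    ContinuousOn (fun t => L t * Th (L t)) (Icc 0 1) := by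
  intro t ht
  rcases eq_or_lt_of_le ht.2 with h1 | h1
  · -- the end point
    obtain ⟨M, hM⟩ := Th_bound h
    subst h1
    have hz : (fun t => L t * Th (L t)) 1 = 0 := by
      simp only [h.zero, zero_mul]
    show Filter.Tendsto _ _ _
    rw [hz]
    rw [tendsto_zero_iff_norm_tendsto_zero]
    have hM0 : 0 ≤ M := by
      have h2 := (norm_nonneg _).trans (hM (1/2) ⟨by norm_num, by norm_num⟩)
      by_contra h3
      push Not at h3
      have h4 : (0:ℝ) < (1 - 1/2) ^ (-(1/2) : ℝ) := Real.rpow_pos_of_pos (by norm_num) _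
      nlinarith
    have hb : ∀ᶠ s in nhdsWithin (1:ℝ) (Icc 0 1), ‖L s * Th (L s)‖ ≤ C * M * (1 - s) ^ ((1/2) : ℝ) := by
      have h3 : Ioi (1/2 : ℝ) ∈ nhds (1:ℝ) := Ioi_mem_nhds (by norm_num)
      filter_upwards [self_mem_nhdsWithin, mem_nhdsWithin_of_mem_nhds h3] with s hs1 hs2
      rcases eq_or_lt_of_le hs1.2 with h4 | h4
      · rw [h4, h.zero, zero_mul, norm_zero]
        have := An_C h
        have h5 : (0:ℝ) ≤ (1 - 1) ^ ((1/2) : ℝ) := Real.rpow_nonneg (by norm_num) _
        positivity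
      · have h5 : 0 < 1 - s := by linarith
        have h6 := h.nrm s ⟨le_of_lt hs2, hs1.2⟩
        have h7 := hM s ⟨hs1.1, h4⟩
        rw [norm_mul]
        have h8 : (1 - s) * (1 - s) ^ (-(1/2) : ℝ) = (1 - s) ^ ((1/2) : ℝ) := by
          nth_rw 1 [← Real.rpow_one (1 - s)]
          rw [← Real.rpow_add h5]
          norm_num
        calc ‖L s‖ * ‖Th (L s)‖ ≤ (C * (1 - s)) * (M * (1 - s) ^ (-(1/2) : ℝ)) := by
              apply mul_le_mul h6 h7 (norm_nonneg _)
              exact mul_nonneg (An_C h) h5.le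
          _ = C * M * ((1 - s) * (1 - s) ^ (-(1/2) : ℝ)) := by ring
          _ = _ := by rw [h8]
    refine squeeze_zero' (Filter.Eventually.of_forall fun s => norm_nonneg _) hb ?_
    have h9 : Filter.Tendsto (fun s : ℝ => C * M * (1 - s) ^ ((1/2) : ℝ)) (nhds 1) (nhds 0) := by
      have hc : ContinuousAt (fun s : ℝ => C * M * (1 - s) ^ ((1/2) : ℝ)) 1 := by
        refine ContinuousAt.mul continuousAt_const ?_
        exact ContinuousAt.rpow_const (by fun_prop) (Or.inr (by norm_num))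
      have h10 := hc.tendsto
      simpa using h10
    exact h9.mono_left nhdsWithin_le_nhds
  · have h2 : ContinuousAt Th (L t) := (Th_deriv (An_reg h ht.1 h1)).continuousAt
    exact (h.cont t ht).mul (ContinuousAt.comp_continuousWithinAt (g := Th) (f := L) h2 (h.cont t ht))

private theorem An_deriv (h : IsPath L dL c C) {t : ℝ} (ht : t ∈ Ioo (0:ℝ) 1) (h2 : t ≠ 1/2) :
    HasDerivAt (fun t => L t * Th (L t))
      (Th (L t) * dL t + L t * ((4 / 3 * Wk (ka L t) - 1 / 3) * dL t)) t := by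
  have h3 := h.der t ht h2
  have h4 : HasDerivAt Th (4 / 3 * Wk (2 * Complex.cosh (L t)) - 1 / 3) (L t) :=
    Th_deriv (An_reg h ht.1.le ht.2)
  have h5 := h3.mul (h4.comp t h3)
  refine h5.congr_deriv ?_
  simp only [Function.comp, ka]
  ring

private theorem An_meas (h : IsPath L dL c C) :
    AEStronglyMeasurable (fun t => Wk (ka L t)) (volume.restrict (Ioc 0 1)) := by
  rw [← restrict_Ioo_eq_restrict_Ioc]
  refine ContinuousOn.aestronglyMeasurable (fun t ht => ?_) measurableSet_Ioo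
  have h1 : ContinuousAt Wk (ka L t) := (Wk_diff (An_reg h ht.1.le ht.2)).continuousAt
  have h2 : ContinuousWithinAt L (Ioo 0 1) t := (h.cont t ⟨ht.1.le, ht.2.le⟩).mono Ioo_subset_Icc_self
  have h3 : ContinuousWithinAt (ka L) (Ioo 0 1) t :=
    continuousWithinAt_const.mul (Complex.continuous_cosh.continuousAt.comp_continuousWithinAt h2)
  exact ContinuousAt.comp_continuousWithinAt (g := Wk) (f := ka L) h1 h3

private theorem An_measL (h : IsPath L dL c C) :
    AEStronglyMeasurable L (volume.restrict (Ioc 0 1)) :=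
  (h.cont.mono Ioc_subset_Icc_self).aestronglyMeasurable measurableSet_Ioc

private theorem An_bdL (h : IsPath L dL c C) : ∃ K : ℝ, 0 ≤ K ∧ ∀ t ∈ Icc (0:ℝ) 1, ‖L t‖ ≤ K := by
  obtain ⟨K, hK⟩ := isCompact_Icc.exists_bound_of_continuousOn h.cont
  exact ⟨max K 0, le_max_right _ _, fun t ht => (hK t ht).trans (le_max_left _ _)⟩

private theorem An_int1 (h : IsPath L dL c C) :
    IntervalIntegrable (fun t => L t * dL t) volume 0 1 := by
  obtain ⟨K, hK0, hK⟩ := An_bdL h
  rw [intervalIntegrable_iff_integrableOn_Ioc_of_le zero_le_one]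
  refine Integrable.of_bound ((An_measL h).mul h.meas.aestronglyMeasurable) (K * C) ?_
  filter_upwards [ae_restrict_mem measurableSet_Ioc] with t ht
  rw [norm_mul]
  exact mul_le_mul (hK t ⟨ht.1.le, ht.2⟩) (h.bd t) (norm_nonneg _) hK0

private theorem An_int2 (h : IsPath L dL c C) {B : ℝ}
    (hW : ∀ t ∈ Ioo (0:ℝ) 1, ‖Wk (ka L t)‖ ≤ B) :
    IntervalIntegrable (fun t => L t * Wk (ka L t) * dL t) volume 0 1 := by
  obtain ⟨K, hK0, hK⟩ := An_bdL h
  rw [intervalIntegrable_iff_integrableOn_Ioc_of_le zero_le_one, IntegrableOn,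
    ← restrict_Ioo_eq_restrict_Ioc]
  refine Integrable.of_bound ?_ (K * B * C) ?_
  · rw [restrict_Ioo_eq_restrict_Ioc]
    exact ((An_measL h).mul (An_meas h)).mul h.meas.aestronglyMeasurable
  · filter_upwards [ae_restrict_mem measurableSet_Ioo] with t ht
    have h1 := hK t ⟨ht.1.le, ht.2.le⟩
    have h2 := hW t ht
    have h3 := h.bd t
    have h4 : 0 ≤ B := (norm_nonneg _).trans h2
    rw [norm_mul, norm_mul]
    gcongr

theorem path_main (h : IsPath L dL c C) {B : ℝ}
    (hW : ∀ t ∈ Ioo (0:ℝ) 1, ‖Wk (ka L t)‖ ≤ B) :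
    Real.pi * ∫ v, lam v ∂mu =
      -(4 / 3) * (∫ t in (0:ℝ)..1, L t * Wk (ka L t) * dL t).im := by
  obtain ⟨h1, hF⟩ := fub h
  have hG := An_int2 h hW
  have hH := An_int1 h
  have hN := integral_eq_of_hasDerivAt_off_countable (fun t => L t * Th (L t))
    (fun t => Th (L t) * dL t + L t * ((4 / 3 * Wk (ka L t) - 1 / 3) * dL t)) (a := 0) (b := 1)
    (countable_singleton (1/2 : ℝ)) (by rw [uIcc_of_le zero_le_one]; exact An_N h)
    (by
      intro t ht
      rw [min_eq_left zero_le_one, max_eq_right zero_le_one] at ht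
      exact An_deriv h ht.1 (by simpa using ht.2))
    (by
      have h2 : IntervalIntegrable (fun t => 4 / 3 * (L t * Wk (ka L t) * dL t) -
          1 / 3 * (L t * dL t)) volume 0 1 := (hG.const_mul (4/3)).sub (hH.const_mul (1/3))
      have h3 := hF.add h2
      refine h3.congr_ae ?_
      filter_upwards with t
      ring)
  have hL2 := integral_eq_of_hasDerivAt_off_countable (fun t => L t ^ 2 / 2)
    (fun t => L t * dL t) (a := 0) (b := 1)
    (countable_singleton (1/2 : ℝ)) (by rw [uIcc_of_le zero_le_one]; exact (h.cont.pow 2).div_const 2)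
    (by
      intro t ht
      rw [min_eq_left zero_le_one, max_eq_right zero_le_one] at ht
      have h3 := h.der t ht.1 (by simpa using ht.2)
      refine ((h3.pow 2).div_const 2).congr_deriv ?_
      simp
      ring) hH
  have hsplit : ∫ t in (0:ℝ)..1, (Th (L t) * dL t + L t * ((4 / 3 * Wk (ka L t) - 1 / 3) * dL t)) =
      (∫ t in (0:ℝ)..1, Th (L t) * dL t) + (4 / 3 * (∫ t in (0:ℝ)..1, L t * Wk (ka L t) * dL t) -
        1 / 3 * ∫ t in (0:ℝ)..1, L t * dL t) := by
    rw [← intervalIntegral.integral_const_mul, ← intervalIntegral.integral_const_mul,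
      ← intervalIntegral.integral_sub (hG.const_mul _) (hH.const_mul _),
      ← intervalIntegral.integral_add hF ((hG.const_mul _).sub (hH.const_mul _))]
    refine intervalIntegral.integral_congr fun t _ => ?_
    ring
  have hx : L 0 = (((L 0).re : ℝ) : ℂ) := by
    apply Complex.ext
    · simp
    · simp [h.im0]
  have hk := (h.ka_zero).2
  have hk2 : 6 < 2 * Real.cosh (L 0).re := by
    have h4 : (ka L 0).re = 2 * Real.cosh (L 0).re := by
      unfold ka
      rw [hx, ← Complex.ofReal_cosh]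
      simp
    linarith
  have hT := Th_real hk2
  rw [hsplit, hL2] at hN
  have e1 : (L 0 * Th (L 0)).im = 0 := by
    rw [← hx] at hT
    rw [Complex.mul_im, h.im0, hT]
    ring
  have e2 : (L 0 ^ 2 / 2).im = 0 := by
    rw [hx]
    have : (((L 0).re : ℂ) ^ 2 / 2) = (((L 0).re ^ 2 / 2 : ℝ) : ℂ) := by push_cast; ring
    rw [this, Complex.ofReal_im]
  have e4 : (∫ t in (0:ℝ)..1, Th (L t) * dL t) =
      -(L 0 * Th (L 0)) - ((4 / 3 : ℝ) : ℂ) * (∫ t in (0:ℝ)..1, L t * Wk (ka L t) * dL t) -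
        ((1 / 3 : ℝ) : ℂ) * (L 0 ^ 2 / 2) := by
    rw [h.zero] at hN
    push_cast
    linear_combination hN
  rw [h1, e4]
  simp only [Complex.sub_im, Complex.neg_im, Complex.im_ofReal_mul, e1, e2]
  ring

end D8W
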