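import Mathlib
import Pool.Agent.D8W.Defs
import Pool.Agent.D8W.Pth
import Pool.Agent.D8W.Lf

/-!
# D8W/Pa: the concrete path `i → 1/3 + i → 1/3 + i y0`
-/

set_option autoImplicit false

open MeasureTheory Set

namespace D8W

open RV15W

/-- the path in the upper half plane -/
noncomputable def tp (t : ℝ) : ℂ :=
  if t ≤ 1 / 2 then pt (2 * t / 3) 1 else pt (1 / 3) (y0 + 2 * (1 - t) * (1 - y0))

/-- `l` along the path -/
noncomputable def Lp (t : ℝ) : ℂ := l (tp t)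

/-- its derivative (cut off outside `[0,1]`) -/
noncomputable def dLp (t : ℝ) : ℂ :=
  if t ∈ Icc (0:ℝ) 1 then
    Real.pi * Complex.I * (ca (qq (tp t)) ^ 2 - 2 * ca (qq (tp t) ^ 2) ^ 2) *
      (if t ≤ 1 / 2 then 2 / 3 else -(2 * (1 - y0)) * Complex.I)
  else 0

private theorem Pa_y0_lt : y0 < 1 := by
  unfold y0
  have h : Real.sqrt 2 ≤ 2 := by
    rw [show (2:ℝ) = Real.sqrt (2 ^ 2) by rw [Real.sqrt_sq (by norm_num)]]
    exact Real.sqrt_le_sqrt (by norm_num)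
  linarith

private theorem Pa_y0_pos : 0 < y0 := by
  unfold y0
  have : 0 < Real.sqrt 2 := Real.sqrt_pos.mpr (by norm_num)
  linarith

private theorem Pa_pt_im (x y : ℝ) : (pt x y).im = y := by
  simp [pt]

private theorem Pa_qq_norm {τ : ℂ} (h : 0 < τ.im) : ‖qq τ‖ < 1 := by
  unfold qq
  rw [Complex.norm_exp]
  have h1 : (2 * (Real.pi : ℂ) * Complex.I * τ).re = -(2 * Real.pi * τ.im) := by
    have : (2 * (Real.pi : ℂ) * Complex.I * τ) = ((2 * Real.pi : ℝ) : ℂ) * (Complex.I * τ) := by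
      push_cast; ring
    rw [this, Complex.re_ofReal_mul]
    simp
  rw [h1, Real.exp_lt_one_iff]
  have := mul_pos (mul_pos (by norm_num : (0:ℝ) < 2) Real.pi_pos) h
  linarith

/-- the derivative of `l` -/
private noncomputable def Pa_dl (τ : ℂ) : ℂ :=
  Real.pi * Complex.I * (ca (qq τ) ^ 2 - 2 * ca (qq τ ^ 2) ^ 2)

private theorem Pa_ca_at {q : ℂ} (hq : ‖q‖ < 1) : ContinuousAt ca q :=
  (ca_diff.differentiableAt (Metric.isOpen_ball.mem_nhds (by simpa using hq))).continuousAt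

private theorem Pa_dl_cont {τ : ℂ} (h : 0 < τ.im) : ContinuousAt Pa_dl τ := by
  have hq : ‖qq τ‖ < 1 := Pa_qq_norm h
  have hq2 : ‖qq τ ^ 2‖ < 1 := by
    rw [norm_pow]
    exact pow_lt_one₀ (norm_nonneg _) hq (by norm_num)
  have hqc : ContinuousAt qq τ := by
    unfold qq
    fun_prop
  have h1 : ContinuousAt (fun τ => ca (qq τ)) τ := ContinuousAt.comp (Pa_ca_at hq) hqc
  have h2 : ContinuousAt (fun τ => ca (qq τ ^ 2)) τ :=
    ContinuousAt.comp (f := fun τ => qq τ ^ 2) (Pa_ca_at hq2) (hqc.pow 2)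
  unfold Pa_dl
  exact continuousAt_const.mul ((h1.pow 2).sub (continuousAt_const.mul (h2.pow 2)))

/-- the two branches -/
private noncomputable def Pa_t1 (t : ℝ) : ℂ := pt (2 * t / 3) 1
private noncomputable def Pa_t2 (t : ℝ) : ℂ := pt (1 / 3) (y0 + 2 * (1 - t) * (1 - y0))

private theorem Pa_t1_der (t : ℝ) : HasDerivAt Pa_t1 (2 / 3) t := by
  have h : HasDerivAt (fun t : ℝ => ((t : ℂ) * (2 / 3) + Complex.I)) (1 * (2 / 3)) t :=
    (((hasDerivAt_id t).ofReal_comp).mul_const _).add_const _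
  have e : Pa_t1 = fun t : ℝ => ((t : ℂ) * (2 / 3) + Complex.I) := by
    funext t
    unfold Pa_t1 pt
    push_cast
    ring
  rw [e]
  simpa using h

private theorem Pa_t2_der (t : ℝ) : HasDerivAt Pa_t2 (-(2 * (1 - y0)) * Complex.I) t := by
  have h : HasDerivAt (fun t : ℝ => ((t : ℂ) * (-(2 * (1 - y0)) * Complex.I) +
      (1 / 3 + (y0 + 2 * (1 - y0)) * Complex.I))) (1 * (-(2 * (1 - y0)) * Complex.I)) t :=
    (((hasDerivAt_id t).ofReal_comp).mul_const _).add_const _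
  have e : Pa_t2 = fun t : ℝ => ((t : ℂ) * (-(2 * (1 - y0)) * Complex.I) +
      (1 / 3 + (y0 + 2 * (1 - y0)) * Complex.I)) := by
    funext t
    unfold Pa_t2 pt
    push_cast
    ring
  rw [e]
  simpa using h

private theorem Pa_t1_im (t : ℝ) : 0 < (Pa_t1 t).im := by
  unfold Pa_t1
  rw [Pa_pt_im]
  norm_num

private theorem Pa_t2_im {t : ℝ} (h : t ≤ 1) : 0 < (Pa_t2 t).im := by
  unfold Pa_t2
  rw [Pa_pt_im]
  have h1 := Pa_y0_lt
  have h0 := Pa_y0_pos
  have : 0 ≤ 2 * (1 - t) * (1 - y0) := mul_nonneg (by linarith) (by linarith)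
  linarith

private theorem Pa_tp1 {t : ℝ} (h : t ≤ 1 / 2) : tp t = Pa_t1 t := by
  unfold tp Pa_t1
  rw [if_pos h]

private theorem Pa_tp2 {t : ℝ} (h : 1 / 2 ≤ t) : tp t = Pa_t2 t := by
  rcases eq_or_lt_of_le h with h | h
  · subst h
    unfold tp Pa_t2
    rw [if_pos le_rfl]
    congr 1 <;> ring
  · unfold tp Pa_t2
    rw [if_neg (not_le.mpr h)]

private theorem Pa_l_cont {τ : ℂ} (h : 0 < τ.im) : ContinuousAt l τ := (l_deriv h).continuousAt

private theorem Pa_tp_im {t : ℝ} (h : t ≤ 1) : 0 < (tp t).im := by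
  rcases le_total t (1 / 2) with h1 | h1
  · rw [Pa_tp1 h1]; exact Pa_t1_im t
  · rw [Pa_tp2 h1]; exact Pa_t2_im h

private theorem Pa_tp_cont : Continuous tp := by
  unfold tp
  refine Continuous.if_le ?_ ?_ continuous_id continuous_const ?_
  · unfold pt; fun_prop
  · unfold pt; fun_prop
  · intro x hx
    have hx : x = 1 / 2 := hx
    subst hx
    congr 1 <;> ring

private theorem Pa_cont : ContinuousOn Lp (Icc 0 1) := by
  intro t ht
  apply ContinuousAt.continuousWithinAt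
  exact ContinuousAt.comp (f := tp) (g := l) (Pa_l_cont (Pa_tp_im ht.2)) Pa_tp_cont.continuousAt

private theorem Pa_dLp1 {t : ℝ} (h0 : 0 ≤ t) (h : t ≤ 1 / 2) :
    dLp t = Pa_dl (Pa_t1 t) * (2 / 3) := by
  unfold dLp Pa_dl
  rw [if_pos ⟨h0, by linarith⟩, if_pos h, Pa_tp1 h]

private theorem Pa_dLp2 {t : ℝ} (h0 : 1 / 2 < t) (h : t ≤ 1) :
    dLp t = Pa_dl (Pa_t2 t) * (-(2 * (1 - y0)) * Complex.I) := by
  unfold dLp Pa_dl
  rw [if_pos ⟨by linarith, h⟩, if_neg (not_le.mpr h0), Pa_tp2 h0.le]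

private theorem Pa_der {t : ℝ} (ht : t ∈ Ioo (0:ℝ) 1) (ht2 : t ≠ 1 / 2) :
    HasDerivAt Lp (dLp t) t := by
  rcases lt_or_gt_of_ne ht2 with h | h
  · rw [Pa_dLp1 ht.1.le h.le]
    have h1 : HasDerivAt (fun t => l (Pa_t1 t)) (Pa_dl (Pa_t1 t) * (2 / 3)) t :=
      HasDerivAt.comp t (l_deriv (Pa_t1_im t)) (Pa_t1_der t)
    refine h1.congr_of_eventuallyEq ?_
    filter_upwards [Iio_mem_nhds h] with s hs
    have hs : s < 1 / 2 := hs
    unfold Lp
    rw [Pa_tp1 hs.le]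
  · rw [Pa_dLp2 h ht.2.le]
    have h1 : HasDerivAt (fun t => l (Pa_t2 t))
        (Pa_dl (Pa_t2 t) * (-(2 * (1 - y0)) * Complex.I)) t :=
      HasDerivAt.comp t (l_deriv (Pa_t2_im ht.2.le)) (Pa_t2_der t)
    refine h1.congr_of_eventuallyEq ?_
    filter_upwards [Ioi_mem_nhds h] with s hs
    have hs : 1 / 2 < s := hs
    unfold Lp
    rw [Pa_tp2 hs.le]

private theorem Pa_g1_cont : ContinuousOn (fun t => Pa_dl (Pa_t1 t) * (2 / 3)) (Icc 0 (1 / 2)) := by
  intro t _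
  apply ContinuousAt.continuousWithinAt
  exact (ContinuousAt.comp (f := Pa_t1) (Pa_dl_cont (Pa_t1_im t))
    (Pa_t1_der t).continuousAt).mul continuousAt_const

private theorem Pa_g2_cont : ContinuousOn
    (fun t => Pa_dl (Pa_t2 t) * (-(2 * (1 - y0)) * Complex.I)) (Icc (1 / 2) 1) := by
  intro t ht
  apply ContinuousAt.continuousWithinAt
  exact (ContinuousAt.comp (f := Pa_t2) (Pa_dl_cont (Pa_t2_im ht.2))
    (Pa_t2_der t).continuousAt).mul continuousAt_const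

private theorem Pa_meas : Measurable dLp := by
  classical
  have e : dLp = (Icc (0:ℝ) (1 / 2)).piecewise (fun t => Pa_dl (Pa_t1 t) * (2 / 3))
      ((Ioc (1 / 2 : ℝ) 1).piecewise
        (fun t => Pa_dl (Pa_t2 t) * (-(2 * (1 - y0)) * Complex.I)) (fun _ => 0)) := by
    funext t
    by_cases h1 : t ∈ Icc (0:ℝ) (1 / 2)
    · rw [Set.piecewise_eq_of_mem _ _ _ h1, Pa_dLp1 h1.1 h1.2]
    · rw [Set.piecewise_eq_of_notMem _ _ _ h1]
      by_cases h2 : t ∈ Ioc (1 / 2 : ℝ) 1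
      · rw [Set.piecewise_eq_of_mem _ _ _ h2, Pa_dLp2 h2.1 h2.2]
      · rw [Set.piecewise_eq_of_notMem _ _ _ h2]
        unfold dLp
        rw [if_neg]
        rintro ⟨a, b⟩
        rcases le_or_gt t (1 / 2) with h | h
        · exact h1 ⟨a, h⟩
        · exact h2 ⟨h, b⟩
  rw [e]
  have m2 : Measurable ((Ioc (1 / 2 : ℝ) 1).piecewise
      (fun t => Pa_dl (Pa_t2 t) * (-(2 * (1 - y0)) * Complex.I)) (fun _ => (0:ℂ))) :=
    ContinuousOn.measurable_piecewise (Pa_g2_cont.mono Ioc_subset_Icc_self) continuousOn_const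
      measurableSet_Ioc
  have m1 : Measurable ((Icc (0:ℝ) (1 / 2)).piecewise
      (fun t => Pa_dl (Pa_t1 t) * (2 / 3)) (fun _ => (0:ℂ))) :=
    ContinuousOn.measurable_piecewise Pa_g1_cont continuousOn_const measurableSet_Icc
  have e2 : (Icc (0:ℝ) (1 / 2)).piecewise (fun t => Pa_dl (Pa_t1 t) * (2 / 3))
      ((Ioc (1 / 2 : ℝ) 1).piecewise
        (fun t => Pa_dl (Pa_t2 t) * (-(2 * (1 - y0)) * Complex.I)) (fun _ => 0)) =
      (Icc (0:ℝ) (1 / 2)).piecewise ((Icc (0:ℝ) (1 / 2)).piecewise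
      (fun t => Pa_dl (Pa_t1 t) * (2 / 3)) (fun _ => (0:ℂ))) ((Ioc (1 / 2 : ℝ) 1).piecewise
        (fun t => Pa_dl (Pa_t2 t) * (-(2 * (1 - y0)) * Complex.I)) (fun _ => 0)) := by
    funext t
    by_cases h1 : t ∈ Icc (0:ℝ) (1 / 2)
    · rw [Set.piecewise_eq_of_mem _ _ _ h1, Set.piecewise_eq_of_mem _ _ _ h1,
        Set.piecewise_eq_of_mem _ _ _ h1]
    · rw [Set.piecewise_eq_of_notMem _ _ _ h1, Set.piecewise_eq_of_notMem _ _ _ h1]
  rw [e2]
  exact Measurable.piecewise measurableSet_Icc m1 m2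

private theorem Pa_bd : ∃ C : ℝ, 0 ≤ C ∧ ∀ t, ‖dLp t‖ ≤ C := by
  obtain ⟨C1, h1⟩ := isCompact_Icc.exists_bound_of_continuousOn Pa_g1_cont
  obtain ⟨C2, h2⟩ := isCompact_Icc.exists_bound_of_continuousOn Pa_g2_cont
  refine ⟨max 0 (max C1 C2), le_max_left _ _, ?_⟩
  intro t
  by_cases ht : t ∈ Icc (0:ℝ) 1
  · rcases le_or_gt t (1 / 2) with h | h
    · rw [Pa_dLp1 ht.1 h]
      exact (h1 t ⟨ht.1, h⟩).trans ((le_max_left _ _).trans (le_max_right _ _))
    · rw [Pa_dLp2 h ht.2]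
      exact (h2 t ⟨h.le, ht.2⟩).trans ((le_max_right _ _).trans (le_max_right _ _))
  · unfold dLp
    rw [if_neg ht, norm_zero]
    exact le_max_left _ _

private theorem Pa_Lp1 {t : ℝ} (h : t ≤ 1 / 2) : Lp t = l (pt (2 * t / 3) 1) := by
  unfold Lp
  rw [Pa_tp1 h]
  rfl

private theorem Pa_Lp2 {t : ℝ} (h : 1 / 2 ≤ t) :
    Lp t = l (pt (1 / 3) (y0 + 2 * (1 - t) * (1 - y0))) := by
  unfold Lp
  rw [Pa_tp2 h]
  rfl

private theorem Pa_ymem {t : ℝ} (h : 1 / 2 ≤ t) (h1 : t ≤ 1) :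
    y0 + 2 * (1 - t) * (1 - y0) ∈ Icc y0 1 := by
  have hy := Pa_y0_lt
  constructor
  · have : 0 ≤ 2 * (1 - t) * (1 - y0) := mul_nonneg (by linarith) (by linarith)
    linarith
  · nlinarith

theorem isPath : ∃ c C : ℝ, IsPath Lp dLp c C := by
  obtain ⟨c, C, hc, hb⟩ := ray_bounds
  obtain ⟨B, hB0, hB⟩ := Pa_bd
  have hy := Pa_y0_lt
  have hy' : 0 < 1 - y0 := by linarith
  refine ⟨c * (2 * (1 - y0)), max B (C * (2 * (1 - y0))), ?_⟩
  refine
    { cpos := by positivity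
      cont := Pa_cont
      der := fun t ht ht2 => Pa_der ht ht2
      meas := Pa_meas
      bd := fun t => (hB t).trans (le_max_left _ _)
      zero := ?_
      im0 := ?_
      im_neg := ?_
      im_gt := ?_
      re3 := ?_
      re_ge := ?_
      im_le := ?_
      nrm := ?_ }
  · rw [Pa_Lp2 (by norm_num)]
    have : y0 + 2 * (1 - 1) * (1 - y0) = y0 := by ring
    rw [this]
    exact l_cm
  · rw [Pa_Lp1 (by norm_num)]
    have h := l_conj 0 (y := 1) one_pos
    have e0 : (2 * (0:ℝ) / 3) = 0 := by norm_num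
    rw [e0]
    rw [neg_zero] at h
    have h2 := congrArg Complex.im h
    rw [Complex.conj_im] at h2
    linarith
  · intro t ht
    rcases le_or_gt t (1 / 2) with h | h
    · rw [Pa_Lp1 h]
      exact (top_bounds (x := 2 * t / 3) (by linarith [ht.1]) (by linarith)).2.2
        (by linarith [ht.1])
    · rw [Pa_Lp2 h.le]
      have hm := Pa_ymem h.le ht.2.le
      have h2 := (hb _ hm).2.1
      have h3 : 0 < c * (y0 + 2 * (1 - t) * (1 - y0) - y0) := by
        apply mul_pos hc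
        have : 0 < 2 * (1 - t) * (1 - y0) := mul_pos (by linarith [ht.2]) hy'
        linarith
      linarith
  · intro t ht
    rcases le_or_gt t (1 / 2) with h | h
    · rw [Pa_Lp1 h]
      have := (top_bounds (x := 2 * t / 3) (by linarith [ht.1]) (by linarith)).2.1
      linarith
    · rw [Pa_Lp2 h.le]
      have := (hb _ (Pa_ymem h.le ht.2)).2.2.2
      linarith
  · intro t ht
    rw [Pa_Lp1 ht.2]
    exact (top_bounds (x := 2 * t / 3) (by linarith [ht.1]) (by linarith [ht.2])).1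
  · intro t ht
    rw [Pa_Lp2 ht.1]
    have := (hb _ (Pa_ymem ht.1 ht.2)).1
    have e : c * (y0 + 2 * (1 - t) * (1 - y0) - y0) = c * (2 * (1 - y0)) * (1 - t) := by ring
    rw [e] at this
    exact this
  · intro t ht
    rw [Pa_Lp2 ht.1]
    have := (hb _ (Pa_ymem ht.1 ht.2)).2.1
    have e : c * (y0 + 2 * (1 - t) * (1 - y0) - y0) = c * (2 * (1 - y0)) * (1 - t) := by ring
    rw [e] at this
    exact this
  · intro t ht
    rw [Pa_Lp2 ht.1]
    have := (hb _ (Pa_ymem ht.1 ht.2)).2.2.1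
    have e : C * (y0 + 2 * (1 - t) * (1 - y0) - y0) = C * (2 * (1 - y0)) * (1 - t) := by ring
    rw [e] at this
    exact this.trans (mul_le_mul_of_nonneg_right (le_max_right _ _) (by linarith [ht.2]))

end D8W
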