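import Mathlib
import Pool.Agent.D8W.Defs
import Pool.Agent.D8W.Lf
import Pool.Agent.D8M.WC

/-!
# D8W/Wm: `Wk (k(τ)) = a(q) a(q²)` on the path

* `∫ S^(2n) dmu = cn n`, `∫ S^(2n+1) dmu = 0`, so `Wk k = hW (1/k²)` for `|k| > 6`;
* recurrence `(n+1)³ c_{n+1} = 2(2n+1)(10n²+10n+3) c_n - 36 n(2n-1)(2n+1) c_{n-1}`, so with `θ = K d/dK`
  `(1-40K+144K²) θ³ + (-60K+432K²) θ² + (-32K+396K²) θ + (-6K+108K²)` kills `hW`;
* `1/k² = al be ga de/(9 x² z²) = (4z²-x²)(x²-z²)/(36 x² z²)` (`exp_l`), `x z` satisfies the same equation in `K = 1/k²`; `uniq`;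
* analytic continuation along the path (`Wk` is analytic off `[-6,6]`; the path is connected; `ray_bounds`, `top_bounds`).
The proofs are in `Pool/Agent/D8M`.
-/

set_option autoImplicit false

open MeasureTheory Set

namespace D8W

open RV15W

theorem W_ray {y : ℝ} (h0 : y0 < y) (_h1 : y ≤ 1) :
    Wk (kt (pt (1 / 3) y)) = ca (qq (pt (1 / 3) y)) * ca (qq (pt (1 / 3) y) ^ 2) :=
  D8M.W_all (Or.inl ⟨y, h0, rfl⟩)

theorem W_top {x : ℝ} (h0 : 0 ≤ x) (h1 : x ≤ 1 / 3) :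
    Wk (kt (pt x 1)) = ca (qq (pt x 1)) * ca (qq (pt x 1) ^ 2) :=
  D8M.W_all (Or.inr ⟨x, h0, h1, rfl⟩)

end D8W
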