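import Mathlib
import Pool.Agent.D8W.Defs
import Pool.Agent.D8W.Lf
import Pool.Agent.D8W.Wm
import Pool.Agent.D8W.Pa

/-!
# D8W/Rect: from the path to the horizontal segment
-/

set_option autoImplicit false

open MeasureTheory Set

namespace D8W

open RV15W

/-- the integrand -/
private noncomputable def Phi (τ : ℂ) : ℂ := l τ * Psi τ

private theorem Rect_qq_norm {τ : ℂ} (h : 0 < τ.im) : ‖qq τ‖ < 1 := by
  unfold qq
  rw [Complex.norm_exp]
  have h1 : (2 * (Real.pi : ℂ) * Complex.I * τ).re = -(2 * Real.pi * τ.im) := by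
    simp [Complex.mul_re, Complex.mul_im]
  rw [h1, Real.exp_lt_one_iff]
  have := Real.pi_pos
  have := mul_pos this h
  linarith

private theorem Rect_qq_diff : Differentiable ℂ qq := by
  unfold qq
  fun_prop

private theorem Rect_pow_lt {q : ℂ} (hq : ‖q‖ < 1) {k : ℕ} (hk : k ≠ 0) : ‖q ^ k‖ < 1 := by
  rw [norm_pow]
  exact pow_lt_one₀ (norm_nonneg _) hq hk

private theorem Rect_Psi_diff {τ : ℂ} (h : 0 < τ.im) : DifferentiableAt ℂ Psi τ := by
  have hq := Rect_qq_norm h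
  have he : ∀ k : ℕ, k ≠ 0 → DifferentiableAt ℂ (fun τ => e4 (qq τ ^ k)) τ := by
    intro k hk
    have h1 : DifferentiableAt ℂ e4 (qq τ ^ k) :=
      e4_diff.differentiableAt (Metric.isOpen_ball.mem_nhds (by
        rw [Metric.mem_ball, dist_zero_right]; exact Rect_pow_lt hq hk))
    exact DifferentiableAt.comp (g := e4) (f := fun τ => qq τ ^ k) τ h1
      ((Rect_qq_diff τ).pow k)
  have h1 := he 1 one_ne_zero
  simp only [pow_one] at h1
  have h2 := he 2 two_ne_zero
  have h3 := he 3 three_ne_zero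
  have h6 := he 6 (by norm_num)
  unfold Psi
  exact (((h1.add (h2.const_mul 4)).sub (h3.const_mul 9)).sub (h6.const_mul 36)).div_const 80

private theorem Rect_Phi_diff {τ : ℂ} (h : 0 < τ.im) : DifferentiableAt ℂ Phi τ :=
  (l_deriv h).differentiableAt.mul (Rect_Psi_diff h)

private theorem Rect_Phi_conj (x : ℝ) {y : ℝ} (hy : 0 < y) :
    Phi (pt (-x) y) = starRingEnd ℂ (Phi (pt x y)) := by
  unfold Phi
  rw [l_conj x hy, Psi_conj x hy, map_mul]

private theorem Rect_pt_im (x y : ℝ) : (pt x y).im = y := by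
  simp [pt]

private theorem Rect_cont_x {y : ℝ} (hy : 0 < y) : Continuous fun x : ℝ => Phi (pt x y) := by
  rw [continuous_iff_continuousAt]
  intro x
  have h1 : ContinuousAt Phi (pt x y) := (Rect_Phi_diff (by rw [Rect_pt_im]; exact hy)).continuousAt
  have h2 : Continuous fun x : ℝ => pt x y := by unfold pt; fun_prop
  exact ContinuousAt.comp (g := Phi) (f := fun x : ℝ => pt x y) h1 h2.continuousAt

private theorem Rect_cont_y (x : ℝ) : ContinuousOn (fun y : ℝ => Phi (pt x y)) (Ioi 0) := by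
  intro y hy
  have h1 : ContinuousAt Phi (pt x y) := (Rect_Phi_diff (by rw [Rect_pt_im]; exact hy)).continuousAt
  have h2 : Continuous fun y : ℝ => pt x y := by unfold pt; fun_prop
  exact (ContinuousAt.comp (g := Phi) (f := fun y : ℝ => pt x y) h1 h2.continuousAt).continuousWithinAt

private theorem y0_pos : 0 < y0 := by unfold y0; positivity

private theorem y0_lt : y0 < 1 := by
  unfold y0
  have h : Real.sqrt 2 < 2 := by
    rw [Real.sqrt_lt' (by norm_num)]
    norm_num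
  linarith

private theorem Rect_sym {F : ℝ → ℂ} (hF : Continuous F) (hs : ∀ x, F (-x) = starRingEnd ℂ (F x))
    (a : ℝ) : ∫ x in (-a)..a, F x = ((2 * (∫ x in (0:ℝ)..a, F x).re : ℝ) : ℂ) := by
  have h1 : ∫ x in (-a)..a, F x = (∫ x in (-a)..0, F x) + ∫ x in (0:ℝ)..a, F x :=
    (intervalIntegral.integral_add_adjacent_intervals (hF.intervalIntegrable _ _)
      (hF.intervalIntegrable _ _)).symm
  have h2 : ∫ x in (-a)..0, F x = ∫ x in (0:ℝ)..a, F (-x) := by
    rw [intervalIntegral.integral_comp_neg]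
    simp
  have h3 : ∫ x in (0:ℝ)..a, F (-x) = starRingEnd ℂ (∫ x in (0:ℝ)..a, F x) := by
    simp only [hs]
    unfold intervalIntegral
    rw [map_sub, integral_conj, integral_conj]
  rw [h1, h2, h3]
  apply Complex.ext
  · simp
    ring
  · simp

/-- Cauchy on the rectangle `[-1/3,1/3] × [y0,1]`, and reflection -/
theorem rect : ∫ x in (-(1/3) : ℝ)..(1/3), l (pt x y0) * Psi (pt x y0) =
    ((2 * (∫ x in (0:ℝ)..(1/3), l (pt x 1) * Psi (pt x 1)).re +
      2 * (∫ y in y0..1, l (pt (1/3) y) * Psi (pt (1/3) y)).im : ℝ) : ℂ) := by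
  have hc := Complex.integral_boundary_rect_eq_zero_of_differentiableOn Phi
    (pt (-(1/3)) y0) (pt (1/3) 1) (by
      intro τ hτ
      refine (Rect_Phi_diff ?_).differentiableWithinAt
      rw [Complex.mem_reProdIm, Rect_pt_im, Rect_pt_im, uIcc_of_le y0_lt.le] at hτ
      exact lt_of_lt_of_le y0_pos hτ.2.1)
  have e1 : (pt (-(1/3)) y0).re = -(1/3) := by simp [pt]
  have e2 : (pt (1/3) 1).re = 1/3 := by simp [pt]
  rw [Rect_pt_im, Rect_pt_im, e1, e2] at hc
  have hT := Rect_sym (Rect_cont_x one_pos) (fun x => Rect_Phi_conj x one_pos) (1/3)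
  have hR : ∫ y in y0..1, Phi (pt (-(1/3)) y) = starRingEnd ℂ (∫ y in y0..1, Phi (pt (1/3) y)) := by
    have h1 : ∫ y in y0..1, Phi (pt (-(1/3)) y) =
        ∫ y in y0..1, starRingEnd ℂ (Phi (pt (1/3) y)) := by
      refine intervalIntegral.integral_congr fun y hy => ?_
      rw [uIcc_of_le y0_lt.le] at hy
      exact Rect_Phi_conj (1/3) (lt_of_lt_of_le y0_pos hy.1)
    rw [h1]
    unfold intervalIntegral
    rw [map_sub, integral_conj, integral_conj]
  change (∫ x in (-(1/3) : ℝ)..(1/3), Phi (pt x y0)) - (∫ x in (-(1/3) : ℝ)..(1/3), Phi (pt x 1)) +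
    Complex.I • (∫ y in y0..1, Phi (pt (1/3) y)) -
      Complex.I • (∫ y in y0..1, Phi (pt (-(1/3)) y)) = 0 at hc
  change (∫ x in (-(1/3) : ℝ)..(1/3), Phi (pt x y0)) =
    ((2 * (∫ x in (0:ℝ)..(1/3), Phi (pt x 1)).re +
      2 * (∫ y in y0..1, Phi (pt (1/3) y)).im : ℝ) : ℂ)
  rw [hT, hR] at hc
  set J : ℂ := ∫ y in y0..1, Phi (pt (1/3) y) with hJ
  set B : ℂ := ∫ x in (-(1/3) : ℝ)..(1/3), Phi (pt x y0) with hB
  have h3 : Complex.I • J - Complex.I • (starRingEnd ℂ J) = ((-(2 * J.im) : ℝ) : ℂ) := by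
    apply Complex.ext
    · simp
      ring
    · simp
  have h4 : B = ((2 * (∫ x in (0:ℝ)..(1/3), Phi (pt x 1)).re : ℝ) : ℂ) -
      (Complex.I • J - Complex.I • (starRingEnd ℂ J)) := by
    linear_combination hc
  rw [h4, h3]
  push_cast
  ring

/-- first half: the integrand -/
private theorem Rect_half1 {t : ℝ} (h0 : 0 ≤ t) (h1 : t ≤ 1 / 2) :
    Lp t * Wk (ka Lp t) * dLp t =
      (2 / 3 : ℝ) • (2 * Real.pi * Complex.I * Phi (pt (2 / 3 * t) 1)) := by
  have e1 : tp t = pt (2 / 3 * t) 1 := by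
    unfold tp
    rw [if_pos h1]
    congr 1
    ring
  have e2 : ka Lp t = kt (tp t) := rfl
  have e3 : Wk (kt (pt (2 / 3 * t) 1)) = _ := W_top (x := 2 / 3 * t) (by positivity) (by linarith)
  have e4 := Psi_eq (τ := pt (2 / 3 * t) 1) (by rw [Rect_pt_im]; exact one_pos)
  unfold Phi dLp Lp
  rw [if_pos ⟨h0, by linarith⟩, if_pos h1]
  change l (tp t) * Wk (kt (tp t)) * _ = _
  rw [e1, e3]
  rw [Complex.real_smul]
  push_cast
  linear_combination (-(2 / 3 : ℂ) * l (pt (2 / 3 * t) 1) * (Real.pi * Complex.I)) * e4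

/-- second half: the integrand -/
private theorem Rect_half2 {t : ℝ} (h0 : 1 / 2 < t) (h1 : t < 1) :
    Lp t * Wk (ka Lp t) * dLp t =
      (2 * (1 - y0) : ℝ) • (2 * Real.pi * Phi (pt (1 / 3) ((2 - y0) - 2 * (1 - y0) * t))) := by
  have hy1 : 0 < 1 - y0 := by linarith [y0_lt]
  have e1 : tp t = pt (1 / 3) ((2 - y0) - 2 * (1 - y0) * t) := by
    unfold tp
    rw [if_neg (by linarith)]
    congr 1
    ring
  have hy : y0 < (2 - y0) - 2 * (1 - y0) * t := by nlinarith
  have hy2 : (2 - y0) - 2 * (1 - y0) * t ≤ 1 := by nlinarith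
  have e3 := W_ray hy hy2
  have e4 := Psi_eq (τ := pt (1 / 3) ((2 - y0) - 2 * (1 - y0) * t))
    (by rw [Rect_pt_im]; linarith [y0_pos])
  unfold Phi dLp Lp
  rw [if_pos ⟨by linarith, h1.le⟩, if_neg (by linarith)]
  change l (tp t) * Wk (kt (tp t)) * _ = _
  rw [e1, e3]
  rw [Complex.real_smul]
  push_cast
  set τ := pt (1 / 3) ((2 - y0) - 2 * (1 - y0) * t)
  have hI := Complex.I_sq
  linear_combination (-(2 * (1 - (y0 : ℂ))) * l τ * Real.pi) * e4 -
    (2 * (1 - (y0 : ℂ))) * l τ * Real.pi * (ca (qq τ) * ca (qq τ ^ 2) *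
      (ca (qq τ) ^ 2 - 2 * ca (qq τ ^ 2) ^ 2)) * hI

/-- the path integral in terms of `l Psi` -/
theorem link : (∫ t in (0:ℝ)..1, Lp t * Wk (ka Lp t) * dLp t).im =
    2 * Real.pi * ((∫ x in (0:ℝ)..(1/3), l (pt x 1) * Psi (pt x 1)).re +
      (∫ y in y0..1, l (pt (1/3) y) * Psi (pt (1/3) y)).im) := by
  have hy1 : 0 < 1 - y0 := by linarith [y0_lt]
  set F : ℝ → ℂ := fun t => Lp t * Wk (ka Lp t) * dLp t with hF
  set G1 : ℝ → ℂ := fun t => (2 / 3 : ℝ) • (2 * Real.pi * Complex.I * Phi (pt (2 / 3 * t) 1)) with hG1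
  set G2 : ℝ → ℂ := fun t => (2 * (1 - y0) : ℝ) •
    (2 * Real.pi * Phi (pt (1 / 3) ((2 - y0) - 2 * (1 - y0) * t))) with hG2
  have c1 : Continuous G1 := by
    have h := (Rect_cont_x one_pos).comp (continuous_const_mul (2 / 3 : ℝ))
    exact (continuous_const.mul h).const_smul (2 / 3 : ℝ)
  have c2 : ContinuousOn G2 (uIcc (1 / 2) 1) := by
    rw [uIcc_of_le (by norm_num)]
    have h : ContinuousOn (fun t : ℝ => Phi (pt (1 / 3) ((2 - y0) - 2 * (1 - y0) * t)))
        (Icc (1 / 2) 1) := by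
      refine ContinuousOn.comp (g := fun y : ℝ => Phi (pt (1 / 3) y)) (t := Ioi 0)
        (Rect_cont_y (1 / 3)) (by fun_prop) ?_
      intro t ht
      have h1 : 2 * (1 - y0) * t ≤ 2 * (1 - y0) * 1 :=
        mul_le_mul_of_nonneg_left ht.2 (by linarith)
      have := y0_pos
      simp only [mem_Ioi]
      linarith
    exact ((continuousOn_const (c := (2 * Real.pi : ℂ))).mul h).const_smul (2 * (1 - y0) : ℝ)
  have hae : ∀ᵐ t : ℝ, t ≠ 1 / 2 ∧ t ≠ 1 := by
    have h1 : ∀ᵐ t : ℝ, t ≠ 1 / 2 := Measure.ae_ne volume _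
    have h2 : ∀ᵐ t : ℝ, t ≠ 1 := Measure.ae_ne volume _
    filter_upwards [h1, h2] with t a b using ⟨a, b⟩
  have a1 : ∀ᵐ t : ℝ, t ∈ uIoc (0:ℝ) (1 / 2) → F t = G1 t := by
    filter_upwards with t ht
    rw [uIoc_of_le (by norm_num)] at ht
    exact Rect_half1 ht.1.le ht.2
  have a2 : ∀ᵐ t : ℝ, t ∈ uIoc (1 / 2 : ℝ) 1 → F t = G2 t := by
    filter_upwards [hae] with t h1 ht
    rw [uIoc_of_le (by norm_num)] at ht
    exact Rect_half2 ht.1 (lt_of_le_of_ne ht.2 h1.2)
  have i1 : IntervalIntegrable F volume 0 (1 / 2) := by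
    refine (c1.intervalIntegrable 0 (1/2)).congr_ae ?_
    rw [Filter.EventuallyEq, ae_restrict_iff' measurableSet_uIoc]
    filter_upwards [a1] with t h ht using (h ht).symm
  have i2 : IntervalIntegrable F volume (1 / 2) 1 := by
    refine (c2.intervalIntegrable).congr_ae ?_
    rw [Filter.EventuallyEq, ae_restrict_iff' measurableSet_uIoc]
    filter_upwards [a2] with t h ht using (h ht).symm
  have s1 : ∫ t in (0:ℝ)..(1 / 2), F t = 2 * Real.pi * Complex.I *
      ∫ x in (0:ℝ)..(1/3), Phi (pt x 1) := by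
    rw [intervalIntegral.integral_congr_ae a1, hG1, intervalIntegral.integral_smul,
      intervalIntegral.smul_integral_comp_mul_left
        (fun x : ℝ => 2 * Real.pi * Complex.I * Phi (pt x 1)),
      intervalIntegral.integral_const_mul]
    norm_num
  have s2 : ∫ t in (1 / 2 : ℝ)..1, F t = 2 * Real.pi * ∫ y in y0..1, Phi (pt (1/3) y) := by
    rw [intervalIntegral.integral_congr_ae a2, hG2, intervalIntegral.integral_smul,
      intervalIntegral.smul_integral_comp_sub_mul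
        (fun y : ℝ => 2 * Real.pi * Phi (pt (1/3) y)),
      intervalIntegral.integral_const_mul]
    have e1 : (2 - y0) - 2 * (1 - y0) * 1 = y0 := by ring
    have e2 : (2 - y0) - 2 * (1 - y0) * (1 / 2) = 1 := by ring
    rw [e1, e2]
  change (∫ t in (0:ℝ)..1, F t).im = 2 * Real.pi * ((∫ x in (0:ℝ)..(1/3), Phi (pt x 1)).re +
      (∫ y in y0..1, Phi (pt (1/3) y)).im)
  rw [← intervalIntegral.integral_add_adjacent_intervals i1 i2, s1, s2]
  simp [Complex.mul_im, Complex.mul_re]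
  ring

/-- boundedness of `Wk` along the path -/
theorem Wk_bound : ∃ B : ℝ, ∀ t ∈ Ioo (0:ℝ) 1, ‖Wk (ka Lp t)‖ ≤ B := by
  have hca : ∀ x y : ℝ, 0 < y → ∀ k : ℕ, k ≠ 0 →
      ContinuousAt ca (qq (pt x y) ^ k) := by
    intro x y hy k hk
    refine (ca_diff.differentiableAt (Metric.isOpen_ball.mem_nhds ?_)).continuousAt
    rw [Metric.mem_ball, dist_zero_right]
    exact Rect_pow_lt (Rect_qq_norm (by rw [Rect_pt_im]; exact hy)) hk
  have hx : ∀ k : ℕ, k ≠ 0 → Continuous fun x : ℝ => ca (qq (pt x 1) ^ k) := by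
    intro k hk
    rw [continuous_iff_continuousAt]
    intro x
    have h2 : Continuous fun x : ℝ => qq (pt x 1) ^ k := by unfold pt qq; fun_prop
    exact ContinuousAt.comp (g := ca) (f := fun x : ℝ => qq (pt x 1) ^ k) (hca x 1 one_pos k hk)
      h2.continuousAt
  have hy : ∀ k : ℕ, k ≠ 0 → ContinuousOn (fun y : ℝ => ca (qq (pt (1/3) y) ^ k)) (Icc y0 1) := by
    intro k hk y hy
    have h2 : Continuous fun y : ℝ => qq (pt (1/3) y) ^ k := by unfold pt qq; fun_prop
    exact (ContinuousAt.comp (g := ca) (f := fun y : ℝ => qq (pt (1/3) y) ^ k)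
      (hca (1/3) y (lt_of_lt_of_le y0_pos hy.1) k hk) h2.continuousAt).continuousWithinAt
  obtain ⟨B1, hB1⟩ := isCompact_Icc.exists_bound_of_continuousOn (s := Icc (0:ℝ) (1/3))
    ((hx 1 one_ne_zero).mul (hx 2 two_ne_zero)).continuousOn
  obtain ⟨B2, hB2⟩ := isCompact_Icc.exists_bound_of_continuousOn (s := Icc y0 1)
    ((hy 1 one_ne_zero).mul (hy 2 two_ne_zero))
  simp only [pow_one] at hB1 hB2
  refine ⟨max B1 B2, fun t ht => ?_⟩
  by_cases h : t ≤ 1 / 2
  · have e1 : ka Lp t = kt (pt (2 * t / 3) 1) := by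
      change kt (tp t) = _
      unfold tp
      rw [if_pos h]
    have h1 : 0 ≤ 2 * t / 3 := by have := ht.1; positivity
    have h2 : 2 * t / 3 ≤ 1 / 3 := by linarith
    rw [e1, W_top h1 h2]
    exact (hB1 _ ⟨h1, h2⟩).trans (le_max_left _ _)
  · have e1 : ka Lp t = kt (pt (1 / 3) (y0 + 2 * (1 - t) * (1 - y0))) := by
      change kt (tp t) = _
      unfold tp
      rw [if_neg h]
    have hy1 : 0 < 1 - y0 := by linarith [y0_lt]
    have ht1 : 0 < 1 - t := by linarith [ht.2]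
    push Not at h
    have h1 : y0 < y0 + 2 * (1 - t) * (1 - y0) := by
      have := mul_pos ht1 hy1
      linarith
    have h2 : y0 + 2 * (1 - t) * (1 - y0) ≤ 1 := by nlinarith
    rw [e1, W_ray h1 h2]
    exact (hB2 _ ⟨h1.le, h2⟩).trans (le_max_right _ _)

end D8W
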