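import Mathlib
import Pool.Agent.D8W.Defs
import Pool.Agent.D8W.Lam
import Pool.Agent.D8W.An
import Pool.Agent.D8W.Pa
import Pool.Agent.D8W.Rect

/-!
# D8W/Main: the walk theorem
-/

set_option autoImplicit false

open MeasureTheory Set

namespace D8W

open RV15W

theorem walk : (mP : ℂ) =
    -(8 / 3) * ∫ x in (-(1/3) : ℝ)..(1/3), l (pt x y0) * Psi (pt x y0) := by
  obtain ⟨c, C, h⟩ := isPath
  obtain ⟨B, hB⟩ := Wk_bound
  have h1 := path_main h hB
  rw [link] at h1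
  rw [rect, mP_lam]
  have hpi : Real.pi ≠ 0 := Real.pi_ne_zero
  have h2 : ∫ v, lam v ∂mu = -(8 / 3) *
      ((∫ x in (0:ℝ)..(1/3), l (pt x 1) * Psi (pt x 1)).re +
      (∫ y in y0..1, l (pt (1/3) y) * Psi (pt (1/3) y)).im) := by
    apply mul_left_cancel₀ hpi
    rw [h1]
    ring
  rw [h2]
  push_cast
  ring

end D8W
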